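import Pool.Agent.V7H59.CT.Sem

/-!
# The inputs as numbers
-/

set_option autoImplicit false

namespace Pool.Agent.V7H59.CT

open Finset

theorem num_digit (x : List Bool) : ∀ (k : ℕ) (b : Bool), x[k]? = some b →
    num x / 2 ^ k % 2 = b.toNat := by
  induction x with
  | nil => intro k b h; simp at h
  | cons a l ih =>
    intro k b h
    cases k with
    | zero =>
      simp only [List.getElem?_cons_zero, Option.some.injEq] at h
      subst h
      rw [num, Nat.bit_val]
      cases a <;> simp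
    | succ k =>
      rw [List.getElem?_cons_succ] at h
      rw [num, Nat.bit_val, pow_succ', ← Nat.div_div_eq_div_mul]
      have e : (2 * num l + a.toNat) / 2 = num l := by
        have := Bool.toNat_lt a
        omega
      rw [e]
      exact ih k b h

theorem exists_num (n : ℕ) : ∀ e < 2 ^ n, ∃ x : List Bool, x.length = n ∧ num x = 2 ^ n + e := by
  induction n with
  | zero =>
    intro e he
    refine ⟨[], rfl, ?_⟩
    rw [pow_zero] at he
    rw [num]
    omega
  | succ n ih =>
    intro e he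
    rw [pow_succ] at he
    obtain ⟨x, hx, hx'⟩ := ih (e / 2) (by omega)
    refine ⟨decide (e % 2 = 1) :: x, by rw [List.length_cons, hx], ?_⟩
    rw [num, Nat.bit_val, hx', pow_succ]
    have h1 : (decide (e % 2 = 1)).toNat = e % 2 := by
      rcases Nat.mod_two_eq_zero_or_one e with h | h <;> simp [h]
    rw [h1]
    omega

theorem selfC_num {x : List Bool} {n e : ℕ} (hx : x.length = n) (h : num x = 2 ^ n + e) :
    selfC (num x) = e := by
  unfold selfC
  rw [sz_eq, num_size, hx, Nat.add_sub_cancel, powT_eq (by omega)]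
  omega

theorem nX_num (x : List Bool) (e : ℕ) : nX (Nat.pair (num x) e) = x.length := by
  unfold nX
  rw [Nat.unpair_pair, sz_eq, num_size]
  omega

theorem eX_num (x : List Bool) (e : ℕ) : eX (Nat.pair (num x) e) = e := by
  unfold eX
  rw [Nat.unpair_pair]

/-- The code of an automaton and a time. -/
def mkC (tab q i0 i1 bl am t : ℕ) : ℕ :=
  Nat.pair tab (Nat.pair q (Nat.pair i0 (Nat.pair i1 (Nat.pair bl (Nat.pair am t)))))

theorem mkC_lt {tab q i0 i1 bl am t μ ν : ℕ} (hq : q < 2 ^ μ) (h0 : i0 < 2 ^ μ) (h1 : i1 < 2 ^ μ)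
    (hb : bl < 2 ^ μ) (ha : am < 2 ^ μ) (ht : t < 2 ^ μ) (htab : tab < 2 ^ ν) (hν : 32 * μ ≤ ν) :
    mkC tab q i0 i1 bl am t < 2 ^ (2 * ν) := by
  have up : ∀ {a k l : ℕ}, a < 2 ^ k → k ≤ l → a < 2 ^ l := fun h h' =>
    h.trans_le (Nat.pow_le_pow_right (by norm_num) h')
  have pr : ∀ {a b k : ℕ}, a < 2 ^ k → b < 2 ^ k → Nat.pair a b < 2 ^ (2 * k) := by
    intro a b k ha hb
    have := pair_bound ha hb
    rwa [← pow_mul, mul_comm k 2] at this
  have r5 := pr ha ht
  have r4 := pr (up hb (by omega)) r5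
  have r3 := pr (up h1 (by omega)) r4
  have r2 := pr (up h0 (by omega)) r3
  have r1 := pr (up hq (by omega)) r2
  exact pr htab (up r1 (by omega))

section

variable (x : List Bool) (tab q i0 i1 bl am t : ℕ)

theorem tabX_num : tabX (Nat.pair (num x) (mkC tab q i0 i1 bl am t)) = tab := by
  unfold tabX
  rw [eX_num]
  simp [un, mkC]

theorem qX_num : qX (Nat.pair (num x) (mkC tab q i0 i1 bl am t)) = q + 2 := by
  unfold qX
  rw [eX_num]
  simp [un, mkC]

theorem i0X_num : i0X (Nat.pair (num x) (mkC tab q i0 i1 bl am t)) = i0 := by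
  unfold i0X
  rw [eX_num]
  simp [un, mkC]

theorem i1X_num : i1X (Nat.pair (num x) (mkC tab q i0 i1 bl am t)) = i1 := by
  unfold i1X
  rw [eX_num]
  simp [un, mkC]

theorem blX_num : blX (Nat.pair (num x) (mkC tab q i0 i1 bl am t)) = bl := by
  unfold blX
  rw [eX_num]
  simp [un, mkC]

theorem amX_num : amX (Nat.pair (num x) (mkC tab q i0 i1 bl am t)) = am := by
  unfold amX
  rw [eX_num]
  simp [un, mkC]

theorem tX_num : tX (Nat.pair (num x) (mkC tab q i0 i1 bl am t)) = t := by
  unfold tX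
  rw [eX_num]
  simp [rst, mkC]

end

theorem A0X_eq {d : ℕ} [NeZero d] {M : CellAut d} {q : ℕ} (κ : Coding M q) {x : List Bool}
    {e : ℕ} (h0 : i0X (Nat.pair (num x) e) = κ.enc (M.input false))
    (h1 : i1X (Nat.pair (num x) e) = κ.enc (M.input true))
    (hb : blX (Nat.pair (num x) e) = κ.enc M.blank) {W T : ℕ} (hW : WX (Nat.pair (num x) e) = W)
    (hT : tX (Nat.pair (num x) e) = T) (hTW : T < W) {Q : ℕ} (hQ : Q < W ^ d) :
    A0X d (Nat.pair (num x) e) Q = κ.enc (M.start x fun i =>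
      ((Q / W ^ (i : ℕ) % W : ℕ) : ℤ) - T) := by
  have hd : 0 < d := Nat.pos_of_ne_zero (NeZero.ne d)
  have hW0 : 0 < W := by omega
  have hQW : Q / W < W ^ (d - 1) := by
    rw [Nat.div_lt_iff_lt_mul hW0, ← pow_succ]
    have : d - 1 + 1 = d := by omega
    rwa [this]
  have esum : ∑ j ∈ range (d - 1), T * W ^ j = ∑ j ∈ range (d - 1), T % W * W ^ j := by
    rw [Nat.mod_eq_of_lt hTW]
  have z0 : ((0 : Fin d) : ℕ) = 0 := Fin.val_zero d
  obtain ⟨z, hz⟩ : ∃ z : Fin d → ℤ, ∀ i, z i = ((Q / W ^ (i : ℕ) % W : ℕ) : ℤ) - T :=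
    ⟨_, fun _ => rfl⟩
  have ez : (fun i : Fin d => ((Q / W ^ (i : ℕ) % W : ℕ) : ℤ) - T) = z :=
    funext fun i => (hz i).symm
  have hz0 : z 0 = ((Q % W : ℕ) : ℤ) - T := by
    rw [hz, z0, pow_zero, Nat.div_one]
  rw [ez]
  unfold A0X CellAut.start
  rw [hW, hT, Nat.unpair_pair]
  by_cases c1 : Q / W = ∑ j ∈ range (d - 1), T * W ^ j
  · rw [if_pos c1]
    have c2 : ∀ i : Fin d, i ≠ 0 → z i = 0 := by
      intro i hi
      have hi0 : (i : ℕ) ≠ 0 := fun h => hi (Fin.ext (by rw [h, z0]))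
      have e1 : (i : ℕ) = 1 + ((i : ℕ) - 1) := by omega
      rw [hz, e1, pow_add, pow_one, ← Nat.div_div_eq_div_mul, c1, esum,
        digit_sum hW0 (d - 1) (fun _ => T) (by omega), Nat.mod_eq_of_lt hTW]
      simp
    by_cases c3 : Q % W < T
    · rw [if_pos c3, hb, if_neg]
      rintro ⟨_, h4⟩
      rw [hz0] at h4
      omega
    · have c4 : 0 ≤ z 0 := by rw [hz0]; omega
      rw [if_neg c3]
      rw [if_pos (show (∀ i : Fin d, i ≠ 0 → z i = 0) ∧ 0 ≤ z 0 from ⟨c2, c4⟩)]
      have e2 : (z 0).toNat = Q % W - T := by omega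
      rw [e2, nX_num]
      by_cases c4 : Q % W < T + x.length
      · rw [if_pos c4]
        have h4 : Q % W - T < x.length := by omega
        have h5 : x[Q % W - T]? = some x[Q % W - T] := List.getElem?_eq_getElem h4
        rw [h5, dgt_eq, num_digit x _ _ h5]
        cases x[Q % W - T] with
        | false => rw [if_pos (show Bool.toNat false = 0 from rfl), h0]; rfl
        | true => rw [if_neg (show Bool.toNat true ≠ 0 from one_ne_zero), h1]; rfl
      · rw [if_neg c4]
        have h5 : x[Q % W - T]? = none := List.getElem?_eq_none (by omega)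
        rw [h5, hb]
        rfl
  · rw [if_neg c1, hb, if_neg]
    rintro ⟨h4, _⟩
    apply c1
    refine eq_of_dgt hW0 hQW (by rw [esum]; exact sum_digits_lt hW0 _ _) fun j hj => ?_
    have h5 := h4 ⟨j + 1, by omega⟩ (by
      intro h
      have := congrArg Fin.val h
      rw [z0] at this
      simp at this)
    rw [hz] at h5
    rw [esum, digit_sum hW0 (d - 1) (fun _ => T) hj, Nat.mod_eq_of_lt hTW,
      Nat.div_div_eq_div_mul, ← pow_succ']
    simp only at h5
    omega

end Pool.Agent.V7H59.CT
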