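import Pool.Agent.V7H59.CT.Bd

/-!
# The parameters of the algorithm, from the input
-/

set_option autoImplicit false

namespace Pool.Agent.V7H59.CT

open Finset

/-- The number of the binary digits. -/
def sz (a : ℕ) : ℕ := lfind (fun i => if a < powT 2 i (a + 1) then 1 else 0) (a + 1)

theorem sz_eq (a : ℕ) : sz a = a.size := by
  refine lfind_eq ?_ ?_ ?_
  · have : a.size ≤ a := Nat.size_le.2 Nat.lt_two_pow_self
    omega
  · rw [if_pos]
    · exact one_ne_zero
    · exact lt_min (Nat.lt_size_self a) (Nat.lt_succ_self a)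
  · intro i hi
    rw [if_neg]
    rw [not_lt]
    exact (min_le_left _ _).trans (Nat.lt_size.1 hi)

theorem L.sz {A : (ℕ → ℕ) → ℕ} (hA : L A) : L (fun e => CT.sz (A e)) :=
  L.find (P := fun e i => if A e < CT.powT 2 i (A e + 1) then 1 else 0) hA.succ
    (L.ite_lt hA.tl (L.powT (L.const 2) (L.var 0) hA.tl.succ) (L.const 1) L.zero)

/-- The number is a prime. -/
def isP (m : ℕ) : ℕ := if lfind (fun k => if m % (k + 2) = 0 then 1 else 0) m + 2 = m then 1 else 0

theorem isP_iff {m : ℕ} (hm : 2 ≤ m) : isP m ≠ 0 ↔ m.Prime := by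
  have h : lfind (fun k => if m % (k + 2) = 0 then 1 else 0) m = m.minFac - 2 := by
    have h2 : 2 ≤ m.minFac := (Nat.minFac_prime (by omega)).two_le
    have h3 : m.minFac ≤ m := Nat.minFac_le (by omega)
    refine lfind_eq (by omega) ?_ ?_
    · rw [if_pos]
      · exact one_ne_zero
      · rw [Nat.sub_add_cancel h2]
        exact Nat.mod_eq_zero_of_dvd (Nat.minFac_dvd m)
    · intro i hi
      rw [if_neg]
      intro h4
      have h5 : m.minFac ≤ i + 2 := Nat.minFac_le_of_dvd (by omega) (Nat.dvd_of_mod_eq_zero h4)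
      omega
  unfold isP
  rw [h]
  have h2 : 2 ≤ m.minFac := (Nat.minFac_prime (by omega)).two_le
  rw [Nat.sub_add_cancel h2]
  constructor
  · intro h3
    by_contra h4
    apply h3
    rw [if_neg]
    intro h5
    exact h4 (Nat.prime_def_minFac.2 ⟨hm, h5⟩)
  · intro h3
    rw [if_pos h3.minFac_eq]
    exact one_ne_zero

theorem L.isP {A : (ℕ → ℕ) → ℕ} (hA : L A) : L (fun e => CT.isP (A e)) :=
  L.ite_eq ((L.find (P := fun e k => if A e % (k + 2) = 0 then 1 else 0) hA
    (L.ite0 (hA.tl.mod ((L.var 0).add (L.const 2))) (L.const 1) L.zero)).add (L.const 2)) hA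
    (L.const 1) L.zero

/-- The least prime above `a`. -/
def nextP (a : ℕ) : ℕ := a + 1 + lfind (fun i => isP (a + 1 + i)) a

theorem nextP_spec {a : ℕ} (ha : 1 ≤ a) : (nextP a).Prime ∧ a < nextP a ∧ nextP a ≤ 2 * a := by
  obtain ⟨p, hp, h1, h2⟩ := Nat.exists_prime_lt_and_le_two_mul a (by omega)
  have h3 := lfind_spec (fun i => isP (a + 1 + i)) a
  have h4 : lfind (fun i => isP (a + 1 + i)) a < a := by
    by_contra h5
    have h6 := h3.1 (p - (a + 1)) (by omega)
    have h7 : a + 1 + (p - (a + 1)) = p := by omega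
    rw [h7] at h6
    exact (isP_iff hp.two_le).2 hp h6
  have h5 := h3.2 h4
  unfold nextP
  exact ⟨(isP_iff (by omega)).1 h5, by omega, by omega⟩

theorem L.nextP {A : (ℕ → ℕ) → ℕ} (hA : L A) : L (fun e => CT.nextP (A e)) :=
  hA.succ.add (L.find (P := fun e i => CT.isP (A e + 1 + i)) hA (hA.tl.succ.add (L.var 0)).isP)

/-- The components of a nested pair. -/
def un : ℕ → ℕ → ℕ
  | 0, e => e.unpair.1
  | k + 1, e => un k e.unpair.2

/-- The rests of a nested pair. -/
def rst : ℕ → ℕ → ℕ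
  | 0, e => e
  | k + 1, e => rst k e.unpair.2

theorem L.un (k : ℕ) {A : (ℕ → ℕ) → ℕ} (hA : L A) : L (fun e => CT.un k (A e)) := by
  induction k generalizing A with
  | zero => exact hA.fst
  | succ k ih => exact ih hA.snd

theorem L.rst (k : ℕ) {A : (ℕ → ℕ) → ℕ} (hA : L A) : L (fun e => CT.rst k (A e)) := by
  induction k generalizing A with
  | zero => exact hA
  | succ k ih => exact ih hA.snd

/-- The length of the input. -/
def nX (X : ℕ) : ℕ := sz X.unpair.1 - 1
/-- The code of the automaton and the time. -/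
def eX (X : ℕ) : ℕ := X.unpair.2
/-- The table of the automaton. -/
def tabX (X : ℕ) : ℕ := un 0 (eX X)
/-- The number of the states. -/
def qX (X : ℕ) : ℕ := un 1 (eX X) + 2
/-- The state for an input bit `0`. -/
def i0X (X : ℕ) : ℕ := un 2 (eX X)
/-- The state for an input bit `1`. -/
def i1X (X : ℕ) : ℕ := un 3 (eX X)
/-- The state for the cells outside of the input. -/
def blX (X : ℕ) : ℕ := un 4 (eX X)
/-- The accepting states. -/
def amX (X : ℕ) : ℕ := un 5 (eX X)
/-- The time. -/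
def tX (X : ℕ) : ℕ := rst 6 (eX X)
/-- The number of the cells held by a register. -/
def mX (X : ℕ) : ℕ := lfind (fun i => if nX X < powT (qX X) (i + 1) (nX X + 1) then 1 else 0) (nX X)
/-- The side of the blocks. -/
def bX (d X : ℕ) : ℕ :=
  lfind (fun i => if nX X < (i + 1) ^ d * sz (qX X) then 1 else 0) (nX X + 1)
/-- The number of the registers for a block. -/
def VX (d X : ℕ) : ℕ := bX d X ^ d / mX X + 1
/-- The order of the field. -/
def pX (d X : ℕ) : ℕ := nextP (3 ^ d * VX d X * powT (qX X) (mX X) (nX X) + 1)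
/-- The base for the positions. -/
def WX (X : ℕ) : ℕ := 2 * tX X + 3
/-- The bound for all numbers. -/
def BX (C X : ℕ) : ℕ := (X + 2) ^ C

/-- The initial states. -/
def A0X (d X Q : ℕ) : ℕ :=
  if Q / WX X = ∑ j ∈ range (d - 1), tX X * WX X ^ j then
    (if Q % WX X < tX X then blX X else if Q % WX X < tX X + nX X then
      (if dgt 2 X.unpair.1 (Q % WX X - tX X) = 0 then i0X X else i1X X) else blX X)
  else blX X

/-- The register program for the pair `X` of the input and the code. -/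
def PX (d C X : ℕ) : Par :=
  parCA (BX C X) (pX d X) d (bX d X) (qX X) (tabX X) (WX X) (mX X) (VX d X) (tX X % bX d X)
    (A0X d X)

/-- The answer, opposite to the answer of the automaton. -/
def FX (d C X : ℕ) : ℕ :=
  if dgt 2 (amX X) (dgt (pX d X) (runB (PX d C X) (tX X / bX d X)) 0 % qX X) = 0 then 1 else 0

section

variable {A : (ℕ → ℕ) → ℕ} (hA : L A)
include hA

theorem L.nX : L (fun e => CT.nX (A e)) := hA.fst.sz.sub (L.const 1)
theorem L.eX : L (fun e => CT.eX (A e)) := hA.snd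
theorem L.tabX : L (fun e => CT.tabX (A e)) := L.un 0 (L.eX hA)
theorem L.qX : L (fun e => CT.qX (A e)) := (L.un 1 (L.eX hA)).succ.succ
theorem L.i0X : L (fun e => CT.i0X (A e)) := L.un 2 (L.eX hA)
theorem L.i1X : L (fun e => CT.i1X (A e)) := L.un 3 (L.eX hA)
theorem L.blX : L (fun e => CT.blX (A e)) := L.un 4 (L.eX hA)
theorem L.amX : L (fun e => CT.amX (A e)) := L.un 5 (L.eX hA)
theorem L.tX : L (fun e => CT.tX (A e)) := L.rst 6 (L.eX hA)

theorem L.mX : L (fun e => CT.mX (A e)) :=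
  L.find (P := fun e i => if CT.nX (A e) < CT.powT (CT.qX (A e)) (i + 1) (CT.nX (A e) + 1)
    then 1 else 0) (L.nX hA)
    (L.ite_lt (L.nX hA.tl) (L.powT (L.qX hA.tl) (L.var 0).succ (L.nX hA.tl).succ) (L.const 1)
      L.zero)

theorem L.bX (d : ℕ) : L (fun e => CT.bX d (A e)) :=
  L.find (P := fun e i => if CT.nX (A e) < (i + 1) ^ d * CT.sz (CT.qX (A e)) then 1 else 0)
    (L.nX hA).succ
    (L.ite_lt (L.nX hA.tl) (((L.var 0).succ.powc d).mul (L.qX hA.tl).sz) (L.const 1) L.zero)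

theorem L.VX (d : ℕ) : L (fun e => CT.VX d (A e)) := (((L.bX hA d).powc d).div (L.mX hA)).succ

theorem L.pX (d : ℕ) : L (fun e => CT.pX d (A e)) :=
  (((L.const (3 ^ d)).mul (L.VX hA d)).mul (L.powT (L.qX hA) (L.mX hA) (L.nX hA))).succ.nextP

theorem L.WX : L (fun e => CT.WX (A e)) := ((L.const 2).mul (L.tX hA)).add (L.const 3)
theorem L.BX (C : ℕ) : L (fun e => CT.BX C (A e)) := (hA.add (L.const 2)).powc C

theorem L.A0X (d : ℕ) {Q : (ℕ → ℕ) → ℕ} (hQ : L Q) : L (fun e => CT.A0X d (A e) (Q e)) := by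
  have hW := L.WX hA
  have hT := L.tX hA
  have hn := L.nX hA
  have hb := L.blX hA
  exact L.ite_eq (hQ.div hW)
    (L.sumc (d - 1) (f := fun e j => CT.tX (A e) * CT.WX (A e) ^ j) fun j _ => hT.mul (hW.powc j))
    (L.ite_lt (hQ.mod hW) hT hb (L.ite_lt (hQ.mod hW) (hT.add hn)
      (L.ite0 (L.dgt (L.const 2) hA.fst ((hQ.mod hW).sub hT)) (L.i0X hA) (L.i1X hA)) hb)) hb

end

theorem qX_pos (X : ℕ) : 0 < qX X := Nat.succ_pos _

theorem pX_pos (d X : ℕ) : 0 < pX d X := (nextP_spec (by omega)).1.pos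

theorem lp_PX (d C : ℕ) : LP (PX d C) where
  B hA := L.BX hA C
  p hA := L.pX hA d
  D _ := L.const (3 ^ d)
  V hA := L.VX hA d
  child hA hP hi := hP.add ((L.bX hA d).mul (L.rb d (L.const 3) (L.WX hA) hi))
  leaf hA hP hi := L.leafN d (A0 := fun _ Q => A0X d _ Q) (L.BX hA C) (L.bX hA d) (L.qX hA)
    (L.tabX hA) (L.WX hA) (L.mX hA) ((L.tX hA).mod (L.bX hA d)) (L.A0X hA.tl d (L.var 0)) hP hi
    fun _ => qX_pos _
  E hA hR ho hk := L.evN d (L.BX hA C) (L.pX hA d) (L.bX hA d) (L.qX hA) (L.tabX hA) (L.mX hA)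
    (L.VX hA d) hR ho hk (fun _ => qX_pos _) fun _ => pX_pos d _
  inv hA hl := L.inv (L.pX hA d) hl
  pos X := pX_pos d X

theorem L.FX (d C : ℕ) {A : (ℕ → ℕ) → ℕ} (hA : L A) : L (fun e => CT.FX d C (A e)) :=
  L.ite0 (L.dgt (L.const 2) (L.amX hA) ((L.dgt (L.pX hA d)
    ((lp_PX d C).runB hA ((L.tX hA).div (L.bX hA d))) L.zero).mod (L.qX hA))) (L.const 1) L.zero

/-- The input as a code of an automaton and a time. -/
def selfC (X : ℕ) : ℕ := X - powT 2 (sz X - 1) X

/-- The language. -/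
def lang (d C : ℕ) : Set (List Bool) := {x | FX d C (Nat.pair (num x) (selfC (num x))) ≠ 0}

theorem L_lang (d C : ℕ) : L (fun e => FX d C (Nat.pair (e 0) (selfC (e 0)))) :=
  L.FX d C ((L.var 0).pair ((L.var 0).sub (L.powT (L.const 2) ((L.var 0).sz.sub (L.const 1))
    (L.var 0))))

theorem lang_inLinSpace (d C : ℕ) : InLinSpace (lang d C) :=
  inLinSpace_of_L (L_lang d C) _ fun x => by
    rw [Function.update_self]
    rfl

/-- A program for the language. -/
theorem lang_run (d C : ℕ) : ∃ (c : Pool.Agent.NPC.Cmd ℕ) (C' : ℕ) (f : List Bool → Bool),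
    (∀ x, x ∈ lang d C ↔ f x = true) ∧ ∀ x : List Bool,
      RunS (C' * (x.length + 1)) c (Pool.Agent.NPC.inp x) (Pool.Agent.NPC.inp [f x]) := by
  obtain ⟨c, C', h⟩ := runS_of_L (L_lang d C)
  refine ⟨c, C', _, fun x => ?_, h⟩
  rw [decide_eq_true_iff, Function.update_self]
  rfl

end Pool.Agent.V7H59.CT
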