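import Pool.Agent.V7H59.CT.Inp

/-!
# The diagonal argument
-/

set_option autoImplicit false

namespace Pool.Agent.V7H59.CT

open Finset

/-- Some coding of an automaton. -/
noncomputable def coding {d : ℕ} (M : CellAut d) {q : ℕ} (hq : Fintype.card M.Q ≤ q) :
    Coding M q where
  enc s := (Fintype.equivFin M.Q s : ℕ)
  dec j := if h : j < Fintype.card M.Q then (Fintype.equivFin M.Q).symm ⟨j, h⟩ else M.blank
  enc_lt s := (Fintype.equivFin M.Q s).2.trans_le hq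
  dec_enc s := by
    rw [dif_pos (Fintype.equivFin M.Q s).2]
    simp

theorem FX_iff {d c : ℕ} [NeZero d] {M : CellAut d} {q n t : ℕ} (κ : Coding M (q + 2))
    {x : List Bool} (hx : x.length = n) (hn : 1 ≤ n) (hq : q + 2 ≤ n)
    (ht : (t * n.size) ^ d * (q + 2).size ≤ c * n ^ (d + 1)) :
    FX d (Cst d c) (Nat.pair (num x) (mkC κ.tab q (κ.enc (M.input false))
      (κ.enc (M.input true)) (κ.enc M.blank) κ.am t)) ≠ 0 ↔ ¬ M.accepts x t := by
  have hd : 1 ≤ d := Nat.pos_of_ne_zero (NeZero.ne d)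
  obtain ⟨Y, hY⟩ : ∃ Y, Y = Nat.pair (num x) (mkC κ.tab q (κ.enc (M.input false))
      (κ.enc (M.input true)) (κ.enc M.blank) κ.am t) := ⟨_, rfl⟩
  have en : nX Y = n := by rw [hY, nX_num, hx]
  have eq' : qX Y = q + 2 := by rw [hY, qX_num]
  have etab : tabX Y = κ.tab := by rw [hY, tabX_num]
  have et : tX Y = t := by rw [hY, tX_num]
  have eam : amX Y = κ.am := by rw [hY, amX_num]
  have e0X : i0X Y = κ.enc (M.input false) := by rw [hY, i0X_num]
  have e1X : i1X Y = κ.enc (M.input true) := by rw [hY, i1X_num]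
  have ebl : blX Y = κ.enc M.blank := by rw [hY, blX_num]
  have eW : WX Y = 2 * t + 3 := by rw [WX, et]
  have hA0 : ∀ Q < (2 * t + 3) ^ d, A0X d Y Q = κ.enc (M.start x fun i =>
      ((Q / (2 * t + 3) ^ (i : ℕ) % (2 * t + 3) : ℕ) : ℤ) - t) := by
    intro Q hQ
    rw [hY] at e0X e1X ebl eW et ⊢
    exact A0X_eq κ e0X e1X ebl eW et (by omega) hQ
  have h0 : ∀ Q, A0X d Y Q < qX Y := by
    intro Q
    unfold A0X
    rw [eq', e0X, e1X, ebl]
    split_ifs <;> exact κ.enc_lt _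
  have hpos : 0 < Y.unpair.1 := by
    rw [hY, Nat.unpair_pair]
    exact num_pos x
  have h1 := ans_eq (c := c) hd hpos (by rw [en]; exact hn) (by rw [en, eq']; exact hq)
    (by rw [en, eq', et]; exact ht) h0
  rw [eq', etab, et, eW] at h1
  have h2 := κ.lin_eq (by omega) (W := 2 * t + 3) (T := t) (by omega) hA0 t le_rfl 0
    (Nat.pow_pos (by omega)) (fun i _ => by
      rw [Nat.zero_div, Nat.zero_mod]
      omega)
  have e0 : (fun i : Fin d => ((0 / (2 * t + 3) ^ (i : ℕ) % (2 * t + 3) : ℕ) : ℤ) -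
      ((t : ℤ) - t)) = 0 := by
    funext i
    simp
  rw [e0] at h2
  rw [h2] at h1
  rw [← hY]
  unfold FX
  rw [et, eq', h1, eam]
  have h4 := κ.dgt_am ((M.step^[t] (M.start x)) 0)
  unfold CellAut.accepts
  rw [← h4]
  constructor
  · intro h5
    by_contra h6
    exact h5 (if_neg h6)
  · intro h5
    rw [if_pos h5]
    exact one_ne_zero

theorem lang_iff {d c : ℕ} [NeZero d] {M : CellAut d} {q n t : ℕ} (κ : Coding M (q + 2))
    {x : List Bool} (hx : x.length = n) (h : num x = 2 ^ n + mkC κ.tab q (κ.enc (M.input false))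
      (κ.enc (M.input true)) (κ.enc M.blank) κ.am t) (hn : 1 ≤ n) (hq : q + 2 ≤ n)
    (ht : (t * n.size) ^ d * (q + 2).size ≤ c * n ^ (d + 1)) :
    x ∈ lang d (Cst d c) ↔ ¬ M.accepts x t := by
  rw [← FX_iff κ hx hn hq ht, ← selfC_num hx h]
  rfl

theorem exists_diag {d c : ℕ} [NeZero d] {M : CellAut d} {q n t : ℕ}
    (hk : Fintype.card M.Q ≤ q + 2) (hn : 1 ≤ n) (hq : (q + 2) ^ (3 ^ d + 2) ≤ n)
    (hq64 : q + 2 ≤ n / 64) (ht64 : t < 2 ^ (n / 64))
    (ht : (t * n.size) ^ d * (q + 2).size ≤ c * n ^ (d + 1)) :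
    ∃ x : List Bool, x.length = n ∧ ¬ (x ∈ lang d (Cst d c) ↔ M.accepts x t) := by
  set κ := coding M hk with hκ
  have h2n : ∀ {a : ℕ}, a < q + 2 → a < 2 ^ (n / 64) := fun h =>
    h.trans (Nat.lt_two_pow_self.trans_le (Nat.pow_le_pow_right (by norm_num) hq64))
  have htab : κ.tab < 2 ^ (n / 2) := by
    have h1 : κ.tab < (q + 2) ^ (q + 2) ^ 3 ^ d := sum_digits_lt (by omega) _ _
    refine h1.trans_le ?_
    calc (q + 2) ^ (q + 2) ^ 3 ^ d ≤ (2 ^ (q + 2)) ^ (q + 2) ^ 3 ^ d :=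
          Nat.pow_le_pow_left Nat.lt_two_pow_self.le _
      _ = 2 ^ ((q + 2) * (q + 2) ^ 3 ^ d) := (pow_mul _ _ _).symm
      _ ≤ 2 ^ (n / 2) := by
          refine Nat.pow_le_pow_right (by norm_num) ?_
          rw [Nat.le_div_iff_mul_le (by norm_num)]
          refine le_trans ?_ hq
          rw [pow_add, pow_two, mul_comm (q + 2) ((q + 2) ^ 3 ^ d), mul_assoc]
          exact Nat.mul_le_mul_left _ (Nat.mul_le_mul_left _ (by omega))
  have ham : κ.am < 2 ^ (n / 64) := by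
    have h1 : κ.am < 2 ^ (q + 2) := by
      unfold Coding.am
      exact sum_digits_lt (by norm_num) _ _
    exact h1.trans_le (Nat.pow_le_pow_right (by norm_num) hq64)
  have he : mkC κ.tab q (κ.enc (M.input false)) (κ.enc (M.input true)) (κ.enc M.blank) κ.am t <
      2 ^ n := by
    refine (mkC_lt (μ := n / 64) (ν := n / 2) (h2n (by omega)) (h2n (κ.enc_lt _))
      (h2n (κ.enc_lt _)) (h2n (κ.enc_lt _)) ham ht64 htab (by omega)).trans_le ?_
    exact Nat.pow_le_pow_right (by norm_num) (by omega)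
  obtain ⟨x, hx, hx'⟩ := exists_num n _ he
  refine ⟨x, hx, ?_⟩
  rw [lang_iff κ hx hx' hn (by omega) ht]
  tauto

/-- Powers grow slower than exponentials. -/
theorem exists_pow_lt (A k : ℕ) : ∃ m₀, ∀ m ≥ m₀, A * m ^ k < 2 ^ m := by
  have h := tendsto_pow_const_div_const_pow_of_one_lt k (r := (2 : ℝ)) (by norm_num)
  have h1 := h.eventually (gt_mem_nhds (show (0 : ℝ) < 1 / (A + 1) by positivity))
  obtain ⟨m₀, hm⟩ := Filter.eventually_atTop.1 h1
  refine ⟨m₀, fun m hm' => ?_⟩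
  have h2 := hm m hm'
  rw [div_lt_div_iff₀ (by positivity) (by positivity), one_mul] at h2
  have h3 : (m ^ k * (A + 1) : ℕ) < (2 ^ m : ℕ) := by exact_mod_cast h2
  nlinarith [Nat.zero_le (m ^ k)]

theorem size_le_two_log {n : ℕ} (hn : 2 ≤ n) : n.size ≤ 2 * Nat.log 2 n := by
  have h1 : n.size ≤ Nat.log 2 n + 1 := Nat.size_le.2 (Nat.lt_pow_succ_log_self (by norm_num) n)
  have h2 : 1 ≤ Nat.log 2 n := Nat.log_pos (by norm_num) hn
  omega

theorem lang_hard (d : ℕ) [NeZero d] (c : ℕ) :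
    ∃ n₀ : ℕ, ∀ n ≥ n₀, ∀ M : CellAut d, Fintype.card M.Q ^ (3 ^ d + 2) ≤ n →
      ∀ t : ℕ, (t * Nat.log 2 n) ^ d * (Nat.log 2 (Fintype.card M.Q) + 1) ≤ c * n ^ (d + 1) →
        ∃ x : List Bool, x.length = n ∧
          ¬ (x ∈ lang d (Cst d (2 ^ (d + 1) * c)) ↔ M.accepts x t) := by
  have hd : 1 ≤ d := Nat.pos_of_ne_zero (NeZero.ne d)
  obtain ⟨m₀, hm₀⟩ := exists_pow_lt (2 ^ (d + 1) * c * 128 ^ (d + 1)) (d + 1)
  refine ⟨max (2 ^ (3 ^ d + 2)) (max 4096 (64 * (m₀ + 1))), fun n hn M hM t ht => ?_⟩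
  obtain ⟨hn1, hn2⟩ := max_le_iff.1 hn
  obtain ⟨hn3, hn4⟩ := max_le_iff.1 hn2
  clear hn hn2
  set k := Fintype.card M.Q with hk
  have hk1 : 1 ≤ k := Fintype.card_pos_iff.2 ⟨M.blank⟩
  obtain ⟨q, hq⟩ : ∃ q, max k 2 = q + 2 := ⟨max k 2 - 2, by
    have := le_max_right k 2
    omega⟩
  have hkq : k ≤ q + 2 := by rw [← hq]; exact le_max_left _ _
  have hqn : (q + 2) ^ (3 ^ d + 2) ≤ n := by
    rw [← hq]
    rcases le_total k 2 with h | h
    · rw [max_eq_right h]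
      exact hn1
    · rw [max_eq_left h]
      exact hM
  have hq64 : q + 2 ≤ n / 64 := by
    rw [Nat.le_div_iff_mul_le (by norm_num)]
    rcases Nat.lt_or_ge (q + 2) 64 with h | h
    · omega
    · calc (q + 2) * 64 ≤ (q + 2) * (q + 2) := Nat.mul_le_mul_left _ h
        _ = (q + 2) ^ 2 := (pow_two _).symm
        _ ≤ (q + 2) ^ (3 ^ d + 2) := Nat.pow_le_pow_right (by omega) (Nat.le_add_left _ _)
        _ ≤ n := hqn
  have hqs : (q + 2).size ≤ 2 * (Nat.log 2 k + 1) := by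
    rcases le_total k 2 with h | h
    · have : q + 2 = 2 := by rw [← hq, max_eq_right h]
      rw [this]
      have h2 : (2 : ℕ).size ≤ 2 := Nat.size_le.2 (by norm_num)
      omega
    · have : q + 2 = k := by rw [← hq, max_eq_left h]
      rw [this]
      exact (size_le_two_log h).trans (by omega)
  have ht' : (t * n.size) ^ d * (q + 2).size ≤ 2 ^ (d + 1) * c * n ^ (d + 1) := by
    calc (t * n.size) ^ d * (q + 2).size ≤
        (t * (2 * Nat.log 2 n)) ^ d * (2 * (Nat.log 2 k + 1)) :=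
          Nat.mul_le_mul (Nat.pow_le_pow_left
            (Nat.mul_le_mul_left _ (size_le_two_log (by omega))) d) hqs
      _ = 2 ^ (d + 1) * ((t * Nat.log 2 n) ^ d * (Nat.log 2 k + 1)) := by
          rw [show t * (2 * Nat.log 2 n) = 2 * (t * Nat.log 2 n) by ring, mul_pow, pow_succ]
          ring
      _ ≤ 2 ^ (d + 1) * (c * n ^ (d + 1)) := Nat.mul_le_mul_left _ ht
      _ = 2 ^ (d + 1) * c * n ^ (d + 1) := by ring
  have ht64 : t < 2 ^ (n / 64) := by
    have h1 : t ≤ 2 ^ (d + 1) * c * n ^ (d + 1) := t_le hd (by omega) (by omega) ht'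
    have h2 : n ≤ 128 * (n / 64) := by omega
    have h3 := hm₀ (n / 64) (by omega)
    calc t ≤ 2 ^ (d + 1) * c * n ^ (d + 1) := h1
      _ ≤ 2 ^ (d + 1) * c * (128 * (n / 64)) ^ (d + 1) :=
          Nat.mul_le_mul_left _ (Nat.pow_le_pow_left h2 _)
      _ = 2 ^ (d + 1) * c * 128 ^ (d + 1) * (n / 64) ^ (d + 1) := by rw [mul_pow]; ring
      _ < 2 ^ (n / 64) := h3
  exact exists_diag hkq (by omega) hqn hq64 ht64 ht'

/-- The separation. -/
theorem separation (d : ℕ) [NeZero d] (c : ℕ) : ∃ A : Set (List Bool), InLinSpace A ∧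
    ∃ n₀ : ℕ, ∀ n ≥ n₀, ∀ M : CellAut d, Fintype.card M.Q ^ (3 ^ d + 2) ≤ n →
      ∀ t : ℕ, (t * Nat.log 2 n) ^ d * (Nat.log 2 (Fintype.card M.Q) + 1) ≤ c * n ^ (d + 1) →
        ∃ x : List Bool, x.length = n ∧ ¬ (x ∈ A ↔ M.accepts x t) :=
  ⟨lang d (Cst d (2 ^ (d + 1) * c)), lang_inLinSpace _ _, lang_hard d c⟩

end Pool.Agent.V7H59.CT
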