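import Pool.Agent.V7H59.CT.Eval

/-!
# The register program for a cellular automaton
-/

set_option autoImplicit false

namespace Pool.Agent.V7H59.CT

open Finset

/-- The register for the digit `j` of the arguments, when the value is added to block `o`. -/
def reg (V o j : ℕ) : ℕ := co o (j / V) * V + j % V

/-- The arrangement of the cells, from the contents of the registers. -/
def arr (B d b q m V z : ℕ) : ℕ :=
  mkN B q (3 ^ d * b ^ d) fun j => dgt q z (chd d b j * (V * m) + cel d b j)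

/-- The value of a node in packed form: each register holds the states of `m` cells. -/
def pck (B d b q tab m r z k : ℕ) : ℕ :=
  mkN B q m fun i => blk B d b q tab r z (k * m + i)

/-- The evaluation of a node from the registers. -/
def evN (B p d b q tab m V R o k : ℕ) : ℕ :=
  ∑ z ∈ range (powT (powT q m B) (3 ^ d * V) B), pck B d b q tab m b (arr B d b q m V z) k *
    mprod p (3 ^ d * V) (fun j => lag p (powT q m B) (dgt (powT q m B) z j)
      (dgt p R (reg V o j))) % p

/-- The value of a leaf: `r` steps of the automaton. -/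
def leafN (B d b q tab W m r : ℕ) (A0 : ℕ → ℕ) (P k : ℕ) : ℕ :=
  pck B d b q tab m r (mkN B q (3 ^ d * b ^ d) fun j => A0 (P + rb d (3 * b) W j)) k

/-- The parameters of the register program for a cellular automaton. -/
def parCA (B p d b q tab W m V r : ℕ) (A0 : ℕ → ℕ) : Par where
  B := B
  p := p
  D := 3 ^ d
  V := V
  child := fun P i => P + b * rb d 3 W i
  leaf := leafN B d b q tab W m r A0
  E := fun R o k => evN B p d b q tab m V R o k
  inv := fun l => inv p l

/-- The values of the nodes. -/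
def valCA (d b q tab W m r : ℕ) (A0 : ℕ → ℕ) (h P k : ℕ) : ℕ :=
  ∑ i ∈ range m, lin d q tab W A0 (r + h * b) (P + rb d b W (k * m + i)) % q * q ^ i

theorem reg_div {V : ℕ} (hV : 0 < V) (o j : ℕ) : reg V o j / V = co o (j / V) := by
  unfold reg
  rw [mul_comm, Nat.mul_add_div hV, Nat.div_eq_of_lt (Nat.mod_lt _ hV), add_zero]

theorem reg_mod {V : ℕ} (o j : ℕ) : reg V o j % V = j % V := by
  unfold reg
  rw [mul_comm, Nat.mul_add_mod, Nat.mod_mod]

theorem reg_lt {D V j : ℕ} (hj : j < D * V) (o : ℕ) : reg V o j < (D + 1) * V := by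
  have hV : 0 < V := by
    rcases Nat.eq_zero_or_pos V with h | h
    · rw [h, Nat.mul_zero] at hj; omega
    · exact h
  have h0 : j / V < D := (Nat.div_lt_iff_lt_mul hV).2 hj
  have h1 : co o (j / V) ≤ D := by
    unfold co
    split_ifs <;> omega
  have h2 : j % V < V := Nat.mod_lt _ hV
  unfold reg
  nlinarith [Nat.mul_le_mul_right V h1]

theorem ci_co (o i : ℕ) : ci o (co o i) = i := by
  unfold ci co
  split_ifs <;> omega

theorem co_ne (o i : ℕ) : co o i ≠ o := by
  unfold co
  split_ifs <;> omega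

theorem interp_congr {p q N : ℕ} {f : ℕ → ℕ} {y y' : ℕ → ZMod p} (h : ∀ j < N, y j = y' j) :
    interp p q N f y = interp p q N f y' := by
  unfold interp
  refine sum_congr rfl fun z _ => ?_
  congr 1
  exact prod_congr rfl fun j hj => by rw [h j (mem_range.1 hj)]

theorem dgt_mod {q m r : ℕ} (hr : r < m) (x : ℕ) : x % q ^ m / q ^ r % q = x / q ^ r % q := by
  have e : q ^ m = q ^ r * q ^ (m - r) := by
    rw [← pow_add]
    congr 1
    omega
  rw [e, Nat.mod_mul_right_div_self, Nat.mod_mod_of_dvd]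
  exact dvd_pow_self q (by omega)

/-- The digits of a packed number. -/
theorem dgt_pack {q m i r : ℕ} (hr : r < m) (z : ℕ) :
    z / q ^ (i * m + r) % q = (z / (q ^ m) ^ i % q ^ m) / q ^ r % q := by
  rw [dgt_mod hr, pow_add, ← Nat.div_div_eq_div_mul, mul_comm i m, pow_mul]

/-- The arrangement of the cells from the packed values. -/
theorem arr_dgt {B d b q m V : ℕ} (hb : 0 < b) (hq : 0 < q) (hm : 0 < m) (hV : b ^ d / m < V)
    (hB' : q ^ (3 ^ d * b ^ d) ≤ B) (w : ℕ → ℕ) (g : ℕ → ℕ → ℕ)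
    (hw : ∀ i < 3 ^ d, ∀ k < V, w (i * V + k) = ∑ l ∈ range m, g i (k * m + l) % q * q ^ l)
    {j : ℕ} (hj : j < 3 ^ d * b ^ d) :
    dgt q (arr B d b q m V (∑ j ∈ range (3 ^ d * V), w j % q ^ m * (q ^ m) ^ j)) j =
      g (chd d b j) (cel d b j) % q := by
  set z := ∑ j ∈ range (3 ^ d * V), w j % q ^ m * (q ^ m) ^ j with hz
  have hc := cel_lt hb d j
  have hk : cel d b j / m < V := lt_of_le_of_lt (Nat.div_le_div_right hc.le) hV
  have hr : cel d b j % m < m := Nat.mod_lt _ hm
  have hi := chd_lt hb d j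
  have e1 : chd d b j * (V * m) + cel d b j = (chd d b j * V + cel d b j / m) * m +
      cel d b j % m := by
    have := Nat.div_add_mod (cel d b j) m
    calc chd d b j * (V * m) + cel d b j
        = chd d b j * (V * m) + (m * (cel d b j / m) + cel d b j % m) := by rw [this]
      _ = _ := by ring
  have hlt : chd d b j * V + cel d b j / m < 3 ^ d * V := by
    nlinarith [Nat.mul_le_mul_right V hi]
  unfold arr
  rw [dgt_mkN hq hB' _ hj, Nat.mod_eq_of_lt (dgt_lt hq _ _), dgt_eq, e1, dgt_pack hr, hz,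
    digit_sum (Nat.pow_pos hq) _ w hlt, dgt_mod hr, hw _ hi _ hk, digit_sum hq m _ hr]
  congr 2
  rw [mul_comm]
  exact Nat.div_add_mod (cel d b j) m

/-- The evaluation of a node, from the contents of the registers. -/
noncomputable def EECA (B p d b q tab m V o k : ℕ) (ρ : ℕ → ZMod p) : ZMod p :=
  interp p (q ^ m) (3 ^ d * V) (fun z => pck B d b q tab m b (arr B d b q m V z) k)
    (fun j => ρ (reg V o j))

theorem good_CA {B p d b q tab W m V r : ℕ} {A0 : ℕ → ℕ} (hp : p.Prime) (hb : 0 < b) (hq : 0 < q)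
    (hm : 0 < m) (hV : b ^ d / m < V)
    (hr : r ≤ b) (hqp : q ^ m ≤ p) (hN : 3 ^ d * V * q ^ m < p - 1) (h0 : ∀ Q, A0 Q < q)
    (hB : p ^ ((3 ^ d + 1) * V) ≤ B) (hB' : q ^ (3 ^ d * b ^ d) ≤ B) :
    Par.Good (parCA B p d b q tab W m V r A0) (valCA d b q tab W m r A0)
      (EECA B p d b q tab m V) := by
  have : Fact p.Prime := ⟨hp⟩
  have hp2 := hp.two_le
  have hQ : 0 < q ^ m := Nat.pow_pos hq
  have hV0 : 0 < V := lt_of_le_of_lt (Nat.zero_le _) hV
  have hpB : p ≤ B := by
    refine le_trans ?_ hB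
    exact Nat.le_self_pow (by positivity) p
  have hmB : q ^ m ≤ B := hqp.trans hpB
  have hMB : (q ^ m) ^ (3 ^ d * V) ≤ B := by
    refine le_trans ((Nat.pow_le_pow_left hqp _).trans ?_) hB
    exact Nat.pow_le_pow_right hp.pos (Nat.mul_le_mul_right V (Nat.le_succ _))
  have hpk : ∀ {r' P t z k : ℕ}, r' ≤ b → z < q ^ (3 ^ d * b ^ d) →
      (∀ j < 3 ^ d * b ^ d, dgt q z j = lin d q tab W A0 t (P + rb d (3 * b) W j)) →
      pck B d b q tab m r' z k =
        ∑ i ∈ range m, lin d q tab W A0 (t + r') (P + rb d b W (k * m + i)) % q * q ^ i := by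
    intro r' P t z k hr' hz hd
    unfold pck
    rw [mkN_eq hq hmB]
    refine sum_congr rfl fun i _ => ?_
    rw [blk_eq (W := W) (A0 := A0) hb hq hB' hr' P t z _ hz hd]
  refine ⟨hp2, hB, fun P k _ => ?_, fun l hl => ?_, fun R (ρ : ℕ → ZMod p) o k _ _ hR => ?_,
    fun o k (ρ : ℕ → ZMod p) (ρ' : ℕ → ZMod p) _ _ h => ?_,
    fun h P o k (ρ : ℕ → ZMod p) _ _ => ?_⟩
  · change valCA d b q tab W m r A0 0 P k = leafN B d b q tab W m r A0 P k
    unfold valCA leafN
    rw [hpk (P := P) (t := 0) hr (mkN_lt hq hB' _)]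
    · rw [zero_mul, add_zero, zero_add]
    · intro j hj
      rw [dgt_mkN hq hB' _ hj, Nat.mod_eq_of_lt (h0 _), lin]
  · change ((inv p (l + 1) : ℕ) : ZMod p) * ((l + 1 : ℕ) : ZMod p) = 1
    have hl' : l + 1 < p := hl
    have h1 : ((l + 1 : ℕ) : ZMod p) ≠ 0 := by
      intro h2
      rw [ZMod.natCast_eq_zero_iff] at h2
      exact absurd (Nat.le_of_dvd (by omega) h2) (by omega)
    rw [inv_spec h1, inv_mul_cancel₀ h1]
  · change ((evN B p d b q tab m V R o k : ℕ) : ZMod p) = EECA B p d b q tab m V o k ρ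
    unfold EECA evN interp
    rw [powT_eq hmB, powT_eq hMB, Nat.cast_sum]
    refine sum_congr rfl fun z hz => ?_
    rw [ZMod.natCast_mod, Nat.cast_mul, mprod_cast hp.pos]
    congr 1
    refine prod_congr rfl fun j hj => ?_
    rw [lag_cast hqp (dgt_lt hQ z j)]
    congr 1
    exact hR.2 _ (reg_lt (mem_range.1 hj) o)
  · refine interp_congr fun j hj => h _ (reg_lt hj o) ?_
    change reg V o j / V ≠ o
    rw [reg_div hV0]
    exact co_ne _ _
  · set w : ℕ → ℕ := fun j => valCA d b q tab W m r A0 h (P + b * rb d 3 W (j / V)) (j % V)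
      with hw
    have hwq : ∀ j < 3 ^ d * V, w j < q ^ m := fun j _ => sum_digits_lt hq _ _
    have e1 : ∀ l : ℕ, EECA B p d b q tab m V o k
        (fun j => (((l + 1 : ℕ) : ZMod p) * ρ j +
          (valCA d b q tab W m r A0 h (P + b * rb d 3 W (ci o (j / V))) (j % V) : ℕ))) =
        interp p (q ^ m) (3 ^ d * V) (fun z => pck B d b q tab m b (arr B d b q m V z) k)
          (fun j => (((l + 1 : ℕ) : ZMod p) * (fun j => ρ (reg V o j)) j + (w j : ℕ))) := by
      intro l
      refine interp_congr fun j _ => ?_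
      simp only [reg_div hV0 o j, reg_mod o j, ci_co, hw]
    have e4 := interp_sum (p := p) (q := q ^ m) (N := 3 ^ d * V) hqp hQ hN
      (fun z => pck B d b q tab m b (arr B d b q m V z) k) (fun j => ρ (reg V o j)) w hwq
    have e5 : pck B d b q tab m b (arr B d b q m V
        (∑ j ∈ range (3 ^ d * V), w j % q ^ m * (q ^ m) ^ j)) k =
        valCA d b q tab W m r A0 (h + 1) P k := by
      rw [hpk (P := P) (t := r + h * b) (z := arr B d b q m V
        (∑ j ∈ range (3 ^ d * V), w j % q ^ m * (q ^ m) ^ j)) le_rfl (mkN_lt hq hB' _)]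
      · unfold valCA
        rw [Nat.succ_mul, add_assoc]
      · intro j hj
        rw [arr_dgt hb hq hm hV hB' w (fun i c => lin d q tab W A0 (r + h * b)
          (P + b * rb d 3 W i + rb d b W c)) _ hj]
        · rw [add_assoc, block_cell hb, Nat.mod_eq_of_lt (lin_lt hq h0 _ _)]
        · intro i _ k' hk'
          have e6 : (i * V + k') / V = i := by
            rw [mul_comm, Nat.mul_add_div hV0, Nat.div_eq_of_lt hk', add_zero]
          have e7 : (i * V + k') % V = k' := by
            rw [mul_comm, Nat.mul_add_mod, Nat.mod_eq_of_lt hk']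
          simp only [hw, e6, e7]
          rfl
    rw [e5] at e4
    refine (sum_congr rfl fun l _ => ?_).trans e4
    exact e1 l

/-- The program computes the state of the origin. -/
theorem run_CA {B p d b q tab W m V r : ℕ} {A0 : ℕ → ℕ} (hp : p.Prime) (hb : 0 < b) (hq : 0 < q)
    (hm : 0 < m) (hV : b ^ d / m < V)
    (hr : r ≤ b) (hqp : q ^ m ≤ p) (hN : 3 ^ d * V * q ^ m < p - 1) (h0 : ∀ Q, A0 Q < q)
    (hB : p ^ ((3 ^ d + 1) * V) ≤ B) (hB' : q ^ (3 ^ d * b ^ d) ≤ B) (h : ℕ) :
    dgt p ((parCA B p d b q tab W m V r A0).run h 0 0 1 0) 0 % q =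
      lin d q tab W A0 (r + h * b) 0 := by
  have G := good_CA (W := W) (tab := tab) hp hb hq hm hV hr hqp hN h0 hB hB'
  have hV0 : 0 < V := lt_of_le_of_lt (Nat.zero_le _) hV
  have hR : (parCA B p d b q tab W m V r A0).Rep 0 (fun _ => 0) := by
    refine ⟨Nat.pow_pos hp.pos, fun j _ => ?_⟩
    rw [dgt_eq]
    simp
  have h1 := Par.run_rep G h 0 0 1 (Nat.zero_le _) (show 1 ≤ p from hp.pos) 0 _ hR
  have hpos : 0 < (parCA B p d b q tab W m V r A0).NR := by
    change 0 < (3 ^ d + 1) * V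
    exact Nat.mul_pos (Nat.succ_pos _) hV0
  have h2 := h1.2 0 hpos
  simp only at h2
  have h3 : ((dgt p ((parCA B p d b q tab W m V r A0).run h 0 0 1 0) 0 : ℕ) : ZMod p) =
      ((valCA d b q tab W m r A0 h 0 0 : ℕ) : ZMod p) := by
    refine h2.trans ?_
    rw [if_pos (Nat.zero_div _), Nat.zero_mod, zero_add, Nat.cast_one, one_mul]
    rfl
  rw [ZMod.natCast_eq_natCast_iff'] at h3
  have h4 : valCA d b q tab W m r A0 h 0 0 < p := (sum_digits_lt hq m _).trans_le hqp
  rw [Nat.mod_eq_of_lt (dgt_lt hp.pos _ _), Nat.mod_eq_of_lt h4] at h3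
  rw [h3]
  have h5 := digit_sum hq m (fun i => lin d q tab W A0 (r + h * b) (0 + rb d b W (0 * m + i))) hm
  unfold valCA
  rw [pow_zero, Nat.div_one] at h5
  rw [h5, Nat.mod_eq_of_lt (lin_lt hq h0 _ _)]
  congr 1
  unfold rb
  simp

/-- The state of the descent: node, block, sign, counter, mode. -/
def pk (P o s τ m : ℕ) : ℕ := Nat.pair P (Nat.pair o (Nat.pair s (Nat.pair τ m)))

def pkP (σ : ℕ) : ℕ := σ.unpair.1
def pko (σ : ℕ) : ℕ := σ.unpair.2.unpair.1
def pks (σ : ℕ) : ℕ := σ.unpair.2.unpair.2.unpair.1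
def pkt (σ : ℕ) : ℕ := σ.unpair.2.unpair.2.unpair.2.unpair.1
def pkm (σ : ℕ) : ℕ := σ.unpair.2.unpair.2.unpair.2.unpair.2

@[simp] theorem pkP_pk (P o s τ m : ℕ) : pkP (pk P o s τ m) = P := by simp [pkP, pk]
@[simp] theorem pko_pk (P o s τ m : ℕ) : pko (pk P o s τ m) = o := by simp [pko, pk]
@[simp] theorem pks_pk (P o s τ m : ℕ) : pks (pk P o s τ m) = s := by simp [pks, pk]
@[simp] theorem pkt_pk (P o s τ m : ℕ) : pkt (pk P o s τ m) = τ := by simp [pkt, pk]
@[simp] theorem pkm_pk (P o s τ m : ℕ) : pkm (pk P o s τ m) = m := by simp [pkm, pk]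

theorem pkm_ne1 {P o s τ : ℕ} (c : Prop) [Decidable c] :
    pkm (pk P o s τ (if c then 1 else 3)) ≠ 0 := by
  rw [pkm_pk]
  split_ifs
  · exact one_ne_zero
  · exact three_ne_zero

theorem pkm_ne2 {P o s τ : ℕ} (c : Prop) [Decidable c] :
    pkm (pk P o s τ (if c then 2 else 3)) ≠ 0 := by
  rw [pkm_pk]
  split_ifs
  · exact two_ne_zero
  · exact three_ne_zero

namespace Par

variable (π : Par)

/-- One step of the descent; `κ` is the number of steps of the program at this level. -/
def dstep (κ σ : ℕ) : ℕ :=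
  if pkm σ = 0 then
    if pkt σ / κ % π.Sl = 0 then
      pk (pkP σ) (pko σ) (pks σ) (pkt σ / κ / π.Sl + 1) (if pkt σ % κ = 0 then 1 else 3)
    else if pkt σ / κ % π.Sl ≤ π.D then
      pk (π.child (pkP σ) (pkt σ / κ % π.Sl - 1)) (co (pko σ) (pkt σ / κ % π.Sl - 1)) 1
        (pkt σ % κ) 0
    else if pkt σ / κ % π.Sl = π.D + 1 then
      pk (pkP σ) (pko σ) (pks σ) 0 (if pkt σ % κ = 0 then 2 else 3)
    else if pkt σ / κ % π.Sl ≤ 2 * π.D + 1 then
      pk (π.child (pkP σ) (pkt σ / κ % π.Sl - (π.D + 2)))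
        (co (pko σ) (pkt σ / κ % π.Sl - (π.D + 2))) (π.p - 1) (pkt σ % κ) 0
    else pk (pkP σ) (pko σ) (pks σ) (π.inv (pkt σ / κ / π.Sl + 1)) (if pkt σ % κ = 0 then 1 else 3)
  else σ

/-- The operation at the end of the descent. -/
def app (σ R : ℕ) : ℕ :=
  if pkm σ = 0 then π.upd R (pko σ) (pks σ) (π.leaf (pkP σ))
  else if pkm σ = 1 then π.scl R (pko σ) (pkt σ)
  else if pkm σ = 2 then π.upd R (pko σ) (π.p - pks σ) (π.E R (pko σ))
  else R

theorem dstep_frozen {σ : ℕ} (h : pkm σ ≠ 0) (κ : ℕ) : π.dstep κ σ = σ := by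
  unfold dstep
  rw [if_neg h]

theorem iter_frozen {σ : ℕ} (h : pkm σ ≠ 0) (f : ℕ → ℕ) (n : ℕ) :
    iter (fun i => π.dstep (f i)) n σ = σ := by
  induction n with
  | zero => rfl
  | succ n ih => rw [iter, ih, π.dstep_frozen h]

theorem tick_eq (h : ℕ) : ∀ P o s τ R, π.tick h P o s τ R =
    π.app (iter (fun i => π.dstep (π.K ^ (h - 1 - i))) h (pk P o s τ 0)) R := by
  induction h with
  | zero =>
    intro P o s τ R
    simp [tick, iter, app]
  | succ h ih =>
    intro P o s τ R
    rw [iter_succ']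
    have e : (fun i => π.dstep (π.K ^ (h + 1 - 1 - (i + 1)))) =
        fun i => π.dstep (π.K ^ (h - 1 - i)) := by
      funext i
      congr 2
      omega
    have e0 : h + 1 - 1 - 0 = h := by omega
    rw [e, e0]
    unfold tick
    by_cases h1 : τ / π.K ^ h % π.Sl = 0
    · have e1 : π.dstep (π.K ^ h) (pk P o s τ 0) =
          pk P o s (τ / π.K ^ h / π.Sl + 1) (if τ % π.K ^ h = 0 then 1 else 3) := by
        unfold dstep
        simp only [pkm_pk, pkt_pk, pkP_pk, pko_pk, pks_pk, if_true, h1]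
      rw [if_pos h1, e1, iter_frozen]
      · by_cases h2 : τ % π.K ^ h = 0 <;> simp [app, h2]
      · exact pkm_ne1 _
    · rw [if_neg h1]
      by_cases h2 : τ / π.K ^ h % π.Sl ≤ π.D
      · have e1 : π.dstep (π.K ^ h) (pk P o s τ 0) =
            pk (π.child P (τ / π.K ^ h % π.Sl - 1)) (co o (τ / π.K ^ h % π.Sl - 1)) 1
              (τ % π.K ^ h) 0 := by
          unfold dstep
          simp only [pkm_pk, pkt_pk, pkP_pk, pko_pk, pks_pk, if_true]
          rw [if_neg h1, if_pos h2]
        rw [if_pos h2, ih, e1]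
      · rw [if_neg h2]
        by_cases h3 : τ / π.K ^ h % π.Sl = π.D + 1
        · have e1 : π.dstep (π.K ^ h) (pk P o s τ 0) =
              pk P o s 0 (if τ % π.K ^ h = 0 then 2 else 3) := by
            unfold dstep
            simp only [pkm_pk, pkt_pk, pkP_pk, pko_pk, pks_pk, if_true]
            rw [if_neg h1, if_neg h2, if_pos h3]
          rw [if_pos h3, e1, iter_frozen]
          · by_cases h2 : τ % π.K ^ h = 0 <;> simp [app, h2]
          · exact pkm_ne2 _
        · rw [if_neg h3]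
          by_cases h4 : τ / π.K ^ h % π.Sl ≤ 2 * π.D + 1
          · have e1 : π.dstep (π.K ^ h) (pk P o s τ 0) =
                pk (π.child P (τ / π.K ^ h % π.Sl - (π.D + 2)))
                  (co o (τ / π.K ^ h % π.Sl - (π.D + 2))) (π.p - 1) (τ % π.K ^ h) 0 := by
              unfold dstep
              simp only [pkm_pk, pkt_pk, pkP_pk, pko_pk, pks_pk, if_true]
              rw [if_neg h1, if_neg h2, if_neg h3, if_pos h4]
            rw [if_pos h4, ih, e1]
          · have e1 : π.dstep (π.K ^ h) (pk P o s τ 0) =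
                pk P o s (π.inv (τ / π.K ^ h / π.Sl + 1)) (if τ % π.K ^ h = 0 then 1 else 3) := by
              unfold dstep
              simp only [pkm_pk, pkt_pk, pkP_pk, pko_pk, pks_pk, if_true]
              rw [if_neg h1, if_neg h2, if_neg h3, if_neg h4]
            rw [if_neg h4, e1, iter_frozen]
            · by_cases h2 : τ % π.K ^ h = 0 <;> simp [app, h2]
            · exact pkm_ne1 _

end Par

end Pool.Agent.V7H59.CT
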