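import Pool.Agent.V7H59.CT.Lin

/-!
# Arithmetic in the class `L`
-/

set_option autoImplicit false

namespace Pool.Agent.V7H59.CT

open Finset

theorem L.size {F : (ℕ → ℕ) → ℕ} (h : L F) : ∃ C k, ∀ x, (F x).size ≤ C * tot k x := by
  obtain ⟨k, h⟩ := h
  obtain ⟨C, _, h2, _⟩ := h.run'
  exact ⟨C, k, h2⟩

theorem sizes_add {f g : (ℕ → ℕ) → ℕ} (hf : ∃ C k, ∀ x, f x ≤ C * tot k x)
    (hg : ∃ C k, ∀ x, g x ≤ C * tot k x) : ∃ C k, ∀ x, f x + g x ≤ C * tot k x := by
  obtain ⟨C, k, h⟩ := hf
  obtain ⟨C', k', h'⟩ := hg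
  refine ⟨C + C', max k k', fun x => ?_⟩
  rw [add_mul]
  exact Nat.add_le_add ((h x).trans (Nat.mul_le_mul_left _ (tot_mono (le_max_left _ _) x)))
    ((h' x).trans (Nat.mul_le_mul_left _ (tot_mono (le_max_right _ _) x)))

theorem sizes_const (c : ℕ) : ∃ C k, ∀ x : ℕ → ℕ, c ≤ C * tot k x :=
  ⟨c, 0, fun x => Nat.le_mul_of_pos_right _ (tot_pos 0 x)⟩

theorem L.congr {F G : (ℕ → ℕ) → ℕ} (h : L F) (e : ∀ x, F x = G x) : L G := by
  have : F = G := funext e
  rwa [← this]

theorem L.const (c : ℕ) : L (fun _ => c) := by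
  induction c with
  | zero => exact L.zero
  | succ c ih => exact ih.succ

/-- The function under a binder. -/
theorem L.tl {A : (ℕ → ℕ) → ℕ} (hA : L A) : L (fun z => A (fun j => z (j + 1))) :=
  L.subst hA (g := fun j z => z (j + 1)) fun j => L.var (j + 1)

theorem L.tl2 {A : (ℕ → ℕ) → ℕ} (hA : L A) : L (fun z => A (fun j => z (j + 2))) :=
  L.subst hA (g := fun j z => z (j + 2)) fun j => L.var (j + 2)

/-- Recursion, with a bound on the sizes. -/
theorem L.recS {A : (ℕ → ℕ) → ℕ → ℕ} {N : (ℕ → ℕ) → ℕ} {h : (ℕ → ℕ) → ℕ → ℕ → ℕ}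
    (hG : L (fun x => A x 0)) (hN : L N) (hh : L (fun z => h (fun j => z (j + 2)) (z 1) (z 0)))
    (hstep : ∀ x i, A x (i + 1) = h x i (A x i))
    (hb : ∃ C k, ∀ x i, i ≤ N x → (A x i).size ≤ C * tot k x) : L (fun x => A x (N x)) := by
  have key : ∀ x i, (Nat.rec (motive := fun _ => ℕ) (A x 0)
      (fun i y => (fun z : ℕ → ℕ => h (fun j => z (j + 2)) (z 1) (z 0)) (cons2 y i x)) i : ℕ) =
      A x i := by
    intro x i
    induction i with
    | zero => rfl
    | succ i ih =>
      rw [hstep]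
      change h x i _ = _
      rw [ih]
      rfl
  obtain ⟨C, k, hb⟩ := hb
  exact (L.rec hG hN hh ⟨C, k, fun x i hi => by rw [key]; exact hb x i hi⟩).congr
    fun x => key x _

/-- Recursion, with a bound in `L`. -/
theorem L.recB {A : (ℕ → ℕ) → ℕ → ℕ} {N B : (ℕ → ℕ) → ℕ} {h : (ℕ → ℕ) → ℕ → ℕ → ℕ}
    (hG : L (fun x => A x 0)) (hN : L N) (hh : L (fun z => h (fun j => z (j + 2)) (z 1) (z 0)))
    (hstep : ∀ x i, A x (i + 1) = h x i (A x i)) (hB : L B)
    (hb : ∀ x i, i ≤ N x → A x i ≤ B x) : L (fun x => A x (N x)) := by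
  obtain ⟨C, k, hC⟩ := hB.size
  exact L.recS hG hN hh hstep ⟨C, k, fun x i hi => (size_mono (hb x i hi)).trans (hC x)⟩

theorem size_add_le (a b : ℕ) : (a + b).size ≤ a.size + b.size + 1 := by
  rw [Nat.size_le]
  have h1 := Nat.lt_size_self a
  have h2 := Nat.lt_size_self b
  have h3 : 2 ^ a.size ≤ 2 ^ (a.size + b.size) := Nat.pow_le_pow_right (by omega) (by omega)
  have h4 : 2 ^ b.size ≤ 2 ^ (a.size + b.size) := Nat.pow_le_pow_right (by omega) (by omega)
  rw [pow_succ]
  omega

theorem size_mul_le (a b : ℕ) : (a * b).size ≤ a.size + b.size := by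
  rw [Nat.size_le, pow_add]
  have h1 := Nat.lt_size_self a
  have h2 := Nat.lt_size_self b
  rcases Nat.eq_zero_or_pos a with rfl | ha
  · simp
  · calc a * b < a * 2 ^ b.size := Nat.mul_lt_mul_of_pos_left h2 ha
      _ ≤ 2 ^ a.size * 2 ^ b.size := Nat.mul_le_mul_right _ h1.le

theorem L.add {A B : (ℕ → ℕ) → ℕ} (hA : L A) (hB : L B) : L (fun e => A e + B e) := by
  refine L.recS (A := fun e i => A e + i) (h := fun _ _ y => y + 1) hA hB
    (L.var 0).succ (fun x i => by ring) ?_
  obtain ⟨C, k, h⟩ := sizes_add (sizes_add hA.size hB.size) (sizes_const 1)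
  exact ⟨C, k, fun x i hi => (size_mono (Nat.add_le_add_left hi _)).trans
    ((size_add_le _ _).trans (h x))⟩

theorem L.mul {A B : (ℕ → ℕ) → ℕ} (hA : L A) (hB : L B) : L (fun e => A e * B e) := by
  refine L.recS (A := fun e i => A e * i) (h := fun e _ y => y + A e) ?_ hB
    ((L.var 0).add hA.tl2) (fun x i => by ring) ?_
  · exact L.zero.congr fun x => by simp
  · obtain ⟨C, k, h⟩ := sizes_add hA.size hB.size
    exact ⟨C, k, fun x i hi => (size_mono (Nat.mul_le_mul_left _ hi)).trans
      ((size_mul_le _ _).trans (h x))⟩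

theorem L.ite0 {A B C : (ℕ → ℕ) → ℕ} (hA : L A) (hB : L B) (hC : L C) :
    L (fun e => if A e = 0 then B e else C e) := by
  refine L.recB (A := fun e i => if i = 0 then B e else C e) (h := fun e _ _ => C e)
    (B := fun e => B e + C e) ?_ hA hC.tl2 (fun x i => by simp) (hB.add hC) ?_
  · exact hB.congr fun x => by simp
  · intro x i _
    split_ifs <;> omega

theorem L.pred {A : (ℕ → ℕ) → ℕ} (hA : L A) : L (fun e => A e - 1) := by
  refine L.recB (A := fun _ i => i - 1) (h := fun _ i _ => i) (B := A) ?_ hA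
    (L.var 1) (fun x i => by simp) hA (fun x i hi => by omega)
  exact L.zero.congr fun x => by simp

theorem L.sub {A B : (ℕ → ℕ) → ℕ} (hA : L A) (hB : L B) : L (fun e => A e - B e) := by
  refine L.recB (A := fun e i => A e - i) (h := fun _ _ y => y - 1) (B := A) ?_ hB
    (L.var 0).pred (fun x i => by omega) hA (fun x i hi => by omega)
  exact hA.congr fun x => by simp

theorem L.ite_eq {A B C D : (ℕ → ℕ) → ℕ} (hA : L A) (hB : L B) (hC : L C) (hD : L D) :
    L (fun e => if A e = B e then C e else D e) := by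
  refine (L.ite0 ((hA.sub hB).add (hB.sub hA)) hC hD).congr fun x => ?_
  by_cases h : A x = B x
  · rw [if_pos h, if_pos (by omega)]
  · rw [if_neg h, if_neg (by omega)]

theorem L.ite_lt {A B C D : (ℕ → ℕ) → ℕ} (hA : L A) (hB : L B) (hC : L C) (hD : L D) :
    L (fun e => if A e < B e then C e else D e) := by
  refine (L.ite0 (hB.sub hA) hD hC).congr fun x => ?_
  by_cases h : A x < B x
  · rw [if_pos h, if_neg (by omega)]
  · rw [if_neg h, if_pos (by omega)]

theorem L.ite_le {A B C D : (ℕ → ℕ) → ℕ} (hA : L A) (hB : L B) (hC : L C) (hD : L D) :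
    L (fun e => if A e ≤ B e then C e else D e) := by
  refine (L.ite0 (hA.sub hB) hC hD).congr fun x => ?_
  by_cases h : A x ≤ B x
  · rw [if_pos h, if_pos (by omega)]
  · rw [if_neg h, if_neg (by omega)]

theorem L.min {A B : (ℕ → ℕ) → ℕ} (hA : L A) (hB : L B) : L (fun e => Min.min (A e) (B e)) := by
  refine (L.ite_le hA hB hA hB).congr fun x => ?_
  rw [Nat.min_def]

theorem L.mod {A B : (ℕ → ℕ) → ℕ} (hA : L A) (hB : L B) : L (fun e => A e % B e) := by
  refine L.recB (A := fun e i => i % B e) (h := fun e _ y => if y + 1 = B e then 0 else y + 1)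
    (B := A) ?_ hA ?_ (fun x i => ?_) hA (fun x i hi => (Nat.mod_le _ _).trans hi)
  · exact L.zero.congr fun x => by simp
  · exact L.ite_eq (L.var 0).succ hB.tl2 L.zero (L.var 0).succ
  · rw [Nat.add_mod]
    rcases Nat.lt_or_ge (B x) 2 with h | h
    · have : B x = 0 ∨ B x = 1 := by omega
      rcases this with h0 | h1
      · rw [h0]; simp
      · rw [h1]; simp [Nat.mod_one]
    · have h1 : 1 % B x = 1 := Nat.mod_eq_of_lt h
      have h2 : i % B x < B x := Nat.mod_lt _ (by omega)
      rw [h1]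
      split_ifs with h3
      · rw [h3, Nat.mod_self]
      · exact Nat.mod_eq_of_lt (by omega)

theorem L.div {A B : (ℕ → ℕ) → ℕ} (hA : L A) (hB : L B) : L (fun e => A e / B e) := by
  refine L.recB (A := fun e i => i / B e)
    (h := fun e i y => if i % B e + 1 = B e then y + 1 else y)
    (B := A) ?_ hA ?_ (fun x i => ?_) hA (fun x i hi => (Nat.div_le_self _ _).trans hi)
  · exact L.zero.congr fun x => by simp
  · exact L.ite_eq ((L.var 1).mod hB.tl2).succ hB.tl2 (L.var 0).succ (L.var 0)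
  · rcases Nat.eq_zero_or_pos (B x) with h0 | hpos
    · rw [h0]; simp
    · rw [Nat.succ_div]
      have h1 := Nat.mod_lt i hpos
      have h2 := Nat.div_add_mod i (B x)
      by_cases h3 : i % B x + 1 = B x
      · rw [if_pos h3, if_pos]
        refine ⟨i / B x + 1, ?_⟩
        rw [mul_add, mul_one]
        omega
      · rw [if_neg h3, if_neg]
        · rfl
        · intro h4
          apply h3
          obtain ⟨c, hc⟩ := h4
          have h5 : (i % B x + 1) % B x = 0 := by
            have h6 : (i + 1) % B x = 0 := by rw [hc]; simp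
            rw [Nat.add_mod] at h6 ⊢
            simpa using h6
          by_contra h7
          rw [Nat.mod_eq_of_lt (by omega)] at h5
          omega

/-- Truncated powers. -/
def powT (b n B : ℕ) : ℕ := min (b ^ n) B

theorem powT_eq {b n B : ℕ} (h : b ^ n ≤ B) : powT b n B = b ^ n := min_eq_left h

theorem L.powT {A N B : (ℕ → ℕ) → ℕ} (hA : L A) (hN : L N) (hB : L B) :
    L (fun e => CT.powT (A e) (N e) (B e)) := by
  refine L.recB (A := fun e i => CT.powT (A e) i (B e))
    (h := fun e _ y => Min.min (y * A e) (B e)) (B := B) ?_ hN ?_ (fun x i => ?_) hB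
    (fun x i _ => min_le_right _ _)
  · exact (L.min (L.const 1) hB).congr fun x => by simp [CT.powT]
  · exact L.min ((L.var 0).mul hA.tl2) hB.tl2
  · unfold CT.powT
    rw [pow_succ]
    rcases le_total (A x ^ i) (B x) with h | h
    · rw [min_eq_left h]
    · rw [min_eq_right h]
      rcases Nat.eq_zero_or_pos (A x) with h0 | hpos
      · rw [h0]; simp
      · rw [min_eq_right (h.trans (Nat.le_mul_of_pos_right _ hpos)),
          min_eq_right (Nat.le_mul_of_pos_right _ hpos)]

theorem L.sum {f : (ℕ → ℕ) → ℕ → ℕ} {N B : (ℕ → ℕ) → ℕ} (hN : L N)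
    (hf : L (fun z => f (fun j => z (j + 1)) (z 0))) (hB : L B)
    (hb : ∀ e i, i < N e → f e i ≤ B e) : L (fun e => ∑ i ∈ range (N e), f e i) := by
  refine L.recB (A := fun e i => ∑ j ∈ range i, f e j) (h := fun e i y => y + f e i)
    (B := fun e => N e * B e) ?_ hN ?_ (fun x i => sum_range_succ _ _) (hN.mul hB)
    (fun x i hi => ?_)
  · exact L.zero.congr fun x => by simp
  · exact (L.var 0).add hf.tl
  · calc ∑ j ∈ range i, f x j ≤ ∑ _j ∈ range i, B x :=
          sum_le_sum fun j hj => hb x j ((mem_range.1 hj).trans_le hi)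
      _ = i * B x := by simp
      _ ≤ N x * B x := Nat.mul_le_mul_right _ hi

/-- The least `i < N` with `P i ≠ 0`, or `N`. -/
def lfind (P : ℕ → ℕ) : ℕ → ℕ
  | 0 => 0
  | i + 1 => if lfind P i = i then (if P i = 0 then i + 1 else i) else lfind P i

theorem lfind_le (P : ℕ → ℕ) (N : ℕ) : lfind P N ≤ N := by
  induction N with
  | zero => simp [lfind]
  | succ N ih =>
    rw [lfind]
    split_ifs <;> omega

theorem lfind_spec (P : ℕ → ℕ) (N : ℕ) :
    (∀ i < lfind P N, P i = 0) ∧ (lfind P N < N → P (lfind P N) ≠ 0) := by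
  induction N with
  | zero => exact ⟨fun i hi => absurd hi (by simp [lfind]), fun h => absurd h (by simp [lfind])⟩
  | succ N ih =>
    have hle := lfind_le P N
    rw [lfind]
    split_ifs with h1 h2
    · refine ⟨fun i hi => ?_, fun h => absurd h (by omega)⟩
      rcases Nat.lt_succ_iff_lt_or_eq.1 hi with h | rfl
      · exact ih.1 i (by omega)
      · exact h2
    · exact ⟨fun i hi => ih.1 i (by omega), fun _ => h2⟩
    · exact ⟨ih.1, fun _ => ih.2 (by omega)⟩

theorem lfind_eq {P : ℕ → ℕ} {N k : ℕ} (hk : k < N) (h1 : P k ≠ 0) (h2 : ∀ i < k, P i = 0) :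
    lfind P N = k := by
  obtain ⟨h3, h4⟩ := lfind_spec P N
  rcases Nat.lt_trichotomy (lfind P N) k with h | h | h
  · exact absurd (h2 _ h) (h4 (h.trans hk))
  · exact h
  · exact absurd (h3 k h) h1

theorem L.find {P : (ℕ → ℕ) → ℕ → ℕ} {N : (ℕ → ℕ) → ℕ} (hN : L N)
    (hP : L (fun z => P (fun j => z (j + 1)) (z 0))) : L (fun e => lfind (P e) (N e)) := by
  refine L.recB (A := fun e i => lfind (P e) i)
    (h := fun e i y => if y = i then (if P e i = 0 then i + 1 else i) else y) (B := N) ?_ hN ?_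
    (fun x i => rfl) hN (fun x i hi => (lfind_le _ _).trans hi)
  · exact L.zero.congr fun x => by simp [lfind]
  · exact L.ite_eq (L.var 0) (L.var 1) (L.ite0 hP.tl (L.var 1).succ (L.var 1)) (L.var 0)

/-- Bounded recursion, truncated: the values are cut off at `B`. -/
def brec (B g : ℕ) (h : ℕ → ℕ → ℕ) : ℕ → ℕ
  | 0 => min g B
  | i + 1 => min (h i (brec B g h i)) B

theorem L.brec {G N B : (ℕ → ℕ) → ℕ} {h : (ℕ → ℕ) → ℕ → ℕ → ℕ} (hB : L B) (hG : L G)
    (hh : L (fun z => h (fun j => z (j + 2)) (z 1) (z 0))) (hN : L N) :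
    L (fun e => CT.brec (B e) (G e) (h e) (N e)) := by
  refine L.recB (A := fun e i => CT.brec (B e) (G e) (h e) i)
    (h := fun e i y => Min.min (h e i y) (B e)) (B := B) ?_ hN ?_
    (fun x i => rfl) hB (fun x i _ => ?_)
  · exact hG.min hB
  · exact hh.min hB.tl2
  · cases i <;> exact min_le_right _ _

/-- Iteration of functions depending on the step number. -/
def iter {S : Type} (f : ℕ → S → S) : ℕ → S → S
  | 0, s => s
  | n + 1, s => f n (iter f n s)

theorem iter_congr {S : Type} {f g : ℕ → S → S} {n : ℕ} {s : S}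
    (h : ∀ i < n, f i (iter g i s) = g i (iter g i s)) : iter f n s = iter g n s := by
  induction n with
  | zero => rfl
  | succ n ih =>
    rw [iter, iter, ih fun i hi => h i (by omega), h n (by omega)]

theorem iter_add {S : Type} (f : ℕ → S → S) (m n : ℕ) (s : S) :
    iter f (m + n) s = iter (fun i => f (m + i)) n (iter f m s) := by
  induction n with
  | zero => rfl
  | succ n ih => rw [← add_assoc, iter, ih, iter]

theorem iter_mul {S : Type} (f : ℕ → S → S) (m n : ℕ) (s : S) :
    iter f (n * m) s = iter (fun d => iter (fun r => f (d * m + r)) m) n s := by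
  induction n with
  | zero => simp [iter]
  | succ n ih => rw [Nat.succ_mul, iter_add, ih, iter]

theorem iter_succ' {S : Type} (f : ℕ → S → S) (n : ℕ) (s : S) :
    iter f (n + 1) s = iter (fun i => f (i + 1)) n (f 0 s) := by
  rw [add_comm, iter_add]
  simp only [iter]
  congr 1
  funext i
  rw [add_comm]

theorem brec_eq_iter {B g : ℕ} {h : ℕ → ℕ → ℕ} {n : ℕ} (hb : ∀ i ≤ n, iter h i g ≤ B) :
    brec B g h n = iter h n g := by
  induction n with
  | zero => exact min_eq_left (hb 0 le_rfl)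
  | succ n ih =>
    rw [brec, ih fun i hi => hb i (by omega)]
    exact min_eq_left (hb (n + 1) le_rfl)

end Pool.Agent.V7H59.CT
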