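import Pool.Agent.V7H59.CT.Space

/-!
# Basic programs on stacks which hold binary numbers
-/

set_option autoImplicit false

namespace Pool.Agent.V7H59.CT

open Pool.Agent.NPC
open Function (update)

theorem RunS.conv {m : ℕ} {c : Cmd ℕ} {s s' s₁ s₁' : ℕ → List Bool} (h : RunS m c s s')
    (e : s = s₁) (e' : s' = s₁') : RunS m c s₁ s₁' := by
  subst e e'; exact h

theorem Bd.update {m : ℕ} {s : ℕ → List Bool} (h : Bd m s) {k : ℕ} {l : List Bool}
    (hl : l.length ≤ m) : Bd m (update s k l) := by
  intro i
  by_cases hi : i = k
  · subst hi; rwa [Function.update_self]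
  · rw [Function.update_of_ne hi]; exact h i

/-- Empty a stack. -/
def clrP (r : ℕ) : Cmd ℕ := Cmd.loop r (Cmd.pop r)

theorem clr_run {m : ℕ} {r : ℕ} (l : List Bool) : ∀ s : ℕ → List Bool, s r = l → Bd m s →
    RunS m (clrP r) s (update s r []) := by
  induction l with
  | nil =>
    intro s hs hb
    refine (RunS.loopNil hs hb).conv rfl ?_
    rw [← hs, Function.update_eq_self]
  | cons a l ih =>
    intro s hs hb
    have h1 : RunS m (Cmd.pop r) s (update s r (s r).tail) := RunS.pop s r hb
    have h2 := ih (update s r (s r).tail) (by rw [Function.update_self, hs]; rfl) (hb.pop r)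
    exact (RunS.loopCons (by rw [hs]; simp) h1 h2).conv rfl (by rw [Function.update_idem])

/-- Move a stack to another one (reversed). -/
def mvP (i t : ℕ) : Cmd ℕ := Cmd.loop i (Cmd.cases i Cmd.skip
  (Cmd.seq (Cmd.pop i) (Cmd.push t false)) (Cmd.seq (Cmd.pop i) (Cmd.push t true)))

theorem mv_run {m : ℕ} {i t : ℕ} (hit : i ≠ t) (l : List Bool) : ∀ s : ℕ → List Bool, s i = l →
    Bd m s → (s i).length + (s t).length ≤ m →
    RunS m (mvP i t) s (update (update s t ((s i).reverse ++ s t)) i []) := by
  induction l with
  | nil =>
    intro s hs hb _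
    refine (RunS.loopNil hs hb).conv rfl ?_
    rw [hs]
    funext j
    simp only [Function.update_apply]
    split_ifs with h1 h2
    · rw [h1, hs]
    · rw [h2]; simp
    · rfl
  | cons a l ih =>
    intro s hs hb hm
    have hlen : l.length + 1 + (s t).length ≤ m := by rw [hs] at hm; simpa using hm
    have h1 : RunS m (Cmd.pop i) s (update s i (s i).tail) := RunS.pop s i hb
    have hb1 := hb.pop i
    set s1 := update s i (s i).tail with hs1
    have e1 : s1 t = s t := by rw [hs1, Function.update_of_ne (Ne.symm hit)]
    have e2 : s1 i = l := by rw [hs1, Function.update_self, hs]; rfl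
    have hb2 : Bd m (update s1 t (a :: s1 t)) := hb1.update (by rw [e1, List.length_cons]; omega)
    have h2 : RunS m (Cmd.push t a) s1 (update s1 t (a :: s1 t)) := RunS.push s1 t a hb1 hb2
    set s2 := update s1 t (a :: s1 t) with hs2
    have e3 : s2 i = l := by rw [hs2, Function.update_of_ne hit, e2]
    have e4 : s2 t = a :: s t := by rw [hs2, Function.update_self, e1]
    have h3 := ih s2 e3 hb2 (by rw [e3, e4, List.length_cons]; omega)
    have h4 : RunS m (Cmd.cases i Cmd.skip
        (Cmd.seq (Cmd.pop i) (Cmd.push t false)) (Cmd.seq (Cmd.pop i) (Cmd.push t true))) s s2 := by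
      cases a
      · exact RunS.casesFalse hs (RunS.seq h1 h2)
      · exact RunS.casesTrue hs (RunS.seq h1 h2)
    refine (RunS.loopCons (by rw [hs]; simp) h4 h3).conv rfl ?_
    rw [e3, e4, hs]
    funext j
    simp only [Function.update_apply, hs2, hs1]
    split_ifs with g1 g2 <;> simp_all

/-- Move a stack to two other ones (reversed). -/
def mv2P (t i r : ℕ) : Cmd ℕ := Cmd.loop t (Cmd.cases t Cmd.skip
  (Cmd.seq (Cmd.pop t) (Cmd.seq (Cmd.push i false) (Cmd.push r false)))
  (Cmd.seq (Cmd.pop t) (Cmd.seq (Cmd.push i true) (Cmd.push r true))))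

theorem mv2_run {m : ℕ} {t i r : ℕ} (h1 : t ≠ i) (h2 : t ≠ r) (h3 : i ≠ r) (l : List Bool) :
    ∀ s : ℕ → List Bool, s t = l → Bd m s → (s t).length + (s i).length ≤ m →
    (s t).length + (s r).length ≤ m →
    RunS m (mv2P t i r) s
      (update (update (update s i ((s t).reverse ++ s i)) r ((s t).reverse ++ s r)) t []) := by
  induction l with
  | nil =>
    intro s hs hb _ _
    refine (RunS.loopNil hs hb).conv rfl ?_
    rw [hs]
    funext j
    simp only [Function.update_apply]
    split_ifs with g1 g2 g3
    · rw [g1, hs]
    · rw [g2]; simp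
    · rw [g3]; simp
    · rfl
  | cons a l ih =>
    intro s hs hb hm1 hm2
    have hlen1 : l.length + 1 + (s i).length ≤ m := by rw [hs] at hm1; simpa using hm1
    have hlen2 : l.length + 1 + (s r).length ≤ m := by rw [hs] at hm2; simpa using hm2
    have k1 : RunS m (Cmd.pop t) s (update s t (s t).tail) := RunS.pop s t hb
    have hb1 := hb.pop t
    set s1 := update s t (s t).tail with hs1
    have e1 : s1 i = s i := by rw [hs1, Function.update_of_ne (Ne.symm h1)]
    have e1' : s1 r = s r := by rw [hs1, Function.update_of_ne (Ne.symm h2)]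
    have e2 : s1 t = l := by rw [hs1, Function.update_self, hs]; rfl
    have hb2 : Bd m (update s1 i (a :: s1 i)) := hb1.update (by rw [e1, List.length_cons]; omega)
    have k2 : RunS m (Cmd.push i a) s1 (update s1 i (a :: s1 i)) := RunS.push s1 i a hb1 hb2
    set s2 := update s1 i (a :: s1 i) with hs2
    have e3 : s2 t = l := by rw [hs2, Function.update_of_ne h1, e2]
    have e4 : s2 i = a :: s i := by rw [hs2, Function.update_self, e1]
    have e5 : s2 r = s r := by rw [hs2, Function.update_of_ne (Ne.symm h3), e1']
    have hb3 : Bd m (update s2 r (a :: s2 r)) := hb2.update (by rw [e5, List.length_cons]; omega)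
    have k3 : RunS m (Cmd.push r a) s2 (update s2 r (a :: s2 r)) := RunS.push s2 r a hb2 hb3
    set s3 := update s2 r (a :: s2 r) with hs3
    have f1 : s3 t = l := by rw [hs3, Function.update_of_ne h2, e3]
    have f2 : s3 i = a :: s i := by rw [hs3, Function.update_of_ne h3, e4]
    have f3 : s3 r = a :: s r := by rw [hs3, Function.update_self, e5]
    have k4 := ih s3 f1 hb3 (by rw [f1, f2, List.length_cons]; omega)
      (by rw [f1, f3, List.length_cons]; omega)
    have k5 : RunS m (Cmd.cases t Cmd.skip
        (Cmd.seq (Cmd.pop t) (Cmd.seq (Cmd.push i false) (Cmd.push r false)))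
        (Cmd.seq (Cmd.pop t) (Cmd.seq (Cmd.push i true) (Cmd.push r true)))) s s3 := by
      cases a
      · exact RunS.casesFalse hs (RunS.seq k1 (RunS.seq k2 k3))
      · exact RunS.casesTrue hs (RunS.seq k1 (RunS.seq k2 k3))
    refine (RunS.loopCons (by rw [hs]; simp) k5 k4).conv rfl ?_
    rw [f1, f2, f3, hs]
    funext j
    simp only [Function.update_apply, hs3, hs2, hs1]
    split_ifs with g1 g2 g3 <;> simp_all

/-- Copy stack `i` to stack `r`, with scratch stack `t`. -/
def cpP (i r t : ℕ) : Cmd ℕ := Cmd.seq (mvP i t) (mv2P t i r)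

theorem cp_run {m : ℕ} {i r t : ℕ} (h1 : t ≠ i) (h2 : t ≠ r) (h3 : i ≠ r) (s : ℕ → List Bool)
    (ht : s t = []) (hr : s r = []) (hb : Bd m s) :
    RunS m (cpP i r t) s (update s r (s i)) := by
  have hi := hb i
  have k1 := mv_run (m := m) (Ne.symm h1) (s i) s rfl hb (by rw [ht]; simpa using hi)
  set s1 := update (update s t ((s i).reverse ++ s t)) i [] with hs1
  have e1 : s1 t = (s i).reverse := by
    rw [hs1, Function.update_of_ne h1, Function.update_self, ht, List.append_nil]
  have e2 : s1 i = [] := by rw [hs1, Function.update_self]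
  have e3 : s1 r = [] := by
    rw [hs1, Function.update_of_ne (Ne.symm h3), Function.update_of_ne (Ne.symm h2), hr]
  have k2 := mv2_run (m := m) h1 h2 h3 (s1 t) s1 rfl k1.right (by rw [e1, e2]; simpa using hi)
    (by rw [e1, e3]; simpa using hi)
  refine (RunS.seq k1 k2).conv rfl ?_
  rw [e1, e2, e3]
  funext j
  simp only [Function.update_apply, hs1]
  split_ifs with g1 g2 g3 <;> simp_all

/-- Increment, on the list of the bits. -/
def incL : List Bool → List Bool
  | [] => [true]
  | false :: l => true :: l
  | true :: l => false :: incL l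

/-- Decrement, on the list of the bits. -/
def decL : List Bool → List Bool
  | [] => []
  | true :: [] => []
  | true :: (a :: l) => false :: a :: l
  | false :: l => true :: decL l

theorem incL_length (l : List Bool) : (incL l).length ≤ l.length + 1 := by
  induction l with
  | nil => simp [incL]
  | cons a l ih => cases a <;> simp [incL] <;> omega

theorem decL_length (l : List Bool) : (decL l).length ≤ l.length := by
  induction l with
  | nil => simp [decL]
  | cons a l ih =>
    cases a
    · simp [decL]; omega
    · cases l <;> simp [decL]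

theorem bits_succ (n : ℕ) : (n + 1).bits = incL n.bits := by
  induction n using Nat.binaryRec' with
  | zero => simp [incL]
  | bit b n h ih =>
    rw [Nat.bits_append_bit n b h]
    cases b
    · have : Nat.bit false n + 1 = Nat.bit true n := by simp [Nat.bit_val]
      rw [this, Nat.bits_append_bit n true (by simp)]
      rfl
    · have : Nat.bit true n + 1 = Nat.bit false (n + 1) := by simp [Nat.bit_val]; ring
      rw [this, Nat.bits_append_bit (n + 1) false (by simp), ih]
      rfl

theorem decL_incL (l : List Bool) (hl : ∀ h : l ≠ [], l.getLast h = true) : decL (incL l) = l := by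
  induction l with
  | nil => rfl
  | cons a l ih =>
    have hl' : ∀ h : l ≠ [], l.getLast h = true := by
      intro h
      have := hl (by simp)
      rwa [List.getLast_cons h] at this
    cases a
    · cases l with
      | nil => simpa using hl (by simp)
      | cons b l => rfl
    · change true :: decL (incL l) = true :: l
      rw [ih hl']

theorem bits_getLast (n : ℕ) (h : n.bits ≠ []) : n.bits.getLast h = true := by
  induction n using Nat.binaryRec' with
  | zero => simp at h
  | bit b n hb ih =>
    have e := Nat.bits_append_bit n b hb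
    by_cases hn : n.bits = []
    · have hn0 : n = 0 := by
        have h1 := Nat.size_eq_bits_len n
        rw [hn] at h1
        simpa using Nat.size_eq_zero.1 h1.symm
      have hb' := hb hn0
      subst hn0 hb'
      simp
    · have h2 := ih hn
      have h3 : (Nat.bit b n).bits.getLast h = (b :: n.bits).getLast (by simp) := by
        congr 1
      rw [h3, List.getLast_cons hn, h2]

theorem bits_pred (n : ℕ) (h : n ≠ 0) : (n - 1).bits = decL n.bits := by
  obtain ⟨k, rfl⟩ := Nat.exists_eq_succ_of_ne_zero h
  rw [Nat.succ_eq_add_one, Nat.add_sub_cancel, bits_succ, decL_incL _ (bits_getLast k)]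

theorem bits_eq_nil {n : ℕ} : n.bits = [] ↔ n = 0 := by
  constructor
  · intro h
    have h1 := Nat.size_eq_bits_len n
    rw [h] at h1
    simpa using Nat.size_eq_zero.1 h1.symm
  · rintro rfl
    simp

/-- Increment of stack `r`, scratch stack `t`, flag stack `f`. -/
def incP (r t f : ℕ) : Cmd ℕ :=
  Cmd.seq (Cmd.push f true) (Cmd.seq (Cmd.loop f (Cmd.cases r
    (Cmd.seq (Cmd.push r true) (Cmd.pop f))
    (Cmd.seq (Cmd.pop r) (Cmd.seq (Cmd.push r true) (Cmd.pop f)))
    (Cmd.seq (Cmd.pop r) (Cmd.push t false))))
    (Cmd.loop t (Cmd.seq (Cmd.pop t) (Cmd.push r false))))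

theorem back_run {m : ℕ} {r t : ℕ} (hrt : r ≠ t) (b : Bool) (j : ℕ) : ∀ s : ℕ → List Bool,
    s t = List.replicate j b → Bd m s → j + (s r).length ≤ m →
    RunS m (Cmd.loop t (Cmd.seq (Cmd.pop t) (Cmd.push r b))) s
      (update (update s r (List.replicate j b ++ s r)) t []) := by
  induction j with
  | zero =>
    intro s hs hb _
    refine (RunS.loopNil (by simpa using hs) hb).conv rfl ?_
    funext i
    simp only [Function.update_apply]
    split_ifs with g1 g2
    · rw [g1, hs]; simp
    · rw [g2]; simp
    · rfl
  | succ j ih =>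
    intro s hs hb hm
    have k1 : RunS m (Cmd.pop t) s (update s t (s t).tail) := RunS.pop s t hb
    have hb1 := hb.pop t
    set s1 := update s t (s t).tail with hs1
    have e1 : s1 t = List.replicate j b := by rw [hs1, Function.update_self, hs]; simp
    have e2 : s1 r = s r := by rw [hs1, Function.update_of_ne hrt]
    have hb2 : Bd m (update s1 r (b :: s1 r)) := hb1.update (by rw [e2, List.length_cons]; omega)
    have k2 : RunS m (Cmd.push r b) s1 (update s1 r (b :: s1 r)) := RunS.push s1 r b hb1 hb2
    set s2 := update s1 r (b :: s1 r) with hs2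
    have e3 : s2 t = List.replicate j b := by rw [hs2, Function.update_of_ne (Ne.symm hrt), e1]
    have e4 : s2 r = b :: s r := by rw [hs2, Function.update_self, e2]
    have k3 := ih s2 e3 hb2 (by rw [e4, List.length_cons]; omega)
    refine (RunS.loopCons (by rw [hs]; simp) (RunS.seq k1 k2) k3).conv rfl ?_
    rw [e4]
    funext i
    simp only [Function.update_apply, hs2, hs1]
    split_ifs with g1 g2
    · rfl
    · rw [List.replicate_succ', List.append_assoc]
      simp
    · rfl

theorem inc_loop {m : ℕ} {r t f : ℕ} (h1 : r ≠ t) (h2 : r ≠ f) (h3 : t ≠ f) (hm1 : 1 ≤ m)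
    (l : List Bool) :
    ∀ s : ℕ → List Bool, s r = l → s f = [true] → Bd m s → (s r).length + 1 ≤ m →
      (s r).length + (s t).length ≤ m →
      ∃ (j : ℕ) (l' : List Bool), incL l = List.replicate j false ++ l' ∧
      RunS m (Cmd.loop f (Cmd.cases r
        (Cmd.seq (Cmd.push r true) (Cmd.pop f))
        (Cmd.seq (Cmd.pop r) (Cmd.seq (Cmd.push r true) (Cmd.pop f)))
        (Cmd.seq (Cmd.pop r) (Cmd.push t false)))) s
        (update (update (update s r l') t (List.replicate j false ++ s t)) f []) := by
  induction l with
  | nil =>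
    intro s hs hf hb hl _
    refine ⟨0, [true], rfl, ?_⟩
    have hb1 : Bd m (update s r (true :: s r)) := hb.update (by rw [List.length_cons]; omega)
    have k1 : RunS m (Cmd.push r true) s (update s r (true :: s r)) := RunS.push s r true hb hb1
    set s1 := update s r (true :: s r) with hs1
    have k2 : RunS m (Cmd.pop f) s1 (update s1 f (s1 f).tail) := RunS.pop s1 f hb1
    have e1 : s1 f = [true] := by rw [hs1, Function.update_of_ne (Ne.symm h2), hf]
    refine (RunS.loopCons (by rw [hf]; simp) (RunS.casesNil hs (RunS.seq k1 k2))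
      (RunS.loopNil (by rw [Function.update_self, e1]; rfl) (hb1.pop f))).conv rfl ?_
    rw [e1]
    funext i
    simp only [Function.update_apply, hs1]
    split_ifs with g1 g2 g3 <;> simp_all
  | cons a l ih =>
    intro s hs hf hb hl hlt
    have hl' : l.length + 2 ≤ m := by rw [hs, List.length_cons] at hl; omega
    have hlt' : l.length + 1 + (s t).length ≤ m := by rw [hs] at hlt; simpa using hlt
    have k0 : RunS m (Cmd.pop r) s (update s r (s r).tail) := RunS.pop s r hb
    have hb0 := hb.pop r
    set s0 := update s r (s r).tail with hs0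
    have e0 : s0 r = l := by rw [hs0, Function.update_self, hs]; rfl
    have e0f : s0 f = [true] := by rw [hs0, Function.update_of_ne (Ne.symm h2), hf]
    have e0t : s0 t = s t := by rw [hs0, Function.update_of_ne (Ne.symm h1)]
    cases a
    · refine ⟨0, true :: l, rfl, ?_⟩
      have hb1 : Bd m (update s0 r (true :: s0 r)) :=
        hb0.update (by rw [e0, List.length_cons]; omega)
      have k1 : RunS m (Cmd.push r true) s0 (update s0 r (true :: s0 r)) :=
        RunS.push s0 r true hb0 hb1
      set s1 := update s0 r (true :: s0 r) with hs1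
      have k2 : RunS m (Cmd.pop f) s1 (update s1 f (s1 f).tail) := RunS.pop s1 f hb1
      have e1 : s1 f = [true] := by rw [hs1, Function.update_of_ne (Ne.symm h2), e0f]
      refine (RunS.loopCons (by rw [hf]; simp)
        (RunS.casesFalse hs (RunS.seq k0 (RunS.seq k1 k2)))
        (RunS.loopNil (by rw [Function.update_self, e1]; rfl) (hb1.pop f))).conv rfl ?_
      rw [e1]
      funext i
      simp only [Function.update_apply, hs1, hs0]
      split_ifs with g1 g2 g3 <;> simp_all
    · have hb1 : Bd m (update s0 t (false :: s0 t)) :=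
        hb0.update (by rw [e0t, List.length_cons]; omega)
      have k1 : RunS m (Cmd.push t false) s0 (update s0 t (false :: s0 t)) :=
        RunS.push s0 t false hb0 hb1
      set s1 := update s0 t (false :: s0 t) with hs1
      have e1 : s1 f = [true] := by rw [hs1, Function.update_of_ne (Ne.symm h3), e0f]
      have e1r : s1 r = l := by rw [hs1, Function.update_of_ne h1, e0]
      have e1t : s1 t = false :: s t := by rw [hs1, Function.update_self, e0t]
      obtain ⟨j, l', hj, k2⟩ := ih s1 e1r e1 hb1 (by rw [e1r]; omega)
        (by rw [e1r, e1t, List.length_cons]; omega)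
      refine ⟨j + 1, l', by rw [incL, hj]; rfl, ?_⟩
      refine (RunS.loopCons (by rw [hf]; simp)
        (RunS.casesTrue hs (RunS.seq k0 k1)) k2).conv rfl ?_
      rw [e1t]
      funext i
      simp only [Function.update_apply, hs1, hs0]
      split_ifs with g1 g2 g3
      · rfl
      · rw [List.replicate_succ', List.append_assoc]; rfl
      · rfl
      · rfl

theorem inc_run {m : ℕ} {r t f : ℕ} (h1 : r ≠ t) (h2 : r ≠ f) (h3 : t ≠ f)
    (s : ℕ → List Bool) (ht : s t = []) (hf : s f = []) (hb : Bd m s) (hl : (s r).length + 1 ≤ m) :
    RunS m (incP r t f) s (update s r (incL (s r))) := by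
  have hb1 : Bd m (update s f (true :: s f)) := hb.update (by rw [hf]; simp; omega)
  have k1 : RunS m (Cmd.push f true) s (update s f (true :: s f)) := RunS.push s f true hb hb1
  set s1 := update s f (true :: s f) with hs1
  have e1 : s1 f = [true] := by rw [hs1, Function.update_self, hf]
  have e1r : s1 r = s r := by rw [hs1, Function.update_of_ne h2]
  have e1t : s1 t = [] := by rw [hs1, Function.update_of_ne h3, ht]
  obtain ⟨j, l', hj, k2⟩ := inc_loop (m := m) h1 h2 h3 (by omega) (s r) s1 e1r e1 hb1
    (by rw [e1r]; exact hl) (by rw [e1r, e1t]; simp; omega)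
  set s2 := update (update (update s1 r l') t (List.replicate j false ++ s1 t)) f [] with hs2
  have e2t : s2 t = List.replicate j false := by
    rw [hs2, Function.update_of_ne h3, Function.update_self, e1t, List.append_nil]
  have e2r : s2 r = l' := by
    rw [hs2, Function.update_of_ne h2, Function.update_of_ne h1, Function.update_self]
  have hlen : j + l'.length ≤ m := by
    have := incL_length (s r)
    rw [hj, List.length_append, List.length_replicate] at this
    omega
  have k3 := back_run (m := m) h1 false j s2 e2t k2.right (by rw [e2r]; exact hlen)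
  refine (RunS.seq k1 (RunS.seq k2 k3)).conv rfl ?_
  rw [e2r, ← hj]
  funext i
  simp only [Function.update_apply, hs2, hs1]
  split_ifs with g1 g2 g3 g4 <;> simp_all

/-- Decrement of stack `r`, scratch stack `t`, flag stack `f`. -/
def decP (r t f : ℕ) : Cmd ℕ :=
  Cmd.seq (Cmd.push f true) (Cmd.seq (Cmd.loop f (Cmd.cases r
    (Cmd.pop f)
    (Cmd.seq (Cmd.pop r) (Cmd.push t true))
    (Cmd.seq (Cmd.pop r) (Cmd.seq (Cmd.cases r Cmd.skip (Cmd.push r false) (Cmd.push r false))
      (Cmd.pop f)))))
    (Cmd.loop t (Cmd.seq (Cmd.pop t) (Cmd.push r true))))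

theorem dec_loop {m : ℕ} {r t f : ℕ} (h1 : r ≠ t) (h2 : r ≠ f) (h3 : t ≠ f)
    (l : List Bool) :
    ∀ s : ℕ → List Bool, s r = l → s f = [true] → Bd m s →
      (s r).length + (s t).length ≤ m →
      ∃ (j : ℕ) (l' : List Bool), decL l = List.replicate j true ++ l' ∧
      RunS m (Cmd.loop f (Cmd.cases r
        (Cmd.pop f)
        (Cmd.seq (Cmd.pop r) (Cmd.push t true))
        (Cmd.seq (Cmd.pop r) (Cmd.seq (Cmd.cases r Cmd.skip (Cmd.push r false) (Cmd.push r false))
          (Cmd.pop f))))) s
        (update (update (update s r l') t (List.replicate j true ++ s t)) f []) := by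
  induction l with
  | nil =>
    intro s hs hf hb _
    refine ⟨0, [], rfl, ?_⟩
    have k1 : RunS m (Cmd.pop f) s (update s f (s f).tail) := RunS.pop s f hb
    refine (RunS.loopCons (by rw [hf]; simp) (RunS.casesNil hs k1)
      (RunS.loopNil (by rw [Function.update_self, hf]; rfl) (hb.pop f))).conv rfl ?_
    rw [hf]
    funext i
    simp only [Function.update_apply]
    split_ifs with g1 g2 g3 <;> simp_all
  | cons a l ih =>
    intro s hs hf hb hlt
    have hlt' : l.length + 1 + (s t).length ≤ m := by rw [hs] at hlt; simpa using hlt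
    have k0 : RunS m (Cmd.pop r) s (update s r (s r).tail) := RunS.pop s r hb
    have hb0 := hb.pop r
    set s0 := update s r (s r).tail with hs0
    have e0 : s0 r = l := by rw [hs0, Function.update_self, hs]; rfl
    have e0f : s0 f = [true] := by rw [hs0, Function.update_of_ne (Ne.symm h2), hf]
    have e0t : s0 t = s t := by rw [hs0, Function.update_of_ne (Ne.symm h1)]
    cases a
    · have hb1 : Bd m (update s0 t (true :: s0 t)) :=
        hb0.update (by rw [e0t, List.length_cons]; omega)
      have k1 : RunS m (Cmd.push t true) s0 (update s0 t (true :: s0 t)) :=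
        RunS.push s0 t true hb0 hb1
      set s1 := update s0 t (true :: s0 t) with hs1
      have e1 : s1 f = [true] := by rw [hs1, Function.update_of_ne (Ne.symm h3), e0f]
      have e1r : s1 r = l := by rw [hs1, Function.update_of_ne h1, e0]
      have e1t : s1 t = true :: s t := by rw [hs1, Function.update_self, e0t]
      obtain ⟨j, l', hj, k2⟩ := ih s1 e1r e1 hb1
        (by rw [e1r, e1t, List.length_cons]; omega)
      refine ⟨j + 1, l', by rw [decL, hj]; rfl, ?_⟩
      refine (RunS.loopCons (by rw [hf]; simp)
        (RunS.casesFalse hs (RunS.seq k0 k1)) k2).conv rfl ?_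
      rw [e1t]
      funext i
      simp only [Function.update_apply, hs1, hs0]
      split_ifs with g1 g2 g3
      · rfl
      · rw [List.replicate_succ', List.append_assoc]; rfl
      · rfl
      · rfl
    · cases l with
      | nil =>
        refine ⟨0, [], rfl, ?_⟩
        have k1 : RunS m (Cmd.cases r Cmd.skip (Cmd.push r false) (Cmd.push r false)) s0 s0 :=
          RunS.casesNil e0 (RunS.skip s0 hb0)
        have k2 : RunS m (Cmd.pop f) s0 (update s0 f (s0 f).tail) := RunS.pop s0 f hb0
        refine (RunS.loopCons (by rw [hf]; simp)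
          (RunS.casesTrue hs (RunS.seq k0 (RunS.seq k1 k2)))
          (RunS.loopNil (by rw [Function.update_self, e0f]; rfl) (hb0.pop f))).conv rfl ?_
        rw [e0f]
        funext i
        simp only [Function.update_apply, hs0]
        split_ifs with g1 g2 g3 <;> simp_all
      | cons b l =>
        refine ⟨0, false :: b :: l, rfl, ?_⟩
        have hb1 : Bd m (update s0 r (false :: s0 r)) :=
          hb0.update (by rw [e0]; simp only [List.length_cons] at hlt' ⊢; omega)
        have kp : RunS m (Cmd.push r false) s0 (update s0 r (false :: s0 r)) :=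
          RunS.push s0 r false hb0 hb1
        have k1 : RunS m (Cmd.cases r Cmd.skip (Cmd.push r false) (Cmd.push r false)) s0
            (update s0 r (false :: s0 r)) := by
          cases b
          · exact RunS.casesFalse e0 kp
          · exact RunS.casesTrue e0 kp
        set s1 := update s0 r (false :: s0 r) with hs1
        have k2 : RunS m (Cmd.pop f) s1 (update s1 f (s1 f).tail) := RunS.pop s1 f hb1
        have e1 : s1 f = [true] := by rw [hs1, Function.update_of_ne (Ne.symm h2), e0f]
        refine (RunS.loopCons (by rw [hf]; simp)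
          (RunS.casesTrue hs (RunS.seq k0 (RunS.seq k1 k2)))
          (RunS.loopNil (by rw [Function.update_self, e1]; rfl) (hb1.pop f))).conv rfl ?_
        rw [e1]
        funext i
        simp only [Function.update_apply, hs1, hs0]
        split_ifs with g1 g2 g3 <;> simp_all

theorem dec_run {m : ℕ} {r t f : ℕ} (h1 : r ≠ t) (h2 : r ≠ f) (h3 : t ≠ f) (hm : 1 ≤ m)
    (s : ℕ → List Bool) (ht : s t = []) (hf : s f = []) (hb : Bd m s) :
    RunS m (decP r t f) s (update s r (decL (s r))) := by
  have hb1 : Bd m (update s f (true :: s f)) := hb.update (by rw [hf]; simpa using hm)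
  have k1 : RunS m (Cmd.push f true) s (update s f (true :: s f)) := RunS.push s f true hb hb1
  set s1 := update s f (true :: s f) with hs1
  have e1 : s1 f = [true] := by rw [hs1, Function.update_self, hf]
  have e1r : s1 r = s r := by rw [hs1, Function.update_of_ne h2]
  have e1t : s1 t = [] := by rw [hs1, Function.update_of_ne h3, ht]
  obtain ⟨j, l', hj, k2⟩ := dec_loop (m := m) h1 h2 h3 (s r) s1 e1r e1 hb1
    (by rw [e1r, e1t]; simpa using hb r)
  set s2 := update (update (update s1 r l') t (List.replicate j true ++ s1 t)) f [] with hs2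
  have e2t : s2 t = List.replicate j true := by
    rw [hs2, Function.update_of_ne h3, Function.update_self, e1t, List.append_nil]
  have e2r : s2 r = l' := by
    rw [hs2, Function.update_of_ne h2, Function.update_of_ne h1, Function.update_self]
  have hlen : j + l'.length ≤ m := by
    have := decL_length (s r)
    rw [hj, List.length_append, List.length_replicate] at this
    have := hb r
    omega
  have k3 := back_run (m := m) h1 true j s2 e2t k2.right (by rw [e2r]; exact hlen)
  refine (RunS.seq k1 (RunS.seq k2 k3)).conv rfl ?_
  rw [e2r, ← hj]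
  funext i
  simp only [Function.update_apply, hs2, hs1]
  split_ifs with g1 g2 g3 g4 <;> simp_all

end Pool.Agent.V7H59.CT
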