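import Pool.Agent.V7H59.CT.LB

/-!
# The bounds for the numbers of the program
-/

set_option autoImplicit false

namespace Pool.Agent.V7H59.CT

open Finset

theorem pair_bound {a b M : ℕ} (ha : a < M) (hb : b < M) : Nat.pair a b < M ^ 2 := by
  have h1 := Nat.pair_lt_max_add_one_sq a b
  have h2 : max a b + 1 ≤ M := by
    rcases le_total a b with h | h
    · rw [max_eq_right h]; omega
    · rw [max_eq_left h]; omega
  exact h1.trans_le (Nat.pow_le_pow_left h2 2)

theorem pk_bound {P o s τ m M : ℕ} (hP : P < M) (ho : o < M) (hs : s < M) (hτ : τ < M)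
    (hm : m < M) : pk P o s τ m < M ^ 16 := by
  have hM : 1 ≤ M := by omega
  have e2 : M ≤ M ^ 2 := Nat.le_self_pow (by omega) M
  have e4 : M ≤ M ^ 4 := Nat.le_self_pow (by omega) M
  have e8 : M ≤ M ^ 8 := Nat.le_self_pow (by omega) M
  have h1 := pair_bound hτ hm
  have h2 := pair_bound (hs.trans_le e2) h1
  have h2' : Nat.pair s (Nat.pair τ m) < M ^ 4 := by
    rw [← pow_mul] at h2
    exact h2
  have h3 := pair_bound (ho.trans_le e4) h2'
  have h3' : Nat.pair o (Nat.pair s (Nat.pair τ m)) < M ^ 8 := by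
    rw [← pow_mul] at h3
    exact h3
  have h4 := pair_bound (hP.trans_le e8) h3'
  rw [← pow_mul] at h4
  exact h4

theorem pk_eta (σ : ℕ) : pk (pkP σ) (pko σ) (pks σ) (pkt σ) (pkm σ) = σ := by
  unfold pk pkP pko pks pkt pkm
  rw [Nat.pair_unpair, Nat.pair_unpair, Nat.pair_unpair, Nat.pair_unpair]

/-- The bounds for a state of the descent. -/
structure Small (π : Par) (M U σ : ℕ) : Prop where
  P : pkP σ ≤ U
  o : pko σ ≤ π.D
  s : pks σ ≤ π.p
  t : pkt σ ≤ M
  m : pkm σ ≤ 3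

theorem Small.mk' {π : Par} {M U P o s τ m : ℕ} (h1 : P ≤ U) (h2 : o ≤ π.D) (h3 : s ≤ π.p)
    (h4 : τ ≤ M) (h5 : m ≤ 3) : Small π M U (pk P o s τ m) :=
  ⟨by simpa using h1, by simpa using h2, by simpa using h3, by simpa using h4, by simpa using h5⟩

theorem co_le (o i : ℕ) : co o i ≤ i + 1 := by
  unfold co
  split_ifs <;> omega

theorem Small.dstep {π : Par} {M U δ σ : ℕ} (h : Small π M U σ) (hc : ∀ P i, π.child P i ≤ P + δ)
    (hi : ∀ l, π.inv l ≤ π.p) (hp : 1 ≤ π.p) (hpM : π.p ≤ M) (hM : 3 ≤ M) (κ : ℕ) :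
    Small π M (U + δ) (π.dstep κ σ) := by
  have hU : pkP σ ≤ U + δ := h.P.trans (Nat.le_add_right _ _)
  have hm : ∀ c : ℕ, c ≤ 3 → (if pkt σ % κ = 0 then c else 3) ≤ 3 := by
    intro c hc
    split_ifs
    · exact hc
    · exact le_rfl
  have hl : pkt σ / κ / π.Sl + 1 ≤ M := by
    have h1 : pkt σ / κ / π.Sl ≤ pkt σ / 3 :=
      (Nat.div_le_div_right (Nat.div_le_self _ _)).trans
        (Nat.div_le_div_left (by unfold Par.Sl; omega) (by omega))
    have h2 := h.t
    omega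
  have hr : pkt σ % κ ≤ M := (Nat.mod_le _ _).trans h.t
  unfold Par.dstep
  by_cases c0 : pkm σ = 0
  · rw [if_pos c0]
    by_cases c1 : pkt σ / κ % π.Sl = 0
    · rw [if_pos c1]
      exact Small.mk' hU h.o h.s hl (hm 1 (by omega))
    · rw [if_neg c1]
      by_cases c2 : pkt σ / κ % π.Sl ≤ π.D
      · rw [if_pos c2]
        refine Small.mk' ((hc _ _).trans (Nat.add_le_add_right h.P _)) ?_ hp hr (by omega)
        have := co_le (pko σ) (pkt σ / κ % π.Sl - 1)
        omega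
      · rw [if_neg c2]
        by_cases c3 : pkt σ / κ % π.Sl = π.D + 1
        · rw [if_pos c3]
          exact Small.mk' hU h.o h.s (Nat.zero_le _) (hm 2 (by omega))
        · rw [if_neg c3]
          by_cases c4 : pkt σ / κ % π.Sl ≤ 2 * π.D + 1
          · rw [if_pos c4]
            refine Small.mk' ((hc _ _).trans (Nat.add_le_add_right h.P _)) ?_
              (Nat.sub_le _ _) hr (by omega)
            have := co_le (pko σ) (pkt σ / κ % π.Sl - (π.D + 2))
            omega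
          · rw [if_neg c4]
            exact Small.mk' hU h.o h.s ((hi _).trans hpM) (hm 1 (by omega))
  · rw [if_neg c0]
    exact ⟨hU, h.o, h.s, h.t, h.m⟩

theorem Small.lt {π : Par} {M U σ : ℕ} (h : Small π M U σ) (hU : U ≤ M) (hD : π.D ≤ M)
    (hp : π.p ≤ M) (hM : 3 ≤ M) : σ < (M + 1) ^ 16 := by
  rw [← pk_eta σ]
  have h1 := h.P
  have h2 := h.o
  have h3 := h.s
  have h4 := h.t
  have h5 := h.m
  exact pk_bound (by omega) (by omega) (by omega) (by omega) (by omega)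

theorem le_of_pow {M k B : ℕ} (hk : k ≠ 0) (h : (M + 1) ^ k ≤ B) : M ≤ B := by
  have h1 : M + 1 ≤ (M + 1) ^ k := Nat.le_self_pow hk _
  omega

theorem desc_eq {π : Par} {M δ h : ℕ} (hc : ∀ P i, π.child P i ≤ P + δ)
    (hi : ∀ l, π.inv l ≤ π.p) (hp : 2 ≤ π.p) (hpM : π.p ≤ M) (hM : 3 ≤ M) (hD : π.D ≤ M)
    (hδ : h * δ ≤ M) (hK : π.K ^ h ≤ M) (hB : (M + 1) ^ 16 ≤ π.B) {τ : ℕ} (hτ : τ < π.K ^ h) :
    desc π h τ = iter (fun i => π.dstep (π.K ^ (h - 1 - i))) h (pk 0 0 1 τ 0) := by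
  have hK0 : 0 < π.K := by
    unfold Par.K Par.Sl
    exact Nat.mul_pos (by omega) (by omega)
  have hMB : M ≤ π.B := le_of_pow (by norm_num) hB
  have key : ∀ i, Small π M (i * δ)
      (iter (fun i σ => π.dstep (powT π.K (h - 1 - i) π.B) σ) i (pk 0 0 1 τ 0)) := by
    intro i
    induction i with
    | zero =>
      exact Small.mk' (Nat.zero_le _) (Nat.zero_le _) (by omega) (by omega) (by omega)
    | succ i ih =>
      rw [Nat.succ_mul, iter]
      exact ih.dstep hc hi (by omega) hpM hM _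
  unfold desc
  rw [brec_eq_iter fun i hi' => ?_]
  · refine iter_congr fun i hi' => ?_
    have e : powT π.K (h - 1 - i) π.B = π.K ^ (h - 1 - i) := by
      refine powT_eq (le_trans ?_ (hK.trans hMB))
      exact Nat.pow_le_pow_right hK0 (by omega)
    simp only [e]
  · have h1 : i * δ ≤ M := (Nat.mul_le_mul_right δ hi').trans hδ
    exact ((key i).lt h1 hD hpM hM).le.trans hB

theorem app_lt {π : Par} (hp : 0 < π.p) (hB : π.p ^ π.NR ≤ π.B) {σ R : ℕ} (hR : R < π.p ^ π.NR) :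
    π.app σ R < π.p ^ π.NR := by
  unfold Par.app
  split_ifs
  · exact mkN_lt hp hB _
  · exact mkN_lt hp hB _
  · exact mkN_lt hp hB _
  · exact hR

theorem runB_eq {π : Par} {M δ h : ℕ} (hc : ∀ P i, π.child P i ≤ P + δ)
    (hi : ∀ l, π.inv l ≤ π.p) (hp : 2 ≤ π.p) (hpM : π.p ≤ M) (hM : 3 ≤ M) (hD : π.D ≤ M)
    (hδ : h * δ ≤ M) (hK : π.K ^ h ≤ M) (hB : (M + 1) ^ 16 ≤ π.B)
    (hB' : π.p ^ π.NR ≤ π.B) : runB π h = π.run h 0 0 1 0 := by
  have hMB : M ≤ π.B := le_of_pow (by norm_num) hB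
  have key : ∀ i, iter (fun τ R => π.app (desc π h τ) R) i 0 < π.p ^ π.NR := by
    intro i
    induction i with
    | zero => exact Nat.pow_pos (by omega)
    | succ i ih =>
      rw [iter]
      exact app_lt (by omega) hB' ih
  unfold runB Par.run
  rw [powT_eq (hK.trans hMB), brec_eq_iter fun i _ => (key i).le.trans hB']
  refine iter_congr fun τ hτ => ?_
  rw [desc_eq hc hi hp hpM hM hD hδ hK hB hτ, Par.tick_eq]

end Pool.Agent.V7H59.CT
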