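import Pool.Agent.V7H59.CT.Digits

/-!
# The register program of Cook and Mertz, as a loop with a counter

The registers are the digits in base `p` of one number `R`; there are `D + 1` blocks of `V`
registers. `run h P o s` adds `s` times the value of the node `P` of height `h` to the block `o`,
and restores all other blocks.
-/

set_option autoImplicit false

namespace Pool.Agent.V7H59.CT

open Finset

/-- The parameters of the register program. -/
structure Par where
  /-- a bound for all numbers -/
  B : ℕ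
  /-- the order of the field -/
  p : ℕ
  /-- the number of the children of a node -/
  D : ℕ
  /-- the number of the entries of a value -/
  V : ℕ
  /-- the children -/
  child : ℕ → ℕ → ℕ
  /-- the values of the leaves -/
  leaf : ℕ → ℕ → ℕ
  /-- the evaluation of a node -/
  E : ℕ → ℕ → ℕ → ℕ
  /-- the inverses in the field -/
  inv : ℕ → ℕ

namespace Par

variable (π : Par)

/-- the number of the registers -/
def NR : ℕ := (π.D + 1) * π.V

/-- the number of the stages for one field element -/
def Sl : ℕ := 2 * π.D + 3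

/-- the number of the stages -/
def K : ℕ := (π.p - 1) * π.Sl

/-- Multiply all blocks but `o` by `μ`. -/
def scl (R o μ : ℕ) : ℕ :=
  mkN π.B π.p π.NR fun j => if j / π.V = o then dgt π.p R j else dgt π.p R j * μ

/-- Add `s f` to block `o`. -/
def upd (R o s : ℕ) (f : ℕ → ℕ) : ℕ :=
  mkN π.B π.p π.NR fun j => if j / π.V = o then dgt π.p R j + s * f (j % π.V) else dgt π.p R j

end Par

/-- The `i`-th block different from `o`. -/
def co (o i : ℕ) : ℕ := if i < o then i else i + 1

/-- The inverse of `co o`. -/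
def ci (o j : ℕ) : ℕ := if j < o then j else j - 1

namespace Par

variable (π : Par)

/-- One step of the program. -/
def tick : ℕ → ℕ → ℕ → ℕ → ℕ → ℕ → ℕ
  | 0, P, o, s, _, R => π.upd R o s (π.leaf P)
  | h + 1, P, o, s, τ, R =>
    if τ / π.K ^ h % π.Sl = 0 then
      (if τ % π.K ^ h = 0 then π.scl R o (τ / π.K ^ h / π.Sl + 1) else R)
    else if τ / π.K ^ h % π.Sl ≤ π.D then
      tick h (π.child P (τ / π.K ^ h % π.Sl - 1)) (co o (τ / π.K ^ h % π.Sl - 1)) 1
        (τ % π.K ^ h) R
    else if τ / π.K ^ h % π.Sl = π.D + 1 then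
      (if τ % π.K ^ h = 0 then π.upd R o (π.p - s) (π.E R o) else R)
    else if τ / π.K ^ h % π.Sl ≤ 2 * π.D + 1 then
      tick h (π.child P (τ / π.K ^ h % π.Sl - (π.D + 2)))
        (co o (τ / π.K ^ h % π.Sl - (π.D + 2))) (π.p - 1) (τ % π.K ^ h) R
    else (if τ % π.K ^ h = 0 then π.scl R o (π.inv (τ / π.K ^ h / π.Sl + 1)) else R)

/-- The program for a node. -/
def run (h P o s R : ℕ) : ℕ := iter (π.tick h P o s) (π.K ^ h) R

/-- A stage of the program. -/
def stage (h P o s lam slot R : ℕ) : ℕ :=
  if slot = 0 then π.scl R o lam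
  else if slot ≤ π.D then π.run h (π.child P (slot - 1)) (co o (slot - 1)) 1 R
  else if slot = π.D + 1 then π.upd R o (π.p - s) (π.E R o)
  else if slot ≤ 2 * π.D + 1 then
    π.run h (π.child P (slot - (π.D + 2))) (co o (slot - (π.D + 2))) (π.p - 1) R
  else π.scl R o (π.inv lam)

theorem iter_first {S : Type} (g : S → S) {m : ℕ} (hm : 0 < m) (s : S) :
    iter (fun r s => if r = 0 then g s else s) m s = g s := by
  induction m with
  | zero => omega
  | succ m ih =>
    rcases Nat.eq_zero_or_pos m with rfl | h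
    · simp [iter]
    · rw [iter, ih h, if_neg (by omega)]

theorem iter_stage {h P o s : ℕ} (hK : 0 < π.K) (d R : ℕ) :
    iter (fun r => π.tick (h + 1) P o s (d * π.K ^ h + r)) (π.K ^ h) R =
      π.stage h P o s (d / π.Sl + 1) (d % π.Sl) R := by
  have hm : 0 < π.K ^ h := Nat.pow_pos hK
  have e : ∀ r < π.K ^ h, (d * π.K ^ h + r) / π.K ^ h = d ∧ (d * π.K ^ h + r) % π.K ^ h = r := by
    intro r hr
    constructor
    · rw [mul_comm, Nat.mul_add_div hm, Nat.div_eq_of_lt hr, add_zero]
    · rw [mul_comm, Nat.mul_add_mod, Nat.mod_eq_of_lt hr]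
  have e2 : iter (fun r => π.tick (h + 1) P o s (d * π.K ^ h + r)) (π.K ^ h) R =
      iter (fun r R => if d % π.Sl = 0 then (if r = 0 then π.scl R o (d / π.Sl + 1) else R)
        else if d % π.Sl ≤ π.D then π.tick h (π.child P (d % π.Sl - 1)) (co o (d % π.Sl - 1)) 1 r R
        else if d % π.Sl = π.D + 1 then (if r = 0 then π.upd R o (π.p - s) (π.E R o) else R)
        else if d % π.Sl ≤ 2 * π.D + 1 then π.tick h (π.child P (d % π.Sl - (π.D + 2)))
          (co o (d % π.Sl - (π.D + 2))) (π.p - 1) r R
        else (if r = 0 then π.scl R o (π.inv (d / π.Sl + 1)) else R)) (π.K ^ h) R := by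
    refine iter_congr fun r hr => ?_
    simp only [tick, (e r hr).1, (e r hr).2]
  rw [e2]
  unfold stage
  by_cases h1 : d % π.Sl = 0
  · simp only [h1, if_true]
    exact iter_first _ hm R
  · simp only [h1, if_false]
    by_cases h2 : d % π.Sl ≤ π.D
    · simp only [h2, if_true]
      rfl
    · simp only [h2, if_false]
      by_cases h3 : d % π.Sl = π.D + 1
      · simp only [h3, if_true]
        exact iter_first (fun R => π.upd R o (π.p - s) (π.E R o)) hm R
      · simp only [h3, if_false]
        by_cases h4 : d % π.Sl ≤ 2 * π.D + 1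
        · simp only [h4, if_true]
          rfl
        · simp only [h4, if_false]
          exact iter_first _ hm R

theorem run_succ {h P o s : ℕ} (hK : 0 < π.K) (R : ℕ) :
    π.run (h + 1) P o s R =
      iter (fun l => iter (fun t => π.stage h P o s (l + 1) t) π.Sl) (π.p - 1) R := by
  unfold run
  rw [pow_succ', iter_mul]
  have e1 : iter (fun d => iter (fun r => π.tick (h + 1) P o s (d * π.K ^ h + r)) (π.K ^ h)) π.K R =
      iter (fun d => π.stage h P o s (d / π.Sl + 1) (d % π.Sl)) π.K R :=
    iter_congr fun d _ => π.iter_stage hK d _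
  rw [e1]
  have e2 : π.K = (π.p - 1) * π.Sl := rfl
  rw [e2, iter_mul]
  refine iter_congr fun l _ => ?_
  refine iter_congr fun t ht => ?_
  have hS : 0 < π.Sl := by unfold Sl; omega
  have e3 : (l * π.Sl + t) / π.Sl = l := by
    rw [mul_comm, Nat.mul_add_div hS, Nat.div_eq_of_lt ht, add_zero]
  have e4 : (l * π.Sl + t) % π.Sl = t := by
    rw [mul_comm, Nat.mul_add_mod, Nat.mod_eq_of_lt ht]
  simp only [e3, e4]

/-- `R` represents the contents `ρ` of the registers. -/
def Rep (R : ℕ) (ρ : ℕ → ZMod π.p) : Prop :=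
  R < π.p ^ π.NR ∧ ∀ j < π.NR, ((dgt π.p R j : ℕ) : ZMod π.p) = ρ j

variable {π}

theorem Rep.congr {R : ℕ} {ρ ρ' : ℕ → ZMod π.p} (h : π.Rep R ρ) (e : ∀ j < π.NR, ρ j = ρ' j) :
    π.Rep R ρ' := ⟨h.1, fun j hj => (h.2 j hj).trans (e j hj)⟩

theorem Rep.scl {R : ℕ} {ρ : ℕ → ZMod π.p} (hp : 0 < π.p) (hB : π.p ^ π.NR ≤ π.B)
    (h : π.Rep R ρ) (o μ : ℕ) :
    π.Rep (π.scl R o μ) fun j => if j / π.V = o then ρ j else ρ j * μ := by
  refine ⟨mkN_lt hp hB _, fun j hj => ?_⟩
  unfold Par.scl
  rw [dgt_mkN hp hB _ hj, ZMod.natCast_mod]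
  by_cases h1 : j / π.V = o
  · simp only [h1, if_true]
    exact h.2 j hj
  · simp only [h1, if_false]
    push_cast
    rw [h.2 j hj]

theorem Rep.upd {R : ℕ} {ρ : ℕ → ZMod π.p} (hp : 0 < π.p) (hB : π.p ^ π.NR ≤ π.B)
    (h : π.Rep R ρ) (o s : ℕ) (f : ℕ → ℕ) :
    π.Rep (π.upd R o s f) fun j => if j / π.V = o then ρ j + s * f (j % π.V) else ρ j := by
  refine ⟨mkN_lt hp hB _, fun j hj => ?_⟩
  unfold Par.upd
  rw [dgt_mkN hp hB _ hj, ZMod.natCast_mod]
  by_cases h1 : j / π.V = o
  · simp only [h1, if_true]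
    push_cast
    rw [h.2 j hj]
  · simp only [h1, if_false]
    exact h.2 j hj

/-- The hypotheses for the correctness of the program. -/
structure Good (π : Par) (val : ℕ → ℕ → ℕ → ℕ) (EE : ℕ → ℕ → (ℕ → ZMod π.p) → ZMod π.p) :
    Prop where
  hp : 2 ≤ π.p
  hB : π.p ^ π.NR ≤ π.B
  hleaf : ∀ P k, k < π.V → val 0 P k = π.leaf P k
  hinv : ∀ l, l + 1 < π.p → ((π.inv (l + 1) : ℕ) : ZMod π.p) * ((l + 1 : ℕ) : ZMod π.p) = 1
  hE : ∀ R ρ o k, o ≤ π.D → k < π.V → π.Rep R ρ → ((π.E R o k : ℕ) : ZMod π.p) = EE o k ρ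
  hloc : ∀ o k ρ ρ', o ≤ π.D → k < π.V → (∀ j < π.NR, j / π.V ≠ o → ρ j = ρ' j) →
    EE o k ρ = EE o k ρ'
  hsum : ∀ (h P o k : ℕ) (ρ : ℕ → ZMod π.p), o ≤ π.D → k < π.V →
    ∑ l ∈ range (π.p - 1), EE o k (fun j => ((l + 1 : ℕ) : ZMod π.p) * ρ j +
      (val h (π.child P (ci o (j / π.V))) (j % π.V) : ℕ)) = - (val (h + 1) P k : ℕ)

/-- The calls for the children. -/
theorem calls {val : ℕ → ℕ → ℕ → ℕ} {h P o s : ℕ} (ho : o ≤ π.D)
    (ih : ∀ P' o', o' ≤ π.D → ∀ R ρ, π.Rep R ρ → π.Rep (π.run h P' o' s R)
      fun j => if j / π.V = o' then ρ j + s * (val h P' (j % π.V) : ℕ) else ρ j)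
    (n : ℕ) (hn : n ≤ π.D) (R : ℕ) (ρ : ℕ → ZMod π.p) (hR : π.Rep R ρ) :
    π.Rep (iter (fun i => π.run h (π.child P i) (co o i) s) n R)
      fun j => if j / π.V = o then ρ j else if ci o (j / π.V) < n then
        ρ j + s * (val h (π.child P (ci o (j / π.V))) (j % π.V) : ℕ) else ρ j := by
  induction n with
  | zero =>
    refine hR.congr fun j _ => ?_
    simp
  | succ n ihn =>
    have h1 := ihn (by omega)
    have h2 := ih (π.child P n) (co o n) (by unfold co; split_ifs <;> omega) _ _ h1
    refine h2.congr fun j hj => ?_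
    by_cases h3 : j / π.V = co o n
    · have h4 : j / π.V ≠ o := by rw [h3]; unfold co; split_ifs <;> omega
      have h5 : ci o (j / π.V) = n := by
        rw [h3]; unfold co ci; split_ifs <;> omega
      simp only [h3, if_true]
      rw [← h3, if_neg h4, if_neg h4, h5, if_neg (lt_irrefl n), if_pos (Nat.lt_succ_self n)]
    · rw [if_neg h3]
      by_cases h4 : j / π.V = o
      · rw [if_pos h4, if_pos h4]
      · rw [if_neg h4, if_neg h4]
        have h5 : ci o (j / π.V) ≠ n := by
          intro h6
          apply h3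
          rw [← h6]
          unfold co ci
          split_ifs <;> omega
        by_cases h6 : ci o (j / π.V) < n
        · rw [if_pos h6, if_pos (by omega)]
        · rw [if_neg h6, if_neg (by omega)]

theorem block_le {j : ℕ} (hj : j < π.NR) : j / π.V ≤ π.D := by
  unfold NR at hj
  have hV : 0 < π.V := by
    rcases Nat.eq_zero_or_pos π.V with h | h
    · rw [h, Nat.mul_zero] at hj; omega
    · exact h
  have : j / π.V < π.D + 1 := (Nat.div_lt_iff_lt_mul hV).2 hj
  omega

theorem ci_lt {o j : ℕ} (ho : o ≤ π.D) (hj : j < π.NR) (h : j / π.V ≠ o) :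
    ci o (j / π.V) < π.D := by
  have := block_le hj
  unfold ci
  split_ifs <;> omega

theorem run_rep {val : ℕ → ℕ → ℕ → ℕ} {EE : ℕ → ℕ → (ℕ → ZMod π.p) → ZMod π.p}
    (G : Good π val EE) (h : ℕ) : ∀ P o s, o ≤ π.D → s ≤ π.p → ∀ R ρ, π.Rep R ρ →
    π.Rep (π.run h P o s R)
      fun j => if j / π.V = o then ρ j + s * (val h P (j % π.V) : ℕ) else ρ j := by
  have hp0 : 0 < π.p := by have := G.hp; omega
  have hK : 0 < π.K := by
    have := G.hp
    unfold K Sl
    exact Nat.mul_pos (by omega) (by omega)
  have hV : ∀ j < π.NR, j % π.V < π.V := by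
    intro j hj
    refine Nat.mod_lt _ ?_
    unfold NR at hj
    rcases Nat.eq_zero_or_pos π.V with h | h
    · rw [h, Nat.mul_zero] at hj; omega
    · exact h
  induction h with
  | zero =>
    intro P o s ho hs R ρ hR
    have e : π.run 0 P o s R = π.upd R o s (π.leaf P) := by
      unfold run
      rw [pow_zero]
      rfl
    rw [e]
    refine (hR.upd hp0 G.hB o s _).congr fun j hj => ?_
    split_ifs
    · rw [G.hleaf P _ (hV j hj)]
    · rfl
  | succ h ih =>
    intro P o s ho hs R ρ hR
    rw [π.run_succ hK]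
    -- one round
    have round : ∀ l, l + 1 < π.p → ∀ S σ, π.Rep S σ →
        π.Rep (iter (fun t => π.stage h P o s (l + 1) t) π.Sl S)
        fun j => if j / π.V = o then σ j - s * EE o (j % π.V) (fun j =>
          ((l + 1 : ℕ) : ZMod π.p) * σ j +
            (val h (π.child P (ci o (j / π.V))) (j % π.V) : ℕ)) else σ j := by
      intro l hl S σ hS
      have eS : π.Sl = 1 + (π.D + (1 + (π.D + 1))) := by unfold Sl; omega
      rw [eS, iter_add, iter_add, iter_add, iter_add]
      set x : ℕ → ZMod π.p := fun j => (val h (π.child P (ci o (j / π.V))) (j % π.V) : ℕ) with hx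
      -- scaling
      have s1 : iter (fun t => π.stage h P o s (l + 1) t) 1 S = π.scl S o (l + 1) := by
        simp [iter, stage]
      rw [s1]
      have r1 := hS.scl hp0 G.hB o (l + 1)
      set ρ1 : ℕ → ZMod π.p := fun j => if j / π.V = o then σ j else σ j * ((l + 1 : ℕ) : ZMod π.p)
        with hρ1
      -- first calls
      have s2 : ∀ S', iter (fun i => π.stage h P o s (l + 1) (1 + i)) π.D S' =
          iter (fun i => π.run h (π.child P i) (co o i) 1) π.D S' := by
        intro S'
        refine iter_congr fun i hi => ?_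
        unfold stage
        rw [if_neg (by omega), if_pos (by omega), Nat.add_sub_cancel_left]
      rw [s2]
      have r2 := calls (s := 1) (P := P) ho (fun P' o' ho' R' ρ' hR' => ih P' o' 1 ho' (by omega)
        R' ρ' hR') π.D le_rfl _ _ r1
      have r2' : π.Rep _ fun j => if j / π.V = o then σ j else
          ((l + 1 : ℕ) : ZMod π.p) * σ j + x j := r2.congr fun j hj => by
        by_cases h1 : j / π.V = o
        · rw [if_pos h1, if_pos h1, hρ1]
          simp only
          rw [if_pos h1]
        · rw [if_neg h1, if_neg h1, if_pos (ci_lt ho hj h1), hρ1]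
          simp only
          rw [if_neg h1]
          push_cast
          ring
      -- evaluation
      set S2 := iter (fun i => π.run h (π.child P i) (co o i) 1) π.D (π.scl S o (l + 1)) with hS2
      have s3 : iter (fun i => π.stage h P o s (l + 1) (1 + (π.D + i))) 1 S2 =
          π.upd S2 o (π.p - s) (π.E S2 o) := by
        simp only [iter]
        unfold stage
        rw [if_neg (by omega), if_neg (by omega), if_pos (by omega)]
      rw [s3]
      have r3 := r2'.upd hp0 G.hB o (π.p - s) (π.E S2 o)
      set y : ℕ → ZMod π.p := fun k => EE o k (fun j => ((l + 1 : ℕ) : ZMod π.p) * σ j + x j)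
        with hy
      have hcast : ((π.p - s : ℕ) : ZMod π.p) = - (s : ZMod π.p) := by
        rw [Nat.cast_sub hs, ZMod.natCast_self, zero_sub]
      have r3' : π.Rep _ fun j => if j / π.V = o then σ j - s * y (j % π.V) else
          ((l + 1 : ℕ) : ZMod π.p) * σ j + x j := r3.congr fun j hj => by
        by_cases h1 : j / π.V = o
        · rw [if_pos h1, if_pos h1, if_pos h1, hcast, G.hE S2 _ o (j % π.V) ho (hV j hj) r2',
            G.hloc o (j % π.V) _ (fun j => ((l + 1 : ℕ) : ZMod π.p) * σ j + x j) ho (hV j hj)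
            (fun i _ hi => by rw [if_neg hi])]
          ring
        · rw [if_neg h1, if_neg h1, if_neg h1]
      -- second calls
      set S3 := π.upd S2 o (π.p - s) (π.E S2 o) with hS3
      have s4 : ∀ S', iter (fun i => π.stage h P o s (l + 1) (1 + (π.D + (1 + i)))) π.D S' =
          iter (fun i => π.run h (π.child P i) (co o i) (π.p - 1)) π.D S' := by
        intro S'
        refine iter_congr fun i hi => ?_
        unfold stage
        rw [if_neg (by omega), if_neg (by omega), if_neg (by omega), if_pos (by omega)]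
        have e : 1 + (π.D + (1 + i)) - (π.D + 2) = i := by omega
        rw [e]
      rw [s4]
      have r4 := calls (s := π.p - 1) (P := P) ho (fun P' o' ho' R' ρ' hR' =>
        ih P' o' (π.p - 1) ho' (by omega) R' ρ' hR') π.D le_rfl _ _ r3'
      have hcast1 : ((π.p - 1 : ℕ) : ZMod π.p) = - 1 := by
        rw [Nat.cast_sub (by omega), ZMod.natCast_self, Nat.cast_one, zero_sub]
      have r4' : π.Rep _ fun j => if j / π.V = o then σ j - s * y (j % π.V) else
          ((l + 1 : ℕ) : ZMod π.p) * σ j := r4.congr fun j hj => by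
        by_cases h1 : j / π.V = o
        · rw [if_pos h1, if_pos h1, if_pos h1]
        · rw [if_neg h1, if_neg h1, if_pos (ci_lt ho hj h1), if_neg h1, hcast1]
          ring
      -- scaling back
      set S4 := iter (fun i => π.run h (π.child P i) (co o i) (π.p - 1)) π.D S3 with hS4
      have s5 : iter (fun i => π.stage h P o s (l + 1) (1 + (π.D + (1 + (π.D + i))))) 1 S4 =
          π.scl S4 o (π.inv (l + 1)) := by
        simp only [iter]
        unfold stage
        rw [if_neg (by omega), if_neg (by omega), if_neg (by omega), if_neg (by omega)]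
      rw [s5]
      have r5 := r4'.scl hp0 G.hB o (π.inv (l + 1))
      refine r5.congr fun j hj => ?_
      by_cases h1 : j / π.V = o
      · rw [if_pos h1, if_pos h1, if_pos h1]
      · rw [if_neg h1, if_neg h1, if_neg h1]
        have := G.hinv l hl
        calc ((l + 1 : ℕ) : ZMod π.p) * σ j * (π.inv (l + 1) : ℕ)
            = ((π.inv (l + 1) : ℕ) : ZMod π.p) * ((l + 1 : ℕ) : ZMod π.p) * σ j := by ring
          _ = σ j := by rw [this, one_mul]
    have rounds : ∀ n ≤ π.p - 1, π.Rep
        (iter (fun l => iter (fun t => π.stage h P o s (l + 1) t) π.Sl) n R)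
        fun j => if j / π.V = o then ρ j - s * ∑ l ∈ range n, EE o (j % π.V) (fun j =>
          ((l + 1 : ℕ) : ZMod π.p) * ρ j +
            (val h (π.child P (ci o (j / π.V))) (j % π.V) : ℕ)) else ρ j := by
      intro n
      induction n with
      | zero =>
        intro _
        refine hR.congr fun j _ => ?_
        simp
      | succ n ihn =>
        intro hn
        have h1 := ihn (by omega)
        have h2 := round n (by omega) _ _ h1
        refine h2.congr fun j hj => ?_
        by_cases h3 : j / π.V = o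
        · rw [if_pos h3, if_pos h3, if_pos h3, sum_range_succ]
          rw [G.hloc o (j % π.V) _ (fun j => ((n + 1 : ℕ) : ZMod π.p) * ρ j +
            (val h (π.child P (ci o (j / π.V))) (j % π.V) : ℕ)) ho (hV j hj)
            (fun i _ hi => by rw [if_neg hi])]
          ring
        · rw [if_neg h3, if_neg h3, if_neg h3]
    refine (rounds (π.p - 1) le_rfl).congr fun j hj => ?_
    by_cases h3 : j / π.V = o
    · rw [if_pos h3, if_pos h3, G.hsum h P o (j % π.V) ρ ho (hV j hj)]
      ring
    · rw [if_neg h3, if_neg h3]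

end Par

end Pool.Agent.V7H59.CT
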