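import Pool.Agent.V7H59.CT.Diag

/-!
# Small time on cellular automata is contained in linear space
-/

set_option autoImplicit false

namespace Pool.Agent.V7H59.CT

open Finset

theorem num_inj : Function.Injective num := by
  intro x y h
  have h1 := congrArg Nat.bits h
  rw [num_bits, num_bits] at h1
  exact List.append_cancel_right h1

open Classical in
/-- A table of the short elements of a language. -/
noncomputable def tabA (A : Set (List Bool)) (N : ℕ) : ℕ :=
  ∑ j ∈ range (2 ^ (N + 1)), (if ∃ x ∈ A, num x = j then 1 else 0) % 2 * 2 ^ j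

theorem tabA_iff (A : Set (List Bool)) {N : ℕ} {x : List Bool} (hx : x.length < N) :
    dgt 2 (tabA A N) (num x) ≠ 0 ↔ x ∈ A := by
  classical
  have h1 : num x < 2 ^ (N + 1) := by
    have h2 := num_size x
    refine (Nat.lt_size_self (num x)).trans_le (Nat.pow_le_pow_right (by norm_num) ?_)
    omega
  rw [dgt_eq]
  unfold tabA
  rw [digit_sum (by norm_num) _ (fun j => if ∃ x ∈ A, num x = j then 1 else 0) h1]
  have h3 : (∃ y ∈ A, num y = num x) ↔ x ∈ A := by
    constructor
    · rintro ⟨y, hy, h⟩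
      rwa [← num_inj h]
    · exact fun h => ⟨x, h, rfl⟩
  by_cases h : x ∈ A
  · simp [h3.2 h, h]
  · have h4 : ¬ ∃ y ∈ A, num y = num x := fun h5 => h (h3.1 h5)
    simp only [if_neg h4]
    simp [h]

/-- The time for the simulation. -/
def tmx (d c X : ℕ) : ℕ :=
  lfind (fun i => if c * (sz X - 1) ^ (d + 1) < ((i + 1) * (sz (sz X - 1) - 1)) ^ d then 1 else 0)
    (c * (sz X - 1) ^ (d + 1) + 1) + 1

theorem L.tmx (d c : ℕ) {A : (ℕ → ℕ) → ℕ} (hA : L A) : L (fun e => CT.tmx d c (A e)) :=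
  have hn : L (fun e => CT.sz (A e) - 1) := hA.sz.sub (L.const 1)
  (L.find (P := fun e i => if c * (CT.sz (A e) - 1) ^ (d + 1) <
    ((i + 1) * (CT.sz (CT.sz (A e) - 1) - 1)) ^ d then 1 else 0)
    ((L.const c).mul (hn.powc (d + 1))).succ
    (L.ite_lt ((L.const c).mul (hn.tl.powc (d + 1)))
      (((L.var 0).succ.mul (hn.tl.sz.sub (L.const 1))).powc d) (L.const 1) L.zero)).succ

theorem size_eq_log {n : ℕ} (hn : 1 ≤ n) : n.size = Nat.log 2 n + 1 := by
  refine le_antisymm (Nat.size_le.2 (Nat.lt_pow_succ_log_self (by norm_num) n)) ?_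
  exact Nat.lt_size.2 (Nat.pow_log_le_self 2 (by omega))

theorem tmx_spec {d c n : ℕ} (hd : 1 ≤ d) (hn : 2 ≤ n) {X : ℕ} (hX : sz X - 1 = n) :
    c * n ^ (d + 1) < (tmx d c X * Nat.log 2 n) ^ d ∧
    (tmx d c X * Nat.log 2 n) ^ d ≤ (2 ^ d * c + 1) * n ^ (d + 1) := by
  have hlog : 1 ≤ Nat.log 2 n := Nat.log_pos (by norm_num) hn
  have hlogn : Nat.log 2 n ≤ n := Nat.log_le_self 2 n
  have hs : sz n - 1 = Nat.log 2 n := by
    rw [sz_eq, size_eq_log (by omega)]
    omega
  unfold tmx
  rw [hX, hs]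
  set l := Nat.log 2 n with hl
  set P : ℕ → ℕ := fun i => if c * n ^ (d + 1) < ((i + 1) * l) ^ d then 1 else 0 with hP
  have h0 : ∀ i, P i ≠ 0 ↔ c * n ^ (d + 1) < ((i + 1) * l) ^ d := by
    intro i
    simp only [hP]
    constructor
    · intro h
      by_contra h1
      exact h (if_neg h1)
    · intro h
      rw [if_pos h]
      exact one_ne_zero
  obtain ⟨h1, h2⟩ := lfind_spec P (c * n ^ (d + 1) + 1)
  have h3 : lfind P (c * n ^ (d + 1) + 1) < c * n ^ (d + 1) + 1 := by
    by_contra h4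
    have h5 := h1 (c * n ^ (d + 1)) (by omega)
    apply (h0 _).2 _ h5
    calc c * n ^ (d + 1) < c * n ^ (d + 1) + 1 := Nat.lt_succ_self _
      _ ≤ (c * n ^ (d + 1) + 1) * l := Nat.le_mul_of_pos_right _ hlog
      _ ≤ ((c * n ^ (d + 1) + 1) * l) ^ d := Nat.le_self_pow (by omega) _
  have h4 := (h0 _).1 (h2 h3)
  refine ⟨h4, ?_⟩
  set T := lfind P (c * n ^ (d + 1) + 1) with hT
  rcases Nat.eq_zero_or_pos T with h5 | h5
  · rw [h5, zero_add, one_mul]
    calc l ^ d ≤ n ^ d := Nat.pow_le_pow_left hlogn d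
      _ ≤ n ^ (d + 1) := Nat.pow_le_pow_right (by omega) (by omega)
      _ ≤ (2 ^ d * c + 1) * n ^ (d + 1) := Nat.le_mul_of_pos_left _ (by omega)
  · have h6 := h1 (T - 1) (by omega)
    have h7 : (T * l) ^ d ≤ c * n ^ (d + 1) := by
      by_contra h8
      apply (h0 _).2 _ h6
      rw [Nat.sub_add_cancel h5]
      omega
    calc ((T + 1) * l) ^ d ≤ (2 * (T * l)) ^ d := by
          refine Nat.pow_le_pow_left ?_ d
          nlinarith
      _ = 2 ^ d * (T * l) ^ d := mul_pow _ _ _
      _ ≤ 2 ^ d * (c * n ^ (d + 1)) := Nat.mul_le_mul_left _ h7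
      _ = 2 ^ d * c * n ^ (d + 1) := by ring
      _ ≤ (2 ^ d * c + 1) * n ^ (d + 1) := Nat.mul_le_mul_right _ (by omega)

/-- **Containment.** -/
theorem containment (d : ℕ) [NeZero d] (M : CellAut d) (c n₀ : ℕ) (A : Set (List Bool))
    (h : ∀ x : List Bool, n₀ ≤ x.length → ∀ t : ℕ,
      c * x.length ^ (d + 1) ≤ (t * Nat.log 2 x.length) ^ d → (x ∈ A ↔ M.accepts x t)) :
    InLinSpace A := by
  have hd : 1 ≤ d := Nat.pos_of_ne_zero (NeZero.ne d)
  obtain ⟨q, hq⟩ : ∃ q, Fintype.card M.Q ≤ q + 2 := ⟨Fintype.card M.Q, by omega⟩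
  set κ := coding M hq with hκ
  set c' := 2 ^ d * (2 ^ d * c + 1) * (q + 2).size with hc'
  set N := max n₀ (q + 2) with hN
  have hN1 : n₀ ≤ N := le_max_left _ _
  have hN2 : q + 2 ≤ N := le_max_right _ _
  set F : ℕ → ℕ := fun X => if sz X - 1 < N then dgt 2 (tabA A N) X else
    (if FX d (Cst d c') (Nat.pair X (mkC κ.tab q (κ.enc (M.input false)) (κ.enc (M.input true))
      (κ.enc M.blank) κ.am (tmx d c X))) = 0 then 1 else 0) with hF
  have hL : L (fun e => F (e 0)) := by
    refine L.ite_lt ((L.var 0).sz.sub (L.const 1)) (L.const N)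
      (L.dgt (L.const 2) (L.const _) (L.var 0)) (L.ite0 (L.FX d (Cst d c') ?_) (L.const 1) L.zero)
    exact (L.var 0).pair ((L.const _).pair ((L.const _).pair ((L.const _).pair ((L.const _).pair
      ((L.const _).pair ((L.const _).pair (L.tmx d c (L.var 0))))))))
  refine inLinSpace_of_L hL A fun x => ?_
  rw [Function.update_self]
  have hsz : sz (num x) - 1 = x.length := by rw [sz_eq, num_size, Nat.add_sub_cancel]
  simp only [hF, hsz]
  by_cases h1 : x.length < N
  · rw [if_pos h1, tabA_iff A h1]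
  · rw [if_neg h1]
    have hn2 : 2 ≤ x.length := by omega
    obtain ⟨h2, h3⟩ := tmx_spec (c := c) hd hn2 hsz
    have h4 : (tmx d c (num x) * x.length.size) ^ d * (q + 2).size ≤
        c' * x.length ^ (d + 1) := by
      calc (tmx d c (num x) * x.length.size) ^ d * (q + 2).size
          ≤ (tmx d c (num x) * (2 * Nat.log 2 x.length)) ^ d * (q + 2).size :=
            Nat.mul_le_mul_right _ (Nat.pow_le_pow_left
              (Nat.mul_le_mul_left _ (size_le_two_log hn2)) d)
        _ = 2 ^ d * (tmx d c (num x) * Nat.log 2 x.length) ^ d * (q + 2).size := by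
            rw [show tmx d c (num x) * (2 * Nat.log 2 x.length) =
              2 * (tmx d c (num x) * Nat.log 2 x.length) by ring, mul_pow]
        _ ≤ 2 ^ d * ((2 ^ d * c + 1) * x.length ^ (d + 1)) * (q + 2).size :=
            Nat.mul_le_mul_right _ (Nat.mul_le_mul_left _ h3)
        _ = c' * x.length ^ (d + 1) := by rw [hc']; ring
    have h5 := FX_iff (M := M) κ rfl (by omega) (by omega) h4
    rw [h x (by omega) _ h2.le]
    constructor
    · intro h6
      rw [if_pos]
      · exact one_ne_zero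
      · by_contra h7
        exact h5.1 h7 h6
    · intro h6
      by_contra h7
      exact h6 (if_neg (h5.2 h7))

end Pool.Agent.V7H59.CT
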