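import Pool.Agent.V7H59.CT.Num

/-!
# The correctness of the algorithm
-/

set_option autoImplicit false

namespace Pool.Agent.V7H59.CT

open Finset

theorem two_pow_nX {X : ℕ} (hX : 0 < X.unpair.1) : 2 ^ nX X ≤ X := by
  unfold nX
  rw [sz_eq]
  have h1 : 1 ≤ X.unpair.1.size := by
    rw [Nat.one_le_iff_ne_zero, Ne, Nat.size_eq_zero]
    omega
  exact (Nat.lt_size.1 (by omega)).trans (Nat.unpair_left_le X)

theorem le_BX {C X k : ℕ} (hX : 0 < X.unpair.1) (h : k ≤ C * nX X) : 2 ^ k ≤ BX C X := by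
  have h1 := two_pow_nX hX
  unfold BX
  calc 2 ^ k ≤ 2 ^ (C * nX X) := Nat.pow_le_pow_right (by norm_num) h
    _ = (2 ^ nX X) ^ C := by rw [mul_comm, pow_mul]
    _ ≤ (X + 2) ^ C := Nat.pow_le_pow_left (by omega) _

theorem pow_succ_le (a k : ℕ) : (2 ^ a + 1) ^ k ≤ 2 ^ ((a + 1) * k) := by
  have h5 : 2 ^ a + 1 ≤ 2 ^ (a + 1) := by
    rw [pow_succ]
    have : 1 ≤ 2 ^ a := Nat.one_le_pow _ _ (by norm_num)
    omega
  rw [pow_mul]
  exact Nat.pow_le_pow_left h5 _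

theorem cst_le {d c n : ℕ} (hn : 1 ≤ n) : (C1 d c * n + 1) * 16 ≤ Cst d c * n := by
  unfold Cst
  calc (C1 d c * n + 1) * 16 ≤ (C1 d c * n + n) * 16 := by omega
    _ = 16 * (C1 d c + 1) * n := by ring
    _ ≤ (16 * (C1 d c + 1) + (2 * d + 3) * (3 ^ d + 1) * 3) * n :=
        Nat.mul_le_mul_right _ (Nat.le_add_right _ _)

theorem ans_eq {d c X : ℕ} (hd : 1 ≤ d) (hX : 0 < X.unpair.1) (hn : 1 ≤ nX X)
    (hq : qX X ≤ nX X) (ht : (tX X * (nX X).size) ^ d * (qX X).size ≤ c * nX X ^ (d + 1))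
    (h0 : ∀ Q, A0X d X Q < qX X) :
    dgt (pX d X) (runB (PX d (Cst d c) X) (tX X / bX d X)) 0 % qX X =
      lin d (qX X) (tabX X) (WX X) (A0X d X) (tX X) 0 := by
  obtain ⟨hm1, hm2, hm3⟩ := mX_spec hq
  obtain ⟨hb1, hb2, hb3⟩ := bX_spec hd ((size_le_self _).trans hq)
  have hq2 : 2 ≤ qX X := by unfold qX; omega
  have hV : VX d X = bX d X ^ d / mX X + 1 := rfl
  have hpw : powT (qX X) (mX X) (nX X) = qX X ^ mX X := powT_eq hm2
  obtain ⟨hp, hp1, hp2⟩ := nextP_spec (a := 3 ^ d * VX d X * powT (qX X) (mX X) (nX X) + 1)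
    (by omega)
  have ep : nextP (3 ^ d * VX d X * powT (qX X) (mX X) (nX X) + 1) = pX d X := rfl
  rw [ep] at hp hp1 hp2
  rw [hpw] at hp1 hp2
  have hpl := p_le hq2 hn hm2 hb2 hV hp2
  have hKh := Kh_le hd hq2 hn hm2 hb1 hb2 hb3 hV hp2 ht
  have hW := W_le hd hq2 hn ht
  have hNR := pNR_le hq2 hn hm1 hm2 hm3 hb2 hV hp2
  have hqN := qN_le (q := qX X) (d := d) (b := bX d X) (n := nX X) hb2
  have hV0 : bX d X ^ d / mX X < VX d X := by rw [hV]; exact Nat.lt_succ_self _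
  have h3 : 1 ≤ 3 ^ d := Nat.one_le_pow _ _ (by norm_num)
  have hqm : qX X ^ mX X ≤ 3 ^ d * VX d X * qX X ^ mX X :=
    Nat.le_mul_of_pos_left _ (Nat.mul_pos h3 (lt_of_le_of_lt (Nat.zero_le _) hV0))
  have hB1 : pX d X ^ ((3 ^ d + 1) * VX d X) ≤ BX (Cst d c) X := by
    refine hNR.trans (le_BX hX (Nat.mul_le_mul_right _ ?_))
    unfold Cst
    omega
  have hB2 : qX X ^ (3 ^ d * bX d X ^ d) ≤ BX (Cst d c) X := by
    refine hqN.trans (le_BX hX (Nat.mul_le_mul_right _ ?_))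
    unfold Cst
    nlinarith
  have hrb : tX X % bX d X ≤ bX d X := (Nat.mod_lt _ hb1).le
  have h1 := run_CA (B := BX (Cst d c) X) (tab := tabX X) (W := WX X) (A0 := A0X d X) hp hb1
    (by omega) hm1 hV0 hrb (by omega) (by omega) h0 hB1 hB2 (tX X / bX d X)
  have e : tX X % bX d X + tX X / bX d X * bX d X = tX X := by
    rw [add_comm]
    exact Nat.div_add_mod' _ _
  rw [e] at h1
  rw [← h1]
  have key : runB (PX d (Cst d c) X) (tX X / bX d X) =
      (PX d (Cst d c) X).run (tX X / bX d X) 0 0 1 0 := by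
    have hC1 : 2 * d + 3 ≤ C1 d c := by unfold C1; omega
    have hln := size_le_self (nX X)
    have hs1 : 2 * d + 3 ≤ C1 d c * nX X := by nlinarith
    have hp2 : pX d X ≤ 2 ^ (C1 d c * nX X) :=
      hpl.trans (Nat.pow_le_pow_right (by norm_num) (Nat.mul_le_mul hC1 hln))
    have h32 : 3 ≤ 2 ^ (C1 d c * nX X) := by
      calc 3 ≤ 2 ^ 2 := by norm_num
        _ ≤ 2 ^ (C1 d c * nX X) := Nat.pow_le_pow_right (by norm_num) (by omega)
    have hD : 3 ^ d ≤ 2 ^ (C1 d c * nX X) :=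
      (three_pow_le d).trans (Nat.pow_le_pow_right (by norm_num) (by omega))
    have hδ : tX X / bX d X * (bX d X * WX X ^ d) ≤ 2 ^ (C1 d c * nX X) := by
      refine le_trans ?_ hW
      calc tX X / bX d X * (bX d X * WX X ^ d) = tX X / bX d X * bX d X * WX X ^ d := by ring
        _ ≤ WX X * WX X ^ d := by
            refine Nat.mul_le_mul_right _ ((Nat.div_mul_le_self _ _).trans ?_)
            unfold WX
            omega
        _ = (2 * tX X + 3) ^ (d + 1) := by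
            rw [pow_succ, mul_comm]
            rfl
    have h16 : (2 ^ (C1 d c * nX X) + 1) ^ 16 ≤ BX (Cst d c) X := by
      exact (pow_succ_le (C1 d c * nX X) 16).trans (le_BX hX (cst_le hn))
    generalize 2 ^ (C1 d c * nX X) = M at hp2 h32 hD hδ h16 hKh
    refine runB_eq (M := M) (δ := bX d X * WX X ^ d) ?_ ?_ hp.two_le hp2 h32 hD hδ hKh h16 hB1
    · intro P i
      change P + bX d X * rb d 3 (WX X) i ≤ P + bX d X * WX X ^ d
      refine Nat.add_le_add_left (Nat.mul_le_mul_left _ ?_) _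
      exact (rb_lt (by norm_num) (by unfold WX; omega) i).le
    · intro l
      exact lfind_le _ _
  rw [key]
  rfl

end Pool.Agent.V7H59.CT
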