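import Pool.Agent.V7H59.CT.Arith

/-!
# Digits
-/

set_option autoImplicit false

namespace Pool.Agent.V7H59.CT

open Finset

/-- The `i`-th digit of `R` in base `b`. -/
def dgt (b R i : ℕ) : ℕ := R / powT b i (R + 1) % b

theorem dgt_eq (b R i : ℕ) : dgt b R i = R / b ^ i % b := by
  unfold dgt powT
  rcases le_total (b ^ i) (R + 1) with h | h
  · rw [min_eq_left h]
  · rw [min_eq_right h, Nat.div_eq_of_lt (by omega : R < R + 1)]
    rcases Nat.lt_or_ge R (b ^ i) with h1 | h1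
    · rw [Nat.div_eq_of_lt h1]
    · omega

theorem dgt_lt {b : ℕ} (hb : 0 < b) (R i : ℕ) : dgt b R i < b := Nat.mod_lt _ hb

/-- The number with given digits. -/
def mkN (B b N : ℕ) (f : ℕ → ℕ) : ℕ := ∑ j ∈ range N, f j % b * powT b j B

theorem mkN_eq {B b N : ℕ} (hb : 0 < b) (hB : b ^ N ≤ B) (f : ℕ → ℕ) :
    mkN B b N f = ∑ j ∈ range N, f j % b * b ^ j := by
  refine sum_congr rfl fun j hj => ?_
  rw [powT_eq ((Nat.pow_le_pow_right hb (mem_range.1 hj).le).trans hB)]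

theorem sum_digits_lt {b : ℕ} (hb : 0 < b) (N : ℕ) (f : ℕ → ℕ) :
    ∑ j ∈ range N, f j % b * b ^ j < b ^ N := by
  induction N with
  | zero => simp
  | succ N ih =>
    rw [sum_range_succ]
    have h1 : f N % b + 1 ≤ b := Nat.mod_lt _ hb
    calc ∑ j ∈ range N, f j % b * b ^ j + f N % b * b ^ N < b ^ N + f N % b * b ^ N := by omega
      _ = (f N % b + 1) * b ^ N := by ring
      _ ≤ b * b ^ N := Nat.mul_le_mul_right _ h1
      _ = b ^ (N + 1) := by ring

theorem digit_sum {b : ℕ} (hb : 0 < b) (N : ℕ) (f : ℕ → ℕ) {i : ℕ} (hi : i < N) :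
    (∑ j ∈ range N, f j % b * b ^ j) / b ^ i % b = f i % b := by
  induction N with
  | zero => omega
  | succ N ih =>
    rw [sum_range_succ]
    have hpos : 0 < b ^ i := Nat.pow_pos hb
    rcases Nat.lt_succ_iff_lt_or_eq.1 hi with h | rfl
    · have e : f N % b * b ^ N = f N % b * b ^ (N - i - 1) * b * b ^ i := by
        rw [mul_assoc, mul_assoc, ← pow_succ', ← pow_add]
        congr 2
        omega
      rw [e, Nat.add_mul_div_right _ _ hpos, Nat.add_mul_mod_self_right, ih h]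
    · rw [Nat.add_mul_div_right _ _ hpos, Nat.div_eq_of_lt (sum_digits_lt hb i f), zero_add,
        Nat.mod_mod]

theorem mkN_lt {B b N : ℕ} (hb : 0 < b) (hB : b ^ N ≤ B) (f : ℕ → ℕ) : mkN B b N f < b ^ N := by
  rw [mkN_eq hb hB]
  exact sum_digits_lt hb N f

theorem dgt_mkN {B b N : ℕ} (hb : 0 < b) (hB : b ^ N ≤ B) (f : ℕ → ℕ) {i : ℕ} (hi : i < N) :
    dgt b (mkN B b N f) i = f i % b := by
  rw [dgt_eq, mkN_eq hb hB, digit_sum hb N f hi]

theorem dgt_of_lt {b N R i : ℕ} (h : R < b ^ N) (hi : N ≤ i) : dgt b R i = 0 := by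
  rw [dgt_eq]
  rcases Nat.eq_zero_or_pos b with rfl | hb
  · rcases Nat.eq_zero_or_pos N with rfl | hN
    · have : R = 0 := by simpa using h
      subst this; simp
    · rw [Nat.zero_pow hN] at h; omega
  · rw [Nat.div_eq_of_lt (h.trans_le (Nat.pow_le_pow_right hb hi)), Nat.zero_mod]

theorem sum_dgt {b : ℕ} (hb : 0 < b) (N : ℕ) {R : ℕ} (h : R < b ^ N) :
    ∑ j ∈ range N, R / b ^ j % b * b ^ j = R := by
  induction N generalizing R with
  | zero => simp at h; simp [h]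
  | succ N ih =>
    have h1 : R % b ^ N < b ^ N := Nat.mod_lt _ (Nat.pow_pos hb)
    have h2 := ih h1
    rw [sum_range_succ]
    have h3 : R / b ^ N < b := by
      rw [Nat.div_lt_iff_lt_mul (Nat.pow_pos hb)]
      calc R < b ^ (N + 1) := h
        _ = b * b ^ N := by ring
    rw [Nat.mod_eq_of_lt h3]
    have h4 : ∑ j ∈ range N, R / b ^ j % b * b ^ j =
        ∑ j ∈ range N, R % b ^ N / b ^ j % b * b ^ j := by
      refine sum_congr rfl fun j hj => ?_
      have hj' := mem_range.1 hj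
      congr 1
      have e : b ^ N = b ^ j * b ^ (N - j) := by rw [← pow_add]; congr 1; omega
      rw [e, Nat.mod_mul_right_div_self, Nat.mod_mod_of_dvd]
      exact dvd_pow_self _ (by omega)
    rw [h4, h2]
    have := Nat.div_add_mod R (b ^ N)
    nlinarith

/-- Two numbers with the same digits are equal. -/
theorem eq_of_dgt {b : ℕ} (hb : 0 < b) {N R S : ℕ} (hR : R < b ^ N) (hS : S < b ^ N)
    (h : ∀ j < N, R / b ^ j % b = S / b ^ j % b) : R = S := by
  rw [← sum_dgt hb N hR, ← sum_dgt hb N hS]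
  exact sum_congr rfl fun j hj => by rw [h j (mem_range.1 hj)]

/-- Change of the base, for numbers with `d` digits. -/
def rb (d β γ k : ℕ) : ℕ := ∑ t ∈ range d, k / β ^ t % β * γ ^ t

theorem rb_digit {d β γ : ℕ} (hβ : 0 < β) (h : β ≤ γ) (k : ℕ) {t : ℕ} (ht : t < d) :
    rb d β γ k / γ ^ t % γ = k / β ^ t % β := by
  have e : rb d β γ k = ∑ t ∈ range d, (k / β ^ t % β) % γ * γ ^ t :=
    sum_congr rfl fun t _ => by rw [Nat.mod_eq_of_lt ((Nat.mod_lt _ hβ).trans_le h)]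
  rw [e, digit_sum (by omega) d (fun t => k / β ^ t % β) ht,
    Nat.mod_eq_of_lt ((Nat.mod_lt _ hβ).trans_le h)]

theorem rb_lt {d β γ : ℕ} (hβ : 0 < β) (h : β ≤ γ) (k : ℕ) : rb d β γ k < γ ^ d := by
  have e : rb d β γ k = ∑ t ∈ range d, (k / β ^ t % β) % γ * γ ^ t :=
    sum_congr rfl fun t _ => by rw [Nat.mod_eq_of_lt ((Nat.mod_lt _ hβ).trans_le h)]
  rw [e]
  exact sum_digits_lt (by omega) d _

theorem rb_rb {d β γ : ℕ} (hβ : 0 < β) (h : β ≤ γ) (W k : ℕ) :
    rb d γ W (rb d β γ k) = rb d β W k :=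
  sum_congr rfl fun t ht => by rw [rb_digit hβ h k (mem_range.1 ht)]

/-- The digits of a sum without carries. -/
theorem digit_add {d γ β : ℕ} (hβ : 0 < β) (h : β ≤ γ) {j : ℕ} (hj : j < γ ^ d) (i : ℕ)
    (hc : ∀ t < d, j / γ ^ t % γ + i / β ^ t % β < γ) :
    j + rb d β γ i < γ ^ d ∧
    ∀ t < d, (j + rb d β γ i) / γ ^ t % γ = j / γ ^ t % γ + i / β ^ t % β := by
  have hγ : 0 < γ := by omega
  have e : j + rb d β γ i = ∑ t ∈ range d, (j / γ ^ t % γ + i / β ^ t % β) % γ * γ ^ t := by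
    calc j + rb d β γ i = ∑ t ∈ range d, j / γ ^ t % γ * γ ^ t + rb d β γ i := by
          rw [sum_dgt hγ d hj]
      _ = ∑ t ∈ range d, (j / γ ^ t % γ + i / β ^ t % β) * γ ^ t := by
          rw [rb, ← sum_add_distrib]
          exact sum_congr rfl fun t _ => by ring
      _ = _ := sum_congr rfl fun t ht => by rw [Nat.mod_eq_of_lt (hc t (mem_range.1 ht))]
  refine ⟨?_, fun t ht => ?_⟩
  · rw [e]
    exact sum_digits_lt hγ d _
  · rw [e, digit_sum hγ d (fun t => j / γ ^ t % γ + i / β ^ t % β) ht,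
      Nat.mod_eq_of_lt (hc t ht)]

theorem rb_add {d γ β : ℕ} (hβ : 0 < β) (h : β ≤ γ) {j : ℕ} (hj : j < γ ^ d) (i : ℕ) (W : ℕ)
    (hc : ∀ t < d, j / γ ^ t % γ + i / β ^ t % β < γ) :
    rb d γ W (j + rb d β γ i) = rb d γ W j + rb d β W i := by
  have h1 := (digit_add hβ h hj i hc).2
  unfold rb at h1 ⊢
  rw [← sum_add_distrib]
  refine sum_congr rfl fun t ht => ?_
  rw [h1 t (mem_range.1 ht)]
  ring

/-- The number of the child block which contains a cell of the region. -/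
def chd (d b j : ℕ) : ℕ := ∑ t ∈ range d, (j / (3 * b) ^ t % (3 * b)) / b * 3 ^ t

/-- The number of the cell in this block. -/
def cel (d b j : ℕ) : ℕ := ∑ t ∈ range d, (j / (3 * b) ^ t % (3 * b)) % b * b ^ t

theorem chd_eq {b : ℕ} (hb : 0 < b) (d j : ℕ) :
    chd d b j = ∑ t ∈ range d, ((j / (3 * b) ^ t % (3 * b)) / b) % 3 * 3 ^ t := by
  refine sum_congr rfl fun t _ => ?_
  rw [Nat.mod_eq_of_lt (a := (j / (3 * b) ^ t % (3 * b)) / b)]
  rw [Nat.div_lt_iff_lt_mul hb]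
  exact Nat.mod_lt _ (by omega)

theorem chd_lt {b : ℕ} (hb : 0 < b) (d j : ℕ) : chd d b j < 3 ^ d := by
  rw [chd_eq hb]
  exact sum_digits_lt (by omega) d _

theorem cel_lt {b : ℕ} (hb : 0 < b) (d j : ℕ) : cel d b j < b ^ d :=
  sum_digits_lt hb d _

theorem block_cell {b : ℕ} (hb : 0 < b) (d W j : ℕ) :
    b * rb d 3 W (chd d b j) + rb d b W (cel d b j) = rb d (3 * b) W j := by
  unfold rb
  rw [mul_sum, ← sum_add_distrib]
  refine sum_congr rfl fun t ht => ?_
  have ht' := mem_range.1 ht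
  have h1 : chd d b j / 3 ^ t % 3 = (j / (3 * b) ^ t % (3 * b)) / b := by
    rw [chd_eq hb, digit_sum (by omega) d (fun t => (j / (3 * b) ^ t % (3 * b)) / b) ht']
    refine Nat.mod_eq_of_lt ?_
    rw [Nat.div_lt_iff_lt_mul hb]
    exact Nat.mod_lt _ (by omega)
  have h2 : cel d b j / b ^ t % b = (j / (3 * b) ^ t % (3 * b)) % b := by
    unfold cel
    rw [digit_sum hb d (fun t => (j / (3 * b) ^ t % (3 * b))) ht']
  rw [h1, h2]
  have h3 := Nat.div_add_mod (j / (3 * b) ^ t % (3 * b)) b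
  calc b * ((j / (3 * b) ^ t % (3 * b)) / b * W ^ t) + (j / (3 * b) ^ t % (3 * b)) % b * W ^ t
      = (b * ((j / (3 * b) ^ t % (3 * b)) / b) + (j / (3 * b) ^ t % (3 * b)) % b) * W ^ t := by
        ring
    _ = (j / (3 * b) ^ t % (3 * b)) * W ^ t := by rw [h3]

end Pool.Agent.V7H59.CT
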