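import Pool.Agent.V7H59.CT.CM

/-!
# The evaluation of a node, and the blocks of a cellular automaton
-/

set_option autoImplicit false

namespace Pool.Agent.V7H59.CT

open Finset Polynomial

/-- Products modulo `p`. -/
def mprod (p N : ℕ) (f : ℕ → ℕ) : ℕ := brec p 1 (fun i y => y * f i % p) N

theorem mprod_cast {p : ℕ} (hp : 0 < p) (N : ℕ) (f : ℕ → ℕ) :
    ((mprod p N f : ℕ) : ZMod p) = ∏ i ∈ range N, (f i : ZMod p) := by
  unfold mprod
  induction N with
  | zero =>
    simp only [brec, range_zero, prod_empty]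
    rw [min_eq_left (by omega)]
    simp
  | succ N ih =>
    rw [brec, min_eq_left (Nat.mod_lt _ hp).le, ZMod.natCast_mod, Nat.cast_mul, ih,
      prod_range_succ]

/-- Inverses modulo `p`. -/
def inv (p w : ℕ) : ℕ := lfind (fun u => if w * u % p = 1 then 1 else 0) p

theorem inv_spec {p : ℕ} [hp : Fact p.Prime] {w : ℕ} (hw : (w : ZMod p) ≠ 0) :
    ((inv p w : ℕ) : ZMod p) = (w : ZMod p)⁻¹ := by
  have h1 : 1 < p := hp.out.one_lt
  set u := ((w : ZMod p)⁻¹).val with hu
  have hu1 : u < p := ZMod.val_lt _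
  have hu2 : ((u : ℕ) : ZMod p) = (w : ZMod p)⁻¹ := by rw [hu, ZMod.natCast_zmod_val]
  have hu3 : w * u % p = 1 := by
    have h2 : ((w * u : ℕ) : ZMod p) = ((1 : ℕ) : ZMod p) := by
      rw [Nat.cast_mul, hu2, mul_inv_cancel₀ hw, Nat.cast_one]
    have h3 := (ZMod.natCast_eq_natCast_iff' _ _ _).1 h2
    rwa [Nat.mod_eq_of_lt h1] at h3
  set P : ℕ → ℕ := fun u => if w * u % p = 1 then 1 else 0 with hP
  have h4 := lfind_spec P p
  have h5 : lfind P p < p := by
    by_contra h6
    have := h4.1 u (by omega)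
    rw [hP] at this
    simp [hu3] at this
  have h6 : w * lfind P p % p = 1 := by
    have h7 := h4.2 h5
    simp only [hP] at h7 ⊢
    by_contra h8
    rw [if_neg h8] at h7
    exact h7 rfl
  have h7 : ((w * lfind P p : ℕ) : ZMod p) = ((1 : ℕ) : ZMod p) := by
    rw [ZMod.natCast_eq_natCast_iff', h6, Nat.mod_eq_of_lt h1]
  rw [Nat.cast_mul, Nat.cast_one] at h7
  exact (inv_eq_of_mul_eq_one_right h7).symm

/-- The interpolation polynomials. -/
noncomputable def LL (p q a : ℕ) (y : ZMod p) : ZMod p :=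
  ∏ c ∈ range q, if c = a then 1 else (y - c) * ((a : ZMod p) - c)⁻¹

/-- The interpolation polynomials, as numbers. -/
def lag (p q a y : ℕ) : ℕ :=
  mprod p q fun c => if c = a then 1 else (y + (p - c)) * inv p (a + (p - c))

theorem cast_ne {p a c : ℕ} (ha : a < p) (hc : c < p) (h : c ≠ a) :
    (a : ZMod p) - c ≠ 0 := by
  intro h1
  have h2 : (a : ZMod p) = c := sub_eq_zero.1 h1
  have h3 := (ZMod.natCast_eq_natCast_iff' _ _ _).1 h2
  rw [Nat.mod_eq_of_lt ha, Nat.mod_eq_of_lt hc] at h3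
  exact h h3.symm

theorem cast_sub' {p c : ℕ} (hc : c ≤ p) (a : ℕ) :
    ((a + (p - c) : ℕ) : ZMod p) = (a : ZMod p) - c := by
  rw [Nat.cast_add, Nat.cast_sub hc, ZMod.natCast_self]
  ring

theorem lag_cast {p q : ℕ} [hp : Fact p.Prime] (hq : q ≤ p) {a : ℕ} (ha : a < q) (y : ℕ) :
    ((lag p q a y : ℕ) : ZMod p) = LL p q a y := by
  unfold lag LL
  rw [mprod_cast hp.out.pos]
  refine prod_congr rfl fun c hc => ?_
  have hc' := mem_range.1 hc
  split_ifs with h
  · simp
  · have h1 := cast_ne (p := p) (a := a) (c := c) (by omega) (by omega) h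
    rw [← cast_sub' (by omega)] at h1
    rw [Nat.cast_mul, inv_spec h1, cast_sub' (by omega), cast_sub' (by omega)]

theorem LL_self {p q a : ℕ} [hp : Fact p.Prime] (hq : q ≤ p) (ha : a < q) : LL p q a a = 1 := by
  unfold LL
  refine prod_eq_one fun c hc => ?_
  have hc' := mem_range.1 hc
  split_ifs with h
  · rfl
  · exact mul_inv_cancel₀ (cast_ne (by omega) (by omega) h)

theorem LL_ne {p q a w : ℕ} (hw : w < q) (h : w ≠ a) : LL p q a w = 0 := by
  unfold LL
  refine prod_eq_zero (mem_range.2 hw) ?_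
  rw [if_neg h]
  simp

theorem sum_univ_eq {p : ℕ} [NeZero p] {M : Type} [AddCommMonoid M] (g : ZMod p → M) :
    ∑ x : ZMod p, g x = ∑ n ∈ range p, g n := by
  symm
  refine Finset.sum_bij' (fun n _ => (n : ZMod p)) (fun x _ => x.val) ?_ ?_ ?_ ?_ ?_
  · intro n _; exact mem_univ _
  · intro x _; exact mem_range.2 (ZMod.val_lt x)
  · intro n hn; exact ZMod.val_cast_of_lt (mem_range.1 hn)
  · intro x _; exact ZMod.natCast_zmod_val x
  · intro n _; rfl

theorem sum_eval {p : ℕ} [hp : Fact p.Prime] (Q : (ZMod p)[X]) (hQ : Q.natDegree < p - 1) :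
    ∑ l ∈ range (p - 1), Q.eval ((l + 1 : ℕ) : ZMod p) = - Q.eval 0 := by
  have h1 : ∑ x : ZMod p, Q.eval x = 0 := by
    have h2 : ∀ x : ZMod p, Q.eval x = ∑ i ∈ range (Q.natDegree + 1), Q.coeff i * x ^ i :=
      fun x => Polynomial.eval_eq_sum_range x
    simp_rw [h2]
    rw [sum_comm]
    refine sum_eq_zero fun i hi => ?_
    rw [← mul_sum]
    have hc : Fintype.card (ZMod p) = p := ZMod.card p
    rw [FiniteField.sum_pow_lt_card_sub_one (ZMod p) i
      (by rw [hc]; have := mem_range.1 hi; omega), mul_zero]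
  have hp1 := hp.out.one_lt
  rw [sum_univ_eq] at h1
  have h3 : p = (p - 1) + 1 := by omega
  have h4 : ∑ n ∈ range p, Q.eval (n : ZMod p) =
      ∑ n ∈ range ((p - 1) + 1), Q.eval (n : ZMod p) := by rw [← h3]
  rw [h4, sum_range_succ', Nat.cast_zero] at h1
  exact eq_neg_of_add_eq_zero_left h1

/-- The interpolation of `f` at `y`. -/
noncomputable def interp (p q N : ℕ) (f : ℕ → ℕ) (y : ℕ → ZMod p) : ZMod p :=
  ∑ z ∈ range (q ^ N), (f z : ZMod p) * ∏ j ∈ range N, LL p q (dgt q z j) (y j)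

theorem interp_value {p q N : ℕ} [hp : Fact p.Prime] (hq : q ≤ p) (hq0 : 0 < q) (f : ℕ → ℕ)
    (w : ℕ → ℕ) (hw : ∀ j < N, w j < q) :
    interp p q N f (fun j => (w j : ZMod p)) = f (∑ j ∈ range N, w j % q * q ^ j) := by
  set z0 := ∑ j ∈ range N, w j % q * q ^ j with hz0
  have hz : z0 < q ^ N := sum_digits_lt hq0 N w
  have hd : ∀ j < N, dgt q z0 j = w j := fun j hj => by
    rw [dgt_eq, hz0, digit_sum hq0 N w hj, Nat.mod_eq_of_lt (hw j hj)]
  unfold interp
  rw [sum_eq_single z0]
  · rw [prod_eq_one, mul_one]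
    intro j hj
    have hj' := mem_range.1 hj
    rw [hd j hj']
    exact LL_self hq (hw j hj')
  · intro z hz1 hne
    have hz2 := mem_range.1 hz1
    have : ∃ j < N, dgt q z j ≠ w j := by
      by_contra hcon
      push Not at hcon
      apply hne
      refine eq_of_dgt hq0 hz2 hz fun j hj => ?_
      rw [← dgt_eq, ← dgt_eq, hcon j hj, hd j hj]
    obtain ⟨j, hj, hne'⟩ := this
    rw [prod_eq_zero (mem_range.2 hj), mul_zero]
    exact LL_ne (hw j hj) (Ne.symm hne')
  · intro h
    exact absurd (mem_range.2 hz) h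

/-- The key identity of Cook and Mertz. -/
theorem interp_sum {p q N : ℕ} [hp : Fact p.Prime] (hq : q ≤ p) (hq0 : 0 < q)
    (hN : N * q < p - 1) (f : ℕ → ℕ) (τ : ℕ → ZMod p) (w : ℕ → ℕ) (hw : ∀ j < N, w j < q) :
    ∑ l ∈ range (p - 1), interp p q N f (fun j => ((l + 1 : ℕ) : ZMod p) * τ j + w j) =
      - (f (∑ j ∈ range N, w j % q * q ^ j) : ℕ) := by
  -- the polynomials
  set LP : ℕ → ℕ → (ZMod p)[X] := fun a j =>
    ∏ c ∈ range q, if c = a then 1 else (C (τ j) * X + C ((w j : ZMod p) - c)) *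
      C (((a : ZMod p) - c)⁻¹) with hLP
  have e1 : ∀ a j (x : ZMod p), (LP a j).eval x = LL p q a (x * τ j + w j) := by
    intro a j x
    rw [hLP]
    simp only
    rw [eval_prod]
    unfold LL
    refine prod_congr rfl fun c _ => ?_
    split_ifs
    · simp
    · simp only [eval_mul, eval_add, eval_C, eval_X]
      ring
  have d1 : ∀ a j, (LP a j).natDegree ≤ q := by
    intro a j
    rw [hLP]
    refine (natDegree_prod_le _ _).trans ?_
    calc ∑ c ∈ range q, (if c = a then (1 : (ZMod p)[X]) else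
          (C (τ j) * X + C ((w j : ZMod p) - c)) * C (((a : ZMod p) - c)⁻¹)).natDegree
        ≤ ∑ _c ∈ range q, 1 := by
          refine sum_le_sum fun c _ => ?_
          split_ifs
          · simp
          · refine (natDegree_mul_le).trans ?_
            rw [natDegree_C, add_zero]
            exact natDegree_linear_le
      _ = q := by simp
  set Q : (ZMod p)[X] := ∑ z ∈ range (q ^ N), C (f z : ZMod p) * ∏ j ∈ range N, LP (dgt q z j) j
    with hQ
  have e2 : ∀ x : ZMod p, Q.eval x = interp p q N f (fun j => x * τ j + w j) := by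
    intro x
    rw [hQ, eval_finset_sum]
    unfold interp
    refine sum_congr rfl fun z _ => ?_
    rw [eval_mul, eval_C, eval_prod]
    congr 1
    exact prod_congr rfl fun j _ => e1 _ _ _
  have d2 : Q.natDegree ≤ N * q := by
    rw [hQ]
    refine natDegree_sum_le_of_forall_le _ _ fun z _ => ?_
    refine (natDegree_mul_le).trans ?_
    rw [natDegree_C, zero_add]
    refine (natDegree_prod_le _ _).trans ?_
    calc ∑ j ∈ range N, (LP (dgt q z j) j).natDegree ≤ ∑ _j ∈ range N, q :=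
          sum_le_sum fun j _ => d1 _ _
      _ = N * q := by simp
  have h1 := sum_eval Q (by omega)
  rw [e2 0] at h1
  simp_rw [e2] at h1
  rw [h1]
  have h2 : interp p q N f (fun j => (0 : ZMod p) * τ j + w j) =
      interp p q N f (fun j => (w j : ZMod p)) := by
    congr 1
    funext j
    ring
  rw [h2, interp_value hq hq0 f w hw]

/-- Sums of the values of `dgt q Z` at the neighbours of a cell, as digits of a number. -/
def nbr (d γ q Z j : ℕ) : ℕ := ∑ i ∈ range (3 ^ d), dgt q Z (j + rb d 3 γ i) * q ^ i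

/-- One step of the automaton on a region of side `3 b`. -/
def ev (B d b q tab Z : ℕ) : ℕ :=
  mkN B q (3 ^ d * b ^ d) fun j => dgt q tab (nbr d (3 * b) q Z j)

/-- The state of the cell `k` of the block, after `r` steps of the automaton from `z`. -/
def blk (B d b q tab r z k : ℕ) : ℕ :=
  dgt q (brec B z (fun _ y => ev B d b q tab y) r) (rb d b (3 * b) k)

/-- The automaton on linear arrangements of the cells. -/
def lin (d q tab W : ℕ) (A0 : ℕ → ℕ) : ℕ → ℕ → ℕ
  | 0, Q => A0 Q
  | t + 1, Q => dgt q tab (∑ i ∈ range (3 ^ d), lin d q tab W A0 t (Q + rb d 3 W i) * q ^ i)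

theorem lin_lt {d q tab W : ℕ} {A0 : ℕ → ℕ} (hq : 0 < q) (h0 : ∀ Q, A0 Q < q) (t Q : ℕ) :
    lin d q tab W A0 t Q < q := by
  cases t with
  | zero => exact h0 Q
  | succ t => exact dgt_lt hq _ _

theorem blk_eq {B d b q tab W : ℕ} {A0 : ℕ → ℕ} (hb : 0 < b) (hq : 0 < q)
    (hB : q ^ (3 ^ d * b ^ d) ≤ B) {r : ℕ} (hr : r ≤ b)
    (P t z k : ℕ) (hz : z < q ^ (3 ^ d * b ^ d)) (hd : ∀ j < 3 ^ d * b ^ d,
      dgt q z j = lin d q tab W A0 t (P + rb d (3 * b) W j)) :
    blk B d b q tab r z k = lin d q tab W A0 (t + r) (P + rb d b W k) := by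
  have hN : 3 ^ d * b ^ d = (3 * b) ^ d := (mul_pow _ _ _).symm
  have key : ∀ s ≤ b, iter (fun _ y => ev B d b q tab y) s z < q ^ (3 ^ d * b ^ d) ∧
      ∀ j < 3 ^ d * b ^ d, (∀ t < d, j / (3 * b) ^ t % (3 * b) + 2 * s < 3 * b) →
        dgt q (iter (fun _ y => ev B d b q tab y) s z) j =
          lin d q tab W A0 (t + s) (P + rb d (3 * b) W j) := by
    intro s
    induction s with
    | zero => exact fun _ => ⟨hz, fun j hj _ => hd j hj⟩
    | succ s ih =>
      intro hs
      obtain ⟨_, ih2⟩ := ih (by omega)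
      set Z := iter (fun _ y => ev B d b q tab y) s z with hZ
      have eZ : iter (fun _ y => ev B d b q tab y) (s + 1) z = ev B d b q tab Z := rfl
      rw [eZ]
      refine ⟨mkN_lt hq hB _, fun j hj hw => ?_⟩
      unfold ev
      rw [dgt_mkN hq hB _ hj, Nat.mod_eq_of_lt (dgt_lt hq _ _), ← add_assoc, lin]
      congr 1
      unfold nbr
      refine sum_congr rfl fun i _ => ?_
      have hc : ∀ t < d, j / (3 * b) ^ t % (3 * b) + i / 3 ^ t % 3 < 3 * b := by
        intro t ht
        have h1 := hw t ht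
        have h2 : i / 3 ^ t % 3 < 3 := Nat.mod_lt _ (by omega)
        omega
      obtain ⟨h3, h4⟩ := digit_add (d := d) (γ := 3 * b) (β := 3) (by omega) (by omega)
        (by rw [← hN]; exact hj) i hc
      rw [ih2 (j + rb d 3 (3 * b) i) (by rw [hN]; exact h3) (fun t ht => by
        rw [h4 t ht]
        have h1 := hw t ht
        have h2 : i / 3 ^ t % 3 < 3 := Nat.mod_lt _ (by omega)
        omega), rb_add (by omega) (by omega) (by rw [← hN]; exact hj) i W hc, add_assoc]
  unfold blk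
  rw [brec_eq_iter fun i hi => (key i (hi.trans hr)).1.le.trans hB]
  have h1 := (key r hr).2 (rb d b (3 * b) k) (by
    rw [hN]; exact rb_lt hb (by omega) k) (fun t ht => by
      rw [rb_digit hb (by omega) k ht]
      have : k / b ^ t % b < b := Nat.mod_lt _ hb
      omega)
  rw [h1, rb_rb hb (by omega)]

end Pool.Agent.V7H59.CT
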