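import Pool.Agent.V7H59.CT.Alg

/-!
# The ingredients of the algorithm are computable in linear space
-/

set_option autoImplicit false

namespace Pool.Agent.V7H59.CT

open Finset

theorem L.sumc (m : ℕ) {f : (ℕ → ℕ) → ℕ → ℕ} (hf : ∀ i < m, L (fun e => f e i)) :
    L (fun e => ∑ i ∈ range m, f e i) := by
  induction m with
  | zero => exact L.zero.congr fun x => by simp
  | succ m ih =>
    exact ((ih fun i hi => hf i (by omega)).add (hf m (by omega))).congr fun x => by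
      rw [sum_range_succ]

theorem L.powc {A : (ℕ → ℕ) → ℕ} (hA : L A) (m : ℕ) : L (fun e => A e ^ m) := by
  induction m with
  | zero => exact (L.const 1).congr fun x => by simp
  | succ m ih => exact (ih.mul hA).congr fun x => by rw [pow_succ]

theorem L.dgt {b R i : (ℕ → ℕ) → ℕ} (hb : L b) (hR : L R) (hi : L i) :
    L (fun e => CT.dgt (b e) (R e) (i e)) := (hR.div (L.powT hb hi hR.succ)).mod hb

theorem L.mkN {B b N : (ℕ → ℕ) → ℕ} {f : (ℕ → ℕ) → ℕ → ℕ} (hB : L B) (hb : L b) (hN : L N)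
    (hf : L (fun z => f (fun j => z (j + 1)) (z 0))) (hpos : ∀ e, 0 < b e) :
    L (fun e => CT.mkN (B e) (b e) (N e) (f e)) := by
  refine L.sum (f := fun e j => f e j % b e * CT.powT (b e) j (B e)) (B := fun e => b e * B e) hN
    ((hf.mod hb.tl).mul (L.powT hb.tl (L.var 0) hB.tl)) (hb.mul hB) fun e i _ => ?_
  exact Nat.mul_le_mul (Nat.mod_lt _ (hpos e)).le (min_le_right _ _)

theorem L.rb (d : ℕ) {β γ k : (ℕ → ℕ) → ℕ} (hβ : L β) (hγ : L γ) (hk : L k) :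
    L (fun e => CT.rb d (β e) (γ e) (k e)) :=
  L.sumc d (f := fun e t => k e / β e ^ t % β e * γ e ^ t) fun t _ =>
    ((hk.div (hβ.powc t)).mod hβ).mul (hγ.powc t)

theorem L.chd (d : ℕ) {b j : (ℕ → ℕ) → ℕ} (hb : L b) (hj : L j) :
    L (fun e => CT.chd d (b e) (j e)) :=
  L.sumc d (f := fun e t => (j e / (3 * b e) ^ t % (3 * b e)) / b e * 3 ^ t) fun t _ =>
    (((hj.div (((L.const 3).mul hb).powc t)).mod ((L.const 3).mul hb)).div hb).mul
      (L.const (3 ^ t))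

theorem L.cel (d : ℕ) {b j : (ℕ → ℕ) → ℕ} (hb : L b) (hj : L j) :
    L (fun e => CT.cel d (b e) (j e)) :=
  L.sumc d (f := fun e t => (j e / (3 * b e) ^ t % (3 * b e)) % b e * b e ^ t) fun t _ =>
    (((hj.div (((L.const 3).mul hb).powc t)).mod ((L.const 3).mul hb)).mod hb).mul (hb.powc t)

theorem L.nbr (d : ℕ) {γ q Z j : (ℕ → ℕ) → ℕ} (hγ : L γ) (hq : L q) (hZ : L Z) (hj : L j) :
    L (fun e => CT.nbr d (γ e) (q e) (Z e) (j e)) :=
  L.sumc (3 ^ d) (f := fun e i => CT.dgt (q e) (Z e) (j e + CT.rb d 3 (γ e) i) * q e ^ i)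
    fun i _ => (L.dgt hq hZ (hj.add (L.rb d (L.const 3) hγ (L.const i)))).mul (hq.powc i)

theorem L.ev (d : ℕ) {B b q tab Z : (ℕ → ℕ) → ℕ} (hB : L B) (hb : L b) (hq : L q) (htab : L tab)
    (hZ : L Z) (hpos : ∀ e, 0 < q e) :
    L (fun e => CT.ev (B e) d (b e) (q e) (tab e) (Z e)) :=
  L.mkN (f := fun e j => CT.dgt (q e) (tab e) (CT.nbr d (3 * b e) (q e) (Z e) j)) hB hq
    ((L.const (3 ^ d)).mul (hb.powc d))
    (L.dgt hq.tl htab.tl (L.nbr d ((L.const 3).mul hb.tl) hq.tl hZ.tl (L.var 0))) hpos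

theorem L.blk (d : ℕ) {B b q tab r z k : (ℕ → ℕ) → ℕ} (hB : L B) (hb : L b) (hq : L q)
    (htab : L tab) (hr : L r) (hz : L z) (hk : L k) (hpos : ∀ e, 0 < q e) :
    L (fun e => CT.blk (B e) d (b e) (q e) (tab e) (r e) (z e) (k e)) :=
  L.dgt hq (L.brec (h := fun e _ y => CT.ev (B e) d (b e) (q e) (tab e) y) hB hz
    (L.ev d hB.tl2 hb.tl2 hq.tl2 htab.tl2 (L.var 0) fun _ => hpos _) hr)
    (L.rb d hb ((L.const 3).mul hb) hk)

theorem L.mprod {p N : (ℕ → ℕ) → ℕ} {f : (ℕ → ℕ) → ℕ → ℕ} (hp : L p) (hN : L N)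
    (hf : L (fun z => f (fun j => z (j + 1)) (z 0))) :
    L (fun e => CT.mprod (p e) (N e) (f e)) := by
  have hf' : L (fun z => f (fun j => z (j + 2)) (z 1)) :=
    L.subst hf (g := fun j z => z (j + 1)) fun j => L.var (j + 1)
  exact L.brec (h := fun e i y => y * f e i % p e) hp (L.const 1)
    (((L.var 0).mul hf').mod hp.tl2) hN

theorem L.inv {p w : (ℕ → ℕ) → ℕ} (hp : L p) (hw : L w) : L (fun e => CT.inv (p e) (w e)) :=
  L.find (P := fun e u => if w e * u % p e = 1 then 1 else 0) hp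
    (L.ite_eq ((hw.tl.mul (L.var 0)).mod hp.tl) (L.const 1) (L.const 1) L.zero)

theorem L.lag {p q a y : (ℕ → ℕ) → ℕ} (hp : L p) (hq : L q) (ha : L a) (hy : L y) :
    L (fun e => CT.lag (p e) (q e) (a e) (y e)) :=
  L.mprod (f := fun e c => if c = a e then 1 else (y e + (p e - c)) *
    CT.inv (p e) (a e + (p e - c))) hp hq
    (L.ite_eq (L.var 0) ha.tl (L.const 1)
      ((hy.tl.add (hp.tl.sub (L.var 0))).mul (L.inv hp.tl (ha.tl.add (hp.tl.sub (L.var 0))))))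

theorem L.co {o i : (ℕ → ℕ) → ℕ} (ho : L o) (hi : L i) : L (fun e => CT.co (o e) (i e)) :=
  L.ite_lt hi ho hi hi.succ

theorem L.reg {V o j : (ℕ → ℕ) → ℕ} (hV : L V) (ho : L o) (hj : L j) :
    L (fun e => CT.reg (V e) (o e) (j e)) :=
  ((L.co ho (hj.div hV)).mul hV).add (hj.mod hV)

theorem L.arr (d : ℕ) {B b q m V z : (ℕ → ℕ) → ℕ} (hB : L B) (hb : L b) (hq : L q) (hm : L m)
    (hV : L V) (hz : L z) (hpos : ∀ e, 0 < q e) :
    L (fun e => CT.arr (B e) d (b e) (q e) (m e) (V e) (z e)) :=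
  L.mkN (f := fun e j => CT.dgt (q e) (z e) (CT.chd d (b e) j * (V e * m e) + CT.cel d (b e) j))
    hB hq ((L.const (3 ^ d)).mul (hb.powc d))
    (L.dgt hq.tl hz.tl (((L.chd d hb.tl (L.var 0)).mul (hV.tl.mul hm.tl)).add
      (L.cel d hb.tl (L.var 0)))) hpos

theorem L.pck (d : ℕ) {B b q tab m r z k : (ℕ → ℕ) → ℕ} (hB : L B) (hb : L b) (hq : L q)
    (htab : L tab) (hm : L m) (hr : L r) (hz : L z) (hk : L k) (hpos : ∀ e, 0 < q e) :
    L (fun e => CT.pck (B e) d (b e) (q e) (tab e) (m e) (r e) (z e) (k e)) :=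
  L.mkN (f := fun e i => CT.blk (B e) d (b e) (q e) (tab e) (r e) (z e) (k e * m e + i)) hB hq hm
    (L.blk d hB.tl hb.tl hq.tl htab.tl hr.tl hz.tl ((hk.tl.mul hm.tl).add (L.var 0))
      fun _ => hpos _) hpos

theorem L.evN (d : ℕ) {B p b q tab m V R o k : (ℕ → ℕ) → ℕ} (hB : L B) (hp : L p) (hb : L b)
    (hq : L q) (htab : L tab) (hm : L m) (hV : L V) (hR : L R) (ho : L o) (hk : L k)
    (hpos : ∀ e, 0 < q e) (hpp : ∀ e, 0 < p e) :
    L (fun e => CT.evN (B e) (p e) d (b e) (q e) (tab e) (m e) (V e) (R e) (o e) (k e)) := by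
  have hN : L (fun e => 3 ^ d * V e) := (L.const (3 ^ d)).mul hV
  have hQ : L (fun e => CT.powT (q e) (m e) (B e)) := L.powT hq hm hB
  refine L.sum (f := fun e z => CT.pck (B e) d (b e) (q e) (tab e) (m e) (b e)
    (CT.arr (B e) d (b e) (q e) (m e) (V e) z) (k e) *
    CT.mprod (p e) (3 ^ d * V e) (fun j => CT.lag (p e) (CT.powT (q e) (m e) (B e))
      (CT.dgt (CT.powT (q e) (m e) (B e)) z j)
      (CT.dgt (p e) (R e) (CT.reg (V e) (o e) j))) % p e) (B := p) (L.powT hQ hN hB)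
    (((L.pck d hB.tl hb.tl hq.tl htab.tl hm.tl hb.tl
      (L.arr d hB.tl hb.tl hq.tl hm.tl hV.tl (L.var 0) fun _ => hpos _) hk.tl fun _ => hpos _).mul
      (L.mprod (f := fun z j => CT.lag (p fun j => z (j + 1))
        (CT.powT (q fun j => z (j + 1)) (m fun j => z (j + 1)) (B fun j => z (j + 1)))
        (CT.dgt (CT.powT (q fun j => z (j + 1)) (m fun j => z (j + 1)) (B fun j => z (j + 1)))
          (z 0) j) (CT.dgt (p fun j => z (j + 1))
          (R fun j => z (j + 1)) (CT.reg (V fun j => z (j + 1)) (o fun j => z (j + 1)) j)))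
        hp.tl hN.tl (L.lag hp.tl.tl hQ.tl.tl (L.dgt hQ.tl.tl (L.var 1) (L.var 0))
          (L.dgt hp.tl.tl hR.tl.tl (L.reg hV.tl.tl ho.tl.tl (L.var 0)))))).mod hp.tl) hp
    fun e i _ => (Nat.mod_lt _ (hpp e)).le

theorem L.leafN (d : ℕ) {B b q tab W m r P k : (ℕ → ℕ) → ℕ} {A0 : (ℕ → ℕ) → ℕ → ℕ} (hB : L B)
    (hb : L b) (hq : L q) (htab : L tab) (hW : L W) (hm : L m) (hr : L r)
    (hA0 : L (fun z => A0 (fun j => z (j + 1)) (z 0))) (hP : L P) (hk : L k)
    (hpos : ∀ e, 0 < q e) :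
    L (fun e => CT.leafN (B e) d (b e) (q e) (tab e) (W e) (m e) (r e) (A0 e) (P e) (k e)) := by
  have hA0' : L (fun z => A0 (fun j => z (j + 1))
      (P (fun j => z (j + 1)) + CT.rb d (3 * b fun j => z (j + 1)) (W fun j => z (j + 1)) (z 0))) :=
    L.subst hA0 (g := fun j z => match j with
      | 0 => P (fun j => z (j + 1)) +
          CT.rb d (3 * b fun j => z (j + 1)) (W fun j => z (j + 1)) (z 0)
      | j + 1 => z (j + 1)) fun j => by
        match j with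
        | 0 => exact hP.tl.add (L.rb d ((L.const 3).mul hb.tl) hW.tl (L.var 0))
        | j + 1 => exact L.var (j + 1)
  exact L.pck d hB hb hq htab hm hr
    (L.mkN (f := fun e j => A0 e (P e + CT.rb d (3 * b e) (W e) j))
      hB hq ((L.const (3 ^ d)).mul (hb.powc d)) hA0' hpos) hk hpos

end Pool.Agent.V7H59.CT
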