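import Pool.Agent.V7H59.CT.LA

/-!
# The register program is computable in linear space
-/

set_option autoImplicit false

namespace Pool.Agent.V7H59.CT

open Finset

/-- The least number with square larger than `n`, minus one. -/
def sq (n : ℕ) : ℕ := lfind (fun s => if n < (s + 1) * (s + 1) then 1 else 0) (n + 1)

theorem sq_eq (n : ℕ) : sq n = n.sqrt := by
  refine lfind_eq ?_ ?_ ?_
  · have := Nat.sqrt_le_self n
    omega
  · rw [if_pos (Nat.lt_succ_sqrt n)]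
    exact one_ne_zero
  · intro i hi
    rw [if_neg]
    rw [not_lt]
    exact Nat.le_sqrt.1 (by omega)

theorem L.sq {A : (ℕ → ℕ) → ℕ} (hA : L A) : L (fun e => CT.sq (A e)) :=
  L.find (P := fun e s => if A e < (s + 1) * (s + 1) then 1 else 0) hA.succ
    (L.ite_lt hA.tl ((L.var 0).succ.mul (L.var 0).succ) (L.const 1) L.zero)

theorem L.pair {A B : (ℕ → ℕ) → ℕ} (hA : L A) (hB : L B) :
    L (fun e => Nat.pair (A e) (B e)) :=
  L.ite_lt hA hB ((hB.mul hB).add hA) (((hA.mul hA).add hA).add hB)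

theorem L.fst {A : (ℕ → ℕ) → ℕ} (hA : L A) : L (fun e => (A e).unpair.1) := by
  have h : L (fun e => if A e - CT.sq (A e) * CT.sq (A e) < CT.sq (A e) then
      A e - CT.sq (A e) * CT.sq (A e) else CT.sq (A e)) :=
    L.ite_lt (hA.sub (hA.sq.mul hA.sq)) hA.sq (hA.sub (hA.sq.mul hA.sq)) hA.sq
  refine h.congr fun x => ?_
  rw [sq_eq]
  unfold Nat.unpair
  simp only
  split_ifs <;> rfl

theorem L.snd {A : (ℕ → ℕ) → ℕ} (hA : L A) : L (fun e => (A e).unpair.2) := by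
  have h : L (fun e => if A e - CT.sq (A e) * CT.sq (A e) < CT.sq (A e) then
      CT.sq (A e) else A e - CT.sq (A e) * CT.sq (A e) - CT.sq (A e)) :=
    L.ite_lt (hA.sub (hA.sq.mul hA.sq)) hA.sq hA.sq ((hA.sub (hA.sq.mul hA.sq)).sub hA.sq)
  refine h.congr fun x => ?_
  rw [sq_eq]
  unfold Nat.unpair
  simp only
  split_ifs <;> rfl

theorem L.pk {P o s τ m : (ℕ → ℕ) → ℕ} (hP : L P) (ho : L o) (hs : L s) (hτ : L τ) (hm : L m) :
    L (fun e => CT.pk (P e) (o e) (s e) (τ e) (m e)) :=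
  hP.pair (ho.pair (hs.pair (hτ.pair hm)))

theorem L.pkP {σ : (ℕ → ℕ) → ℕ} (h : L σ) : L (fun e => CT.pkP (σ e)) := h.fst
theorem L.pko {σ : (ℕ → ℕ) → ℕ} (h : L σ) : L (fun e => CT.pko (σ e)) := h.snd.fst
theorem L.pks {σ : (ℕ → ℕ) → ℕ} (h : L σ) : L (fun e => CT.pks (σ e)) := h.snd.snd.fst
theorem L.pkt {σ : (ℕ → ℕ) → ℕ} (h : L σ) : L (fun e => CT.pkt (σ e)) := h.snd.snd.snd.fst
theorem L.pkm {σ : (ℕ → ℕ) → ℕ} (h : L σ) : L (fun e => CT.pkm (σ e)) := h.snd.snd.snd.snd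

/-- The parameters of the program are computable in linear space, from a number. -/
structure LP (π : ℕ → Par) : Prop where
  B : ∀ {A : (ℕ → ℕ) → ℕ}, L A → L (fun e => (π (A e)).B)
  p : ∀ {A : (ℕ → ℕ) → ℕ}, L A → L (fun e => (π (A e)).p)
  D : ∀ {A : (ℕ → ℕ) → ℕ}, L A → L (fun e => (π (A e)).D)
  V : ∀ {A : (ℕ → ℕ) → ℕ}, L A → L (fun e => (π (A e)).V)
  child : ∀ {A P i : (ℕ → ℕ) → ℕ}, L A → L P → L i → L (fun e => (π (A e)).child (P e) (i e))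
  leaf : ∀ {A P i : (ℕ → ℕ) → ℕ}, L A → L P → L i → L (fun e => (π (A e)).leaf (P e) (i e))
  E : ∀ {A R o k : (ℕ → ℕ) → ℕ}, L A → L R → L o → L k →
    L (fun e => (π (A e)).E (R e) (o e) (k e))
  inv : ∀ {A l : (ℕ → ℕ) → ℕ}, L A → L l → L (fun e => (π (A e)).inv (l e))
  pos : ∀ X, 0 < (π X).p

variable {π : ℕ → Par} (H : LP π)
include H

theorem LP.NR {A : (ℕ → ℕ) → ℕ} (hA : L A) : L (fun e => (π (A e)).NR) :=
  (H.D hA).succ.mul (H.V hA)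

theorem LP.Sl {A : (ℕ → ℕ) → ℕ} (hA : L A) : L (fun e => (π (A e)).Sl) :=
  ((L.const 2).mul (H.D hA)).succ.succ.succ

theorem LP.K {A : (ℕ → ℕ) → ℕ} (hA : L A) : L (fun e => (π (A e)).K) :=
  (H.p hA).pred.mul (H.Sl hA)

theorem LP.scl {A R o μ : (ℕ → ℕ) → ℕ} (hA : L A) (hR : L R) (ho : L o) (hμ : L μ) :
    L (fun e => (π (A e)).scl (R e) (o e) (μ e)) := by
  have hd : L (fun z => CT.dgt (π (A fun j => z (j + 1))).p (R fun j => z (j + 1)) (z 0)) :=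
    L.dgt (H.p hA.tl) hR.tl (L.var 0)
  exact L.mkN (f := fun e j => if j / (π (A e)).V = o e then CT.dgt (π (A e)).p (R e) j else
    CT.dgt (π (A e)).p (R e) j * μ e) (H.B hA) (H.p hA) (H.NR hA)
    (L.ite_eq ((L.var 0).div (H.V hA.tl)) ho.tl hd (hd.mul hμ.tl)) fun _ => H.pos _

theorem LP.upd {A R o s : (ℕ → ℕ) → ℕ} {f : (ℕ → ℕ) → ℕ → ℕ} (hA : L A) (hR : L R) (ho : L o)
    (hs : L s) (hf : L (fun z => f (fun j => z (j + 1)) (z 0 % (π (A fun j => z (j + 1))).V))) :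
    L (fun e => (π (A e)).upd (R e) (o e) (s e) (f e)) := by
  have hd : L (fun z => CT.dgt (π (A fun j => z (j + 1))).p (R fun j => z (j + 1)) (z 0)) :=
    L.dgt (H.p hA.tl) hR.tl (L.var 0)
  exact L.mkN (f := fun e j => if j / (π (A e)).V = o e then
    CT.dgt (π (A e)).p (R e) j + s e * f e (j % (π (A e)).V) else
    CT.dgt (π (A e)).p (R e) j) (H.B hA) (H.p hA) (H.NR hA)
    (L.ite_eq ((L.var 0).div (H.V hA.tl)) ho.tl (hd.add (hs.tl.mul hf)) hd) fun _ => H.pos _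

theorem LP.dstep {A κ σ : (ℕ → ℕ) → ℕ} (hA : L A) (hκ : L κ) (hσ : L σ) :
    L (fun e => (π (A e)).dstep (κ e) (σ e)) := by
  have hS := H.Sl hA
  have hq : L (fun e => CT.pkt (σ e) / κ e) := hσ.pkt.div hκ
  have hsl := hq.mod hS
  have hl := (hq.div hS).succ
  have hr := hσ.pkt.mod hκ
  have hm : ∀ c : ℕ, L (fun e => if CT.pkt (σ e) % κ e = 0 then c else 3) := fun c =>
    L.ite0 hr (L.const c) (L.const 3)
  refine L.ite0 hσ.pkm ?_ hσ
  refine L.ite0 hsl (L.pk hσ.pkP hσ.pko hσ.pks hl (hm 1)) ?_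
  refine L.ite_le hsl (H.D hA) (L.pk (H.child hA hσ.pkP (hsl.sub (L.const 1)))
    (L.co hσ.pko (hsl.sub (L.const 1))) (L.const 1) hr L.zero) ?_
  refine L.ite_eq hsl (H.D hA).succ (L.pk hσ.pkP hσ.pko hσ.pks L.zero (hm 2)) ?_
  refine L.ite_le hsl ((L.const 2).mul (H.D hA)).succ
    (L.pk (H.child hA hσ.pkP (hsl.sub ((H.D hA).add (L.const 2))))
    (L.co hσ.pko (hsl.sub ((H.D hA).add (L.const 2)))) (H.p hA).pred hr L.zero) ?_
  exact L.pk hσ.pkP hσ.pko hσ.pks (H.inv hA hl) (hm 1)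

theorem LP.app {A σ R : (ℕ → ℕ) → ℕ} (hA : L A) (hσ : L σ) (hR : L R) :
    L (fun e => (π (A e)).app (σ e) (R e)) := by
  refine L.ite0 hσ.pkm (H.upd (f := fun e => (π (A e)).leaf (CT.pkP (σ e))) hA hR hσ.pko hσ.pks
    (H.leaf hA.tl hσ.tl.pkP ((L.var 0).mod (H.V hA.tl)))) ?_
  refine L.ite_eq hσ.pkm (L.const 1) (H.scl hA hR hσ.pko hσ.pkt) ?_
  refine L.ite_eq hσ.pkm (L.const 2) (H.upd (f := fun e => (π (A e)).E (R e) (CT.pko (σ e))) hA hR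
    hσ.pko ((H.p hA).sub hσ.pks)
    (H.E hA.tl hR.tl hσ.tl.pko ((L.var 0).mod (H.V hA.tl)))) hR

omit H in
/-- The descent. -/
def desc (π : Par) (h τ : ℕ) : ℕ :=
  brec π.B (pk 0 0 1 τ 0) (fun i σ => π.dstep (powT π.K (h - 1 - i) π.B) σ) h

omit H in
/-- The program. -/
def runB (π : Par) (h : ℕ) : ℕ :=
  brec π.B 0 (fun τ R => π.app (desc π h τ) R) (powT π.K h π.B)

theorem LP.desc {A h τ : (ℕ → ℕ) → ℕ} (hA : L A) (hh : L h) (hτ : L τ) :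
    L (fun e => CT.desc (π (A e)) (h e) (τ e)) :=
  L.brec (h := fun e i σ => (π (A e)).dstep (CT.powT (π (A e)).K (h e - 1 - i) (π (A e)).B) σ)
    (H.B hA) (L.pk L.zero L.zero (L.const 1) hτ L.zero)
    (H.dstep hA.tl2 (L.powT (H.K hA.tl2) ((hh.tl2.sub (L.const 1)).sub (L.var 1)) (H.B hA.tl2))
      (L.var 0)) hh

theorem LP.runB {A h : (ℕ → ℕ) → ℕ} (hA : L A) (hh : L h) :
    L (fun e => CT.runB (π (A e)) (h e)) :=
  L.brec (h := fun e τ R => (π (A e)).app (CT.desc (π (A e)) (h e) τ) R) (H.B hA) L.zero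
    (H.app hA.tl2 (H.desc hA.tl2 hh.tl2 (L.var 1)) (L.var 0)) (L.powT (H.K hA) hh (H.B hA))

end Pool.Agent.V7H59.CT
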