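import Pool.Agent.V7H59.CT.Mach

/-!
# From the class `L` to linear space
-/

set_option autoImplicit false

namespace Pool.Agent.V7H59.CT

open Pool.Agent.NPC
open Function (update)

/-- The number whose binary digits (least significant first) are `x` followed by a one. -/
def num : List Bool → ℕ
  | [] => 1
  | b :: l => Nat.bit b (num l)

theorem num_pos (x : List Bool) : 0 < num x := by
  induction x with
  | nil => simp [num]
  | cons b l ih =>
    rw [num, Nat.bit_val]
    omega

theorem num_bits (x : List Bool) : (num x).bits = x ++ [true] := by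
  induction x with
  | nil => simp [num]
  | cons b l ih =>
    rw [num, Nat.bits_append_bit _ _ (fun h => absurd h (num_pos l).ne'), ih]
    rfl

theorem num_size (x : List Bool) : (num x).size = x.length + 1 := by
  rw [← Nat.size_eq_bits_len, num_bits]
  simp

theorem Bs_single (n : ℕ) : Bs (update (fun _ => 0) 0 n) = inp n.bits := by
  rw [Bs_update]
  unfold inp
  congr 1

/-- A program for a function computable in linear space. -/
theorem runS_of_L {F : (ℕ → ℕ) → ℕ} (hF : L F) : ∃ (c : Cmd ℕ) (C : ℕ), ∀ x : List Bool,
    RunS (C * (x.length + 1)) c (inp x)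
      (inp [decide (F (update (fun _ => 0) 0 (num x)) ≠ 0)]) := by
  obtain ⟨k, hF⟩ := hF
  obtain ⟨C, hC1, hCs, hC⟩ := hF.run'
  obtain ⟨c, hc⟩ := hC id (k + 1) fun j hj => by simp only [id]; omega
  refine ⟨Cmd.seq (mvP 0 1) (Cmd.seq (Cmd.push 0 true) (Cmd.seq (mvP 1 0) (Cmd.seq c
      (Cmd.seq (clrP 0) (Cmd.seq (Cmd.cases (k + 1) (Cmd.push 0 false) (Cmd.push 0 true)
        (Cmd.push 0 true)) (clrP (k + 1))))))), 2 * C + 2, fun x => ?_⟩
  set m := (2 * C + 2) * (x.length + 1) with hm
  have hm1 : x.length + 1 ≤ m := Nat.le_mul_of_pos_left _ (by omega)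
  have b0 : Bd m (inp x : ℕ → List Bool) := by
    intro i
    by_cases hi : i = 0
    · subst hi; simp [inp]; omega
    · simp [inp, hi]
  have k1 := mv_run (m := m) (i := 0) (t := 1) (by omega) x (inp x) (by simp [inp]) b0
    (by simp [inp]; omega)
  set s1 := update (update (inp x) 1 ((inp x 0).reverse ++ inp x 1)) 0 [] with hs1
  have e10 : s1 0 = [] := by rw [hs1, Function.update_self]
  have e11 : s1 1 = x.reverse := by
    rw [hs1, Function.update_of_ne (by omega), Function.update_self]
    simp [inp]
  have e1i : ∀ i, 2 ≤ i → s1 i = [] := by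
    intro i hi
    rw [hs1, Function.update_of_ne (by omega), Function.update_of_ne (by omega)]
    have : i ≠ 0 := by omega
    simp [inp, this]
  have b1 := k1.right
  have b2 : Bd m (update s1 0 (true :: s1 0)) := b1.update (by rw [e10]; simp; omega)
  have k2 : RunS m (Cmd.push 0 true) s1 (update s1 0 (true :: s1 0)) := RunS.push s1 0 true b1 b2
  set s2 := update s1 0 (true :: s1 0) with hs2
  have e20 : s2 0 = [true] := by rw [hs2, Function.update_self, e10]
  have e21 : s2 1 = x.reverse := by rw [hs2, Function.update_of_ne (by omega), e11]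
  have k3 := mv_run (m := m) (i := 1) (t := 0) (by omega) x.reverse s2 e21 b2
    (by rw [e21, e20]; simp; omega)
  have e3 : update (update s2 0 ((s2 1).reverse ++ s2 0)) 1 [] =
      Bs (update (fun _ => 0) 0 (num x)) := by
    rw [Bs_single, num_bits, e21, e20, List.reverse_reverse]
    funext i
    by_cases h1 : i = 1
    · subst h1
      simp [inp]
    · rw [Function.update_of_ne h1]
      by_cases h0 : i = 0
      · subst h0; simp [inp]
      · rw [Function.update_of_ne h0, hs2, Function.update_of_ne h0, e1i i (by omega)]
        simp [inp, h0]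
  rw [e3] at k3
  set v : ℕ → ℕ := update (fun _ => 0) 0 (num x) with hv
  have hv0 : v 0 = num x := by rw [hv, Function.update_self]
  have hvi : ∀ i, i ≠ 0 → v i = 0 := fun i hi => by rw [hv, Function.update_of_ne hi]
  have htot : tot k (v ∘ id) ≤ x.length + 2 := by
    rcases Nat.eq_zero_or_pos k with rfl | hk
    · simp [tot]
    · unfold tot
      rw [Finset.sum_eq_single 0 (fun j _ hj => by simp [hvi j hj]) (fun h =>
        absurd (Finset.mem_range.2 hk) h)]
      simp only [Function.comp, id]
      rw [hv0, num_size]
  have k4 := hc v m (fun i hi => hvi i (by omega)) (bdN_iff.2 k3.right) (by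
    calc C * tot k (v ∘ id) ≤ C * (x.length + 2) := Nat.mul_le_mul_left _ htot
      _ ≤ C * (2 * (x.length + 1)) := Nat.mul_le_mul_left _ (by omega)
      _ ≤ m := by rw [hm]; nlinarith)
  have k5 := clrN (r := 0) k4.right
  set w5 := update (update v (k + 1) (F (v ∘ id))) 0 0 with hw5
  have e5 : w5 = update (fun _ => 0) (k + 1) (F v) := by
    funext i
    rw [hw5]
    by_cases h0 : i = 0
    · subst h0
      rw [Function.update_self, Function.update_of_ne (by omega)]
    · rw [Function.update_of_ne h0]
      by_cases h1 : i = k + 1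
      · subst h1
        rw [Function.update_self, Function.update_self]
        rfl
      · rw [Function.update_of_ne h1, Function.update_of_ne h1, hvi i h0]
  rw [e5] at k5
  set s6 : ℕ → List Bool := update (Bs (update (fun _ => 0) (k + 1) (F v))) 0
    [decide (F v ≠ 0)] with hs6
  have b5 : Bd m (Bs (update (fun _ => 0) (k + 1) (F v))) := bdN_iff.1 k5.right
  have b6 : Bd m s6 := b5.update (by simp; omega)
  have e50 : Bs (update (fun _ => 0) (k + 1) (F v)) 0 = [] := by
    simp only [Bs]
    rw [Function.update_of_ne (by omega)]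
    simp
  have e5k : Bs (update (fun _ => 0) (k + 1) (F v)) (k + 1) = (F v).bits := by
    simp only [Bs]
    rw [Function.update_self]
  have k6 : RunS m (Cmd.cases (k + 1) (Cmd.push 0 false) (Cmd.push 0 true)
        (Cmd.push 0 true)) (Bs (update (fun _ => 0) (k + 1) (F v))) s6 := by
    have push : ∀ b, decide (F v ≠ 0) = b → RunS m (Cmd.push 0 b)
        (Bs (update (fun _ => 0) (k + 1) (F v))) s6 := by
      intro b hb
      subst hb
      have := RunS.push (Bs (update (fun _ => 0) (k + 1) (F v))) 0 (decide (F v ≠ 0)) b5
        (by rw [e50]; exact b6)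
      rw [e50] at this
      exact this
    rcases hl : (F v).bits with _ | ⟨a, l⟩
    · exact RunS.casesNil (by rw [e5k, hl]) (push false (by
        rw [decide_eq_false_iff_not, not_not]; exact bits_eq_nil.1 hl))
    · have hne : F v ≠ 0 := fun h => by
        rw [bits_eq_nil.2 h] at hl
        cases hl
      cases a
      · exact RunS.casesFalse (by rw [e5k, hl]) (push true (decide_eq_true hne))
      · exact RunS.casesTrue (by rw [e5k, hl]) (push true (decide_eq_true hne))
  have k7 := clr_run (m := m) (r := k + 1) _ s6 rfl b6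
  refine (RunS.seq k1 (RunS.seq k2 (RunS.seq k3 (RunS.seq k4 (RunS.seq k5
    (RunS.seq k6 k7)))))).conv rfl ?_
  funext i
  by_cases h1 : i = k + 1
  · subst h1
    rw [Function.update_self]
    simp [inp]
  · rw [Function.update_of_ne h1, hs6]
    by_cases h0 : i = 0
    · subst h0
      rw [Function.update_self]
      simp [inp]
    · rw [Function.update_of_ne h0]
      simp only [Bs]
      rw [Function.update_of_ne h1]
      simp [inp, h0]

theorem inLinSpace_of_L {F : (ℕ → ℕ) → ℕ} (hF : L F) (S : Set (List Bool))
    (hS : ∀ x, x ∈ S ↔ F (update (fun _ => 0) 0 (num x)) ≠ 0) : InLinSpace S := by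
  obtain ⟨c, C, h⟩ := runS_of_L hF
  exact inLinSpace_of_runS (fun x => by rw [hS, decide_eq_true_iff]) c C h

end Pool.Agent.V7H59.CT
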