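import Pool.Agent.V7H59.CT.Basic

/-!
# The class `L` of functions on natural numbers which are computable in linear space

The arguments of a function are the values of the registers `0, 1, …` of a register file
`ℕ → ℕ`; the numbers are held in binary on the stacks.
-/

set_option autoImplicit false

namespace Pool.Agent.V7H59.CT

open Pool.Agent.NPC
open Function (update)

/-- The stacks holding the binary expansions of the numbers `v i`. -/
def Bs (v : ℕ → ℕ) : ℕ → List Bool := fun i => (v i).bits

theorem Bs_update (v : ℕ → ℕ) (r n : ℕ) : Bs (update v r n) = update (Bs v) r n.bits := by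
  funext i
  by_cases h : i = r
  · subst h; simp [Bs]
  · simp [Bs, Function.update_of_ne h]

/-- All registers have at most `m` bits. -/
def BdN (m : ℕ) (v : ℕ → ℕ) : Prop := ∀ i, (v i).size ≤ m

theorem bdN_iff {m : ℕ} {v : ℕ → ℕ} : BdN m v ↔ Bd m (Bs v) := by
  unfold BdN Bd Bs
  simp only [Nat.size_eq_bits_len]

theorem BdN.update {m : ℕ} {v : ℕ → ℕ} (h : BdN m v) {r n : ℕ} (hn : n.size ≤ m) :
    BdN m (update v r n) := by
  intro i
  by_cases hi : i = r
  · subst hi; rwa [Function.update_self]
  · rw [Function.update_of_ne hi]; exact h i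

/-- A run between register files. -/
def RunN (m : ℕ) (c : Cmd ℕ) (v v' : ℕ → ℕ) : Prop := RunS m c (Bs v) (Bs v')

theorem RunN.right {m : ℕ} {c : Cmd ℕ} {v v' : ℕ → ℕ} (h : RunN m c v v') : BdN m v' :=
  bdN_iff.2 (RunS.right h)

theorem RunN.conv {m : ℕ} {c : Cmd ℕ} {v v' w w' : ℕ → ℕ} (h : RunN m c v v') (e : v = w)
    (e' : v' = w') : RunN m c w w' := by
  subst e e'; exact h

theorem RunN.seq {m : ℕ} {c d : Cmd ℕ} {v v' v'' : ℕ → ℕ} (h : RunN m c v v')
    (h' : RunN m d v' v'') : RunN m (Cmd.seq c d) v v'' := RunS.seq h h'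

theorem clrN {m r : ℕ} {v : ℕ → ℕ} (hb : BdN m v) : RunN m (clrP r) v (update v r 0) := by
  unfold RunN
  rw [Bs_update, Nat.zero_bits]
  exact clr_run _ _ rfl (bdN_iff.1 hb)

theorem cpN {m i r t : ℕ} (h1 : t ≠ i) (h2 : t ≠ r) (h3 : i ≠ r) {v : ℕ → ℕ} (ht : v t = 0)
    (hr : v r = 0) (hb : BdN m v) : RunN m (cpP i r t) v (update v r (v i)) := by
  unfold RunN
  rw [Bs_update]
  exact cp_run h1 h2 h3 _ (by simp [Bs, ht]) (by simp [Bs, hr]) (bdN_iff.1 hb)

theorem incN {m r t f : ℕ} (h1 : r ≠ t) (h2 : r ≠ f) (h3 : t ≠ f) {v : ℕ → ℕ} (ht : v t = 0)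
    (hf : v f = 0) (hb : BdN m v) (hl : (v r).size + 1 ≤ m) :
    RunN m (incP r t f) v (update v r (v r + 1)) := by
  unfold RunN
  rw [Bs_update, bits_succ]
  refine inc_run h1 h2 h3 _ (by simp [Bs, ht]) (by simp [Bs, hf]) (bdN_iff.1 hb) ?_
  change (v r).bits.length + 1 ≤ m
  rwa [Nat.size_eq_bits_len]

theorem decN {m r t f : ℕ} (h1 : r ≠ t) (h2 : r ≠ f) (h3 : t ≠ f) {v : ℕ → ℕ} (ht : v t = 0)
    (hf : v f = 0) (hb : BdN m v) (hr : v r ≠ 0) :
    RunN m (decP r t f) v (update v r (v r - 1)) := by
  unfold RunN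
  rw [Bs_update, bits_pred _ hr]
  have hm : 1 ≤ m := by
    have h4 := hb r
    have h5 : (v r).size ≠ 0 := fun h => hr (Nat.size_eq_zero.1 h)
    omega
  exact dec_run h1 h2 h3 hm _ (by simp [Bs, ht]) (by simp [Bs, hf]) (bdN_iff.1 hb)

/-- The total size of the first `k` arguments, plus one. -/
def tot (k : ℕ) (x : ℕ → ℕ) : ℕ := ∑ j ∈ Finset.range k, (x j).size + 1

theorem tot_pos (k : ℕ) (x : ℕ → ℕ) : 1 ≤ tot k x := by unfold tot; omega

theorem size_le_tot {k j : ℕ} (hj : j < k) (x : ℕ → ℕ) : (x j).size ≤ tot k x := by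
  unfold tot
  have := Finset.single_le_sum (f := fun j => (x j).size) (fun _ _ => Nat.zero_le _)
    (Finset.mem_range.2 hj)
  omega

theorem tot_congr {k : ℕ} {x y : ℕ → ℕ} (h : ∀ j < k, x j = y j) : tot k x = tot k y := by
  unfold tot
  rw [Finset.sum_congr rfl fun j hj => by rw [h j (Finset.mem_range.1 hj)]]

theorem tot_mono {k k' : ℕ} (h : k ≤ k') (x : ℕ → ℕ) : tot k x ≤ tot k' x := by
  unfold tot
  have := Finset.sum_le_sum_of_subset (f := fun j => (x j).size) (Finset.range_mono h)
  omega

/-- `F` depends on the first `k` arguments only and is computable in linear space. -/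
structure LF (k : ℕ) (F : (ℕ → ℕ) → ℕ) : Prop where
  dep : ∀ x y : ℕ → ℕ, (∀ j < k, x j = y j) → F x = F y
  run : ∃ C : ℕ, ∀ (ι : ℕ → ℕ) (r : ℕ), (∀ j < k, ι j < r) → ∃ c : Cmd ℕ, ∀ (v : ℕ → ℕ) (m : ℕ),
    (∀ i, r ≤ i → v i = 0) → BdN m v → C * tot k (v ∘ ι) ≤ m →
    RunN m c v (update v r (F (v ∘ ι)))

/-- The functions computable in linear space. -/
def L (F : (ℕ → ℕ) → ℕ) : Prop := ∃ k, LF k F

theorem LF.mono {k k' : ℕ} {F : (ℕ → ℕ) → ℕ} (h : LF k F) (hk : k ≤ k') : LF k' F := by
  refine ⟨fun x y hxy => h.dep x y fun j hj => hxy j (hj.trans_le hk), ?_⟩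
  obtain ⟨C, hC⟩ := h.run
  refine ⟨C, fun ι r hι => ?_⟩
  obtain ⟨c, hc⟩ := hC ι r fun j hj => hι j (hj.trans_le hk)
  exact ⟨c, fun v m h0 hb hm => hc v m h0 hb
    ((Nat.mul_le_mul_left C (tot_mono hk _)).trans hm)⟩

/-- The constant can be chosen to bound the size of the value, too. -/
theorem LF.run' {k : ℕ} {F : (ℕ → ℕ) → ℕ} (h : LF k F) :
    ∃ C : ℕ, 1 ≤ C ∧ (∀ x, (F x).size ≤ C * tot k x) ∧
    ∀ (ι : ℕ → ℕ) (r : ℕ), (∀ j < k, ι j < r) → ∃ c : Cmd ℕ, ∀ (v : ℕ → ℕ) (m : ℕ),
    (∀ i, r ≤ i → v i = 0) → BdN m v → C * tot k (v ∘ ι) ≤ m →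
    RunN m c v (update v r (F (v ∘ ι))) := by
  obtain ⟨C, hC⟩ := h.run
  refine ⟨C + 1, by omega, fun x => ?_, fun ι r hι => ?_⟩
  · obtain ⟨c, hc⟩ := hC id k fun j hj => hj
    set v : ℕ → ℕ := fun j => if j < k then x j else 0 with hv
    have e1 : ∀ j < k, (v ∘ id) j = x j := fun j hj => by simp [hv, hj]
    have h1 := hc v ((C + 1) * tot k x) (fun i hi => by simp [hv, hi]) (fun i => by
      rw [hv]
      simp only
      split_ifs with hi
      · exact (size_le_tot hi x).trans (Nat.le_mul_of_pos_left _ (by omega))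
      · simp) (by
      rw [tot_congr e1]
      exact Nat.mul_le_mul_right _ (by omega))
    have h2 := h1.right k
    rw [Function.update_self, h.dep _ _ e1] at h2
    exact h2
  · obtain ⟨c, hc⟩ := hC ι r hι
    exact ⟨c, fun v m h0 hb hm => hc v m h0 hb ((Nat.mul_le_mul_right _ (by omega)).trans hm)⟩

theorem L.var (i : ℕ) : L (fun x => x i) := by
  refine ⟨i + 1, fun x y h => h i (by omega), 1, fun ι r hι => ⟨cpP (ι i) r (r + 1), ?_⟩⟩
  intro v m h0 hb hm
  have h1 := hι i (by omega)
  exact cpN (by omega) (by omega) (by omega) (h0 _ (by omega)) (h0 _ le_rfl) hb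

theorem L.zero : L (fun _ => 0) := by
  refine ⟨0, fun x y h => rfl, 0, fun ι r _ => ⟨Cmd.skip, ?_⟩⟩
  intro v m h0 hb _
  have e : update v r 0 = v := by
    rw [← h0 r le_rfl, Function.update_eq_self]
  rw [e]
  exact RunS.skip _ (bdN_iff.1 hb)

theorem size_succ_le (n : ℕ) : (n + 1).size ≤ n.size + 1 := by
  rw [Nat.size_le]
  have := Nat.lt_size_self n
  rw [pow_succ]
  omega

theorem L.succ {F : (ℕ → ℕ) → ℕ} (hF : L F) : L (fun x => F x + 1) := by
  obtain ⟨k, hF⟩ := hF
  obtain ⟨C, hC1, hCs, hC⟩ := hF.run'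
  refine ⟨k, fun x y h => by rw [hF.dep x y h], C + 1, fun ι r hι => ?_⟩
  obtain ⟨c, hc⟩ := hC ι r hι
  refine ⟨Cmd.seq c (incP r (r + 1) (r + 2)), fun v m h0 hb hm => ?_⟩
  have ht := tot_pos k (v ∘ ι)
  have h1 := hc v m h0 hb (by nlinarith)
  have h2 := incN (m := m) (r := r) (t := r + 1) (f := r + 2) (by omega) (by omega) (by omega)
    (v := update v r (F (v ∘ ι)))
    (by rw [Function.update_of_ne (by omega)]; exact h0 _ (by omega))
    (by rw [Function.update_of_ne (by omega)]; exact h0 _ (by omega)) h1.right (by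
      rw [Function.update_self]
      have := hCs (v ∘ ι)
      nlinarith)
  rw [Function.update_self, Function.update_idem] at h2
  exact h1.seq h2

/-- Finitely many functions into consecutive registers. -/
theorem multi {K C : ℕ} {g : ℕ → (ℕ → ℕ) → ℕ} {ι : ℕ → ℕ} {r : ℕ} (hι : ∀ j < K, ι j < r) (n : ℕ)
    (hd : ∀ j < n, ∀ x y : ℕ → ℕ, (∀ i < K, x i = y i) → g j x = g j y)
    (hg : ∀ j < n, ∀ (r' : ℕ), (∀ j < K, ι j < r') → ∃ c : Cmd ℕ,
      ∀ (v : ℕ → ℕ) (m : ℕ), (∀ i, r' ≤ i → v i = 0) → BdN m v → C * tot K (v ∘ ι) ≤ m →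
      RunN m c v (update v r' (g j (v ∘ ι)))) :
    ∃ c : Cmd ℕ, ∀ (v : ℕ → ℕ) (m : ℕ), (∀ i, r ≤ i → v i = 0) → BdN m v →
      C * tot K (v ∘ ι) ≤ m →
      RunN m c v (fun i => if r ≤ i ∧ i < r + n then g (i - r) (v ∘ ι) else v i) := by
  induction n with
  | zero =>
    refine ⟨Cmd.skip, fun v m _ hb _ => ?_⟩
    have e : (fun i => if r ≤ i ∧ i < r + 0 then g (i - r) (v ∘ ι) else v i) = v := by
      funext i
      rw [if_neg (by omega)]
    rw [e]
    exact RunS.skip _ (bdN_iff.1 hb)
  | succ n ih =>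
    obtain ⟨c, hc⟩ := ih (fun j hj => hd j (by omega)) fun j hj => hg j (by omega)
    obtain ⟨c', hc'⟩ := hg n (by omega) (r + n) fun j hj => (hι j hj).trans_le (by omega)
    refine ⟨Cmd.seq c c', fun v m h0 hb hm => ?_⟩
    have h1 := hc v m h0 hb hm
    set w : ℕ → ℕ := fun i => if r ≤ i ∧ i < r + n then g (i - r) (v ∘ ι) else v i with hw
    have e1 : ∀ j < K, (w ∘ ι) j = (v ∘ ι) j := by
      intro j hj
      have := hι j hj
      simp only [hw, Function.comp]
      rw [if_neg (by omega)]
    have h2 := hc' w m (fun i hi => by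
      simp only [hw]
      rw [if_neg (by omega)]
      exact h0 i (by omega)) h1.right (by rwa [tot_congr e1])
    refine (h1.seq h2).conv rfl ?_
    rw [hd n (by omega) _ _ e1]
    funext i
    by_cases hi : i = r + n
    · subst hi
      rw [Function.update_self, if_pos (by omega)]
      congr 1
      omega
    · rw [Function.update_of_ne hi]
      simp only [hw]
      by_cases hi2 : r ≤ i ∧ i < r + n
      · rw [if_pos hi2, if_pos (by omega)]
      · rw [if_neg hi2, if_neg (by omega)]

/-- Clearing consecutive registers. -/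
theorem clrs (r n : ℕ) : ∃ c : Cmd ℕ, ∀ (v : ℕ → ℕ) (m : ℕ), BdN m v →
    RunN m c v (fun i => if r ≤ i ∧ i < r + n then 0 else v i) := by
  induction n with
  | zero =>
    refine ⟨Cmd.skip, fun v m hb => ?_⟩
    have e : (fun i => if r ≤ i ∧ i < r + 0 then 0 else v i) = v := by
      funext i
      rw [if_neg (by omega)]
    rw [e]
    exact RunS.skip _ (bdN_iff.1 hb)
  | succ n ih =>
    obtain ⟨c, hc⟩ := ih
    refine ⟨Cmd.seq c (clrP (r + n)), fun v m hb => ?_⟩
    have h1 := hc v m hb
    refine (h1.seq (clrN (r := r + n) h1.right)).conv rfl ?_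
    funext i
    by_cases hi : i = r + n
    · subst hi
      rw [Function.update_self, if_pos (by omega)]
    · rw [Function.update_of_ne hi]
      by_cases hi2 : r ≤ i ∧ i < r + n
      · rw [if_pos hi2, if_pos (by omega)]
      · rw [if_neg hi2, if_neg (by omega)]

theorem L.subst {F : (ℕ → ℕ) → ℕ} (hF : L F) {g : ℕ → (ℕ → ℕ) → ℕ} (hg : ∀ j, L (g j)) :
    L (fun x => F (fun j => g j x)) := by
  obtain ⟨k, hF⟩ := hF
  obtain ⟨CF, hF1, hFs, hFr⟩ := hF.run'
  have hK : ∀ n, ∃ K, ∀ j < n, LF K (g j) := by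
    intro n
    induction n with
    | zero => exact ⟨0, fun j hj => absurd hj (by omega)⟩
    | succ n ih =>
      obtain ⟨K, hK⟩ := ih
      obtain ⟨K', hK'⟩ := hg n
      refine ⟨max K K', fun j hj => ?_⟩
      rcases Nat.lt_succ_iff_lt_or_eq.1 hj with h | rfl
      · exact (hK j h).mono (le_max_left _ _)
      · exact hK'.mono (le_max_right _ _)
  obtain ⟨K, hK⟩ := hK k
  have hCg : ∀ n ≤ k, ∃ C, 1 ≤ C ∧ (∀ j < n, ∀ x, (g j x).size ≤ C * tot K x) ∧
      ∀ j < n, ∀ (ι : ℕ → ℕ) (r : ℕ), (∀ j < K, ι j < r) → ∃ c : Cmd ℕ, ∀ (v : ℕ → ℕ) (m : ℕ),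
      (∀ i, r ≤ i → v i = 0) → BdN m v → C * tot K (v ∘ ι) ≤ m →
      RunN m c v (update v r (g j (v ∘ ι))) := by
    intro n
    induction n with
    | zero => exact fun _ => ⟨1, le_rfl, fun j hj => absurd hj (by omega),
        fun j hj => absurd hj (by omega)⟩
    | succ n ih =>
      intro hn
      obtain ⟨C, hC1, hC2, hC3⟩ := ih (by omega)
      obtain ⟨C', hC1', hC2', hC3'⟩ := (hK n (by omega)).run'
      refine ⟨max C C', by omega, fun j hj x => ?_, fun j hj ι r hι => ?_⟩
      · rcases Nat.lt_succ_iff_lt_or_eq.1 hj with h | rfl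
        · exact (hC2 j h x).trans (Nat.mul_le_mul_right _ (le_max_left _ _))
        · exact (hC2' x).trans (Nat.mul_le_mul_right _ (le_max_right _ _))
      · rcases Nat.lt_succ_iff_lt_or_eq.1 hj with h | rfl
        · obtain ⟨c, hc⟩ := hC3 j h ι r hι
          exact ⟨c, fun v m h0 hb hm => hc v m h0 hb
            ((Nat.mul_le_mul_right _ (le_max_left _ _)).trans hm)⟩
        · obtain ⟨c, hc⟩ := hC3' ι r hι
          exact ⟨c, fun v m h0 hb hm => hc v m h0 hb
            ((Nat.mul_le_mul_right _ (le_max_right _ _)).trans hm)⟩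
  obtain ⟨C, hC1, hCs, hCr⟩ := hCg k le_rfl
  refine ⟨K, fun x y hxy => hF.dep _ _ fun j hj => (hK j hj).dep x y hxy,
    CF * (k * C + 1) + C, fun ι r hι => ?_⟩
  obtain ⟨c1, h1⟩ := multi (C := C) (g := g) hι k (fun j hj => (hK j hj).dep)
    fun j hj r' hr' => hCr j hj ι r' hr'
  obtain ⟨c2, h2⟩ := hFr (fun j => r + j) (r + k + 1) fun j hj => by omega
  obtain ⟨c3, h3⟩ := clrs r k
  refine ⟨Cmd.seq c1 (Cmd.seq c2 (Cmd.seq c3 (Cmd.seq (cpP (r + k + 1) r (r + k + 2))
    (clrP (r + k + 1))))), fun v m h0 hb hm => ?_⟩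
  have ht := tot_pos K (v ∘ ι)
  have k1 := h1 v m h0 hb ((Nat.mul_le_mul_right _ (Nat.le_add_left _ _)).trans hm)
  set w1 : ℕ → ℕ := fun i => if r ≤ i ∧ i < r + k then g (i - r) (v ∘ ι) else v i with hw1
  have e1 : ∀ j < k, (w1 ∘ fun j => r + j) j = g j (v ∘ ι) := by
    intro j hj
    simp only [hw1, Function.comp]
    rw [if_pos (by omega)]
    congr 1
    omega
  have e2 : tot k (w1 ∘ fun j => r + j) ≤ (k * C + 1) * tot K (v ∘ ι) := by
    rw [tot_congr e1]
    unfold tot
    have : ∑ j ∈ Finset.range k, (g j (v ∘ ι)).size ≤ ∑ _j ∈ Finset.range k, C * tot K (v ∘ ι) :=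
      Finset.sum_le_sum fun j hj => hCs j (Finset.mem_range.1 hj) _
    rw [Finset.sum_const, Finset.card_range, smul_eq_mul] at this
    calc ∑ j ∈ Finset.range k, (g j (v ∘ ι)).size + 1 ≤ k * (C * tot K (v ∘ ι)) + tot K (v ∘ ι) :=
          Nat.add_le_add this ht
      _ = (k * C + 1) * tot K (v ∘ ι) := by ring
  have k2 := h2 w1 m (fun i hi => by
    simp only [hw1]
    rw [if_neg (by omega)]
    exact h0 i (by omega)) k1.right (by
      calc CF * tot k (w1 ∘ fun j => r + j) ≤ CF * ((k * C + 1) * tot K (v ∘ ι)) :=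
            Nat.mul_le_mul_left _ e2
        _ = CF * (k * C + 1) * tot K (v ∘ ι) := by ring
        _ ≤ (CF * (k * C + 1) + C) * tot K (v ∘ ι) :=
            Nat.mul_le_mul_right _ (Nat.le_add_right _ _)
        _ ≤ m := hm)
  have e3 : F (w1 ∘ fun j => r + j) = F (fun j => g j (v ∘ ι)) := hF.dep _ _ e1
  rw [e3] at k2
  set w2 := update w1 (r + k + 1) (F (fun j => g j (v ∘ ι))) with hw2
  have k3 := h3 w2 m k2.right
  set w3 : ℕ → ℕ := fun i => if r ≤ i ∧ i < r + k then 0 else w2 i with hw3
  have z1 : w3 (r + k + 2) = 0 := by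
    simp only [hw3, hw2, hw1]
    rw [if_neg (by omega), Function.update_of_ne (by omega), if_neg (by omega)]
    exact h0 _ (by omega)
  have z2 : w3 r = 0 := by
    simp only [hw3, hw2, hw1]
    by_cases hk : k = 0
    · rw [if_neg (by omega), Function.update_of_ne (by omega), if_neg (by omega)]
      exact h0 _ (by omega)
    · rw [if_pos (by omega)]
  have z3 : w3 (r + k + 1) = F (fun j => g j (v ∘ ι)) := by
    simp only [hw3, hw2]
    rw [if_neg (by omega), Function.update_self]
  have k4 := cpN (m := m) (i := r + k + 1) (r := r) (t := r + k + 2) (by omega) (by omega)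
    (by omega) z1 z2 k3.right
  rw [z3] at k4
  have k5 := clrN (r := r + k + 1) k4.right
  refine (k1.seq (k2.seq (k3.seq (k4.seq k5)))).conv rfl ?_
  funext i
  by_cases hi1 : i = r
  · subst hi1
    rw [Function.update_of_ne (by omega), Function.update_self, Function.update_self]
  · by_cases hi2 : i = r + k + 1
    · subst hi2
      rw [Function.update_self, Function.update_of_ne (by omega)]
      exact (h0 _ (by omega)).symm
    · rw [Function.update_of_ne hi2, Function.update_of_ne hi1, Function.update_of_ne hi1]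
      simp only [hw3, hw2, hw1]
      by_cases hi3 : r ≤ i ∧ i < r + k
      · rw [if_pos hi3]
        exact (h0 _ hi3.1).symm
      · rw [if_neg hi3, Function.update_of_ne hi2, if_neg hi3]

/-- Two new arguments in front. -/
def cons2 (y i : ℕ) (x : ℕ → ℕ) : ℕ → ℕ
  | 0 => y
  | 1 => i
  | j + 2 => x j

theorem tot_cons2 (k y i : ℕ) (x : ℕ → ℕ) :
    tot (k + 2) (cons2 y i x) = y.size + i.size + tot k x := by
  unfold tot
  rw [Finset.sum_range_succ', Finset.sum_range_succ']
  simp only [cons2]
  omega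

theorem size_mono {a b : ℕ} (h : a ≤ b) : a.size ≤ b.size := Nat.size_le_size h

theorem L.rec {G N H : (ℕ → ℕ) → ℕ} (hG : L G) (hN : L N) (hH : L H)
    (hb : ∃ C k, ∀ x, ∀ i ≤ N x,
      (Nat.rec (motive := fun _ => ℕ) (G x) (fun i y => H (cons2 y i x)) i : ℕ).size ≤
        C * tot k x) :
    L (fun x => Nat.rec (motive := fun _ => ℕ) (G x) (fun i y => H (cons2 y i x)) (N x)) := by
  obtain ⟨kG, hG⟩ := hG
  obtain ⟨kN, hN⟩ := hN
  obtain ⟨kH, hH⟩ := hH
  obtain ⟨Cv, kv, hv⟩ := hb
  set K := max (max kG kN) (max kH kv) with hKdef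
  replace hG := hG.mono (k' := K) (by omega)
  replace hN := hN.mono (k' := K) (by omega)
  replace hH := hH.mono (k' := K + 2) (by omega)
  replace hv : ∀ x, ∀ i ≤ N x,
      (Nat.rec (motive := fun _ => ℕ) (G x) (fun i y => H (cons2 y i x)) i : ℕ).size ≤
        Cv * tot K x := fun x i hi =>
    (hv x i hi).trans (Nat.mul_le_mul_left _ (tot_mono (by omega) x))
  obtain ⟨CG, hG1, hGs, hGr⟩ := hG.run'
  obtain ⟨CN, hN1, hNs, hNr⟩ := hN.run'
  obtain ⟨CH, hH1, hHs, hHr⟩ := hH.run'
  have hdH : ∀ x y : ℕ → ℕ, (∀ j < K, x j = y j) → ∀ a b, H (cons2 a b x) = H (cons2 a b y) := by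
    intro x y hxy a b
    refine hH.dep _ _ fun j hj => ?_
    match j, hj with
    | 0, _ => rfl
    | 1, _ => rfl
    | j + 2, hj => exact hxy j (by omega)
  set val : (ℕ → ℕ) → ℕ → ℕ := fun x i =>
    Nat.rec (motive := fun _ => ℕ) (G x) (fun i y => H (cons2 y i x)) i with hval
  have hdv : ∀ x y : ℕ → ℕ, (∀ j < K, x j = y j) → ∀ i, val x i = val y i := by
    intro x y hxy i
    induction i with
    | zero => exact hG.dep x y hxy
    | succ i ih =>
      change H (cons2 (val x i) i x) = H (cons2 (val y i) i y)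
      rw [ih, hdH x y hxy]
  refine ⟨K, fun x y hxy => ?_, CG + CN + 1 + CH * (Cv + CN + 1) + Cv, fun ι r hι => ?_⟩
  · change val x (N x) = val y (N y)
    rw [hN.dep x y hxy, hdv x y hxy]
  obtain ⟨c1, h1⟩ := hNr ι r hι
  obtain ⟨c2, h2⟩ := hGr ι (r + 1) fun j hj => (hι j hj).trans (by omega)
  obtain ⟨c3, h3⟩ := hHr (cons2 (r + 1) (r + 2) ι) (r + 3) (by
    intro j hj
    match j, hj with
    | 0, _ => simp only [cons2]; omega
    | 1, _ => simp only [cons2]; omega
    | j + 2, hj =>
      have := hι j (by omega)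
      simp only [cons2]; omega)
  set body := Cmd.seq c3 (Cmd.seq (clrP (r + 1)) (Cmd.seq (cpP (r + 3) (r + 1) (r + 4))
    (Cmd.seq (clrP (r + 3)) (Cmd.seq (incP (r + 2) (r + 3) (r + 4)) (decP r (r + 3) (r + 4))))))
    with hbody
  refine ⟨Cmd.seq c1 (Cmd.seq c2 (Cmd.seq (Cmd.loop r body) (Cmd.seq (clrP (r + 2))
    (Cmd.seq (cpP (r + 1) r (r + 2)) (clrP (r + 1)))))), fun v m h0 hb hm => ?_⟩
  set x := v ∘ ι with hx
  have ht := tot_pos K x
  have hm1 : CG * tot K x ≤ m := (Nat.mul_le_mul_right _ (by omega)).trans hm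
  have hm2 : (CN + 1) * tot K x ≤ m := (Nat.mul_le_mul_right _ (by omega)).trans hm
  have hm3 : CH * (Cv + CN + 1) * tot K x ≤ m := (Nat.mul_le_mul_right _ (by omega)).trans hm
  have hm4 : Cv * tot K x ≤ m := (Nat.mul_le_mul_right _ (by omega)).trans hm
  have hNx := hNs x
  -- the states of the loop
  set st : ℕ → ℕ → ℕ → ℕ := fun n i =>
    update (update (update v r n) (r + 1) (val x i)) (r + 2) i with hst
  have loop : ∀ n i, n + i = N x → BdN m (st n i) → RunN m (Cmd.loop r body) (st n i)
      (st 0 (N x)) := by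
    intro n
    induction n with
    | zero =>
      intro i hi hbd
      have e : i = N x := by omega
      subst e
      refine RunS.loopNil ?_ (bdN_iff.1 hbd)
      simp [Bs, hst, Function.update_of_ne]
    | succ n ih =>
      intro i hi hbd
      have sr : st (n + 1) i r = n + 1 := by
        simp only [hst]
        rw [Function.update_of_ne (by omega), Function.update_of_ne (by omega),
          Function.update_self]
      have sr1 : st (n + 1) i (r + 1) = val x i := by
        simp only [hst]
        rw [Function.update_of_ne (by omega), Function.update_self]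
      have sr2 : st (n + 1) i (r + 2) = i := by
        simp only [hst]
        rw [Function.update_self]
      have shi : ∀ j, r + 3 ≤ j → st (n + 1) i j = 0 := by
        intro j hj
        simp only [hst]
        rw [Function.update_of_ne (by omega), Function.update_of_ne (by omega),
          Function.update_of_ne (by omega)]
        exact h0 j (by omega)
      have e1 : ∀ j < K + 2, (st (n + 1) i ∘ cons2 (r + 1) (r + 2) ι) j =
          cons2 (val x i) i x j := by
        intro j hj
        match j, hj with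
        | 0, _ => exact sr1
        | 1, _ => exact sr2
        | j + 2, hj =>
          have := hι j (by omega)
          simp only [hst, Function.comp, cons2, hx]
          rw [Function.update_of_ne (by omega), Function.update_of_ne (by omega),
            Function.update_of_ne (by omega)]
      have hi1 : i.size ≤ CN * tot K x := (size_mono (by omega)).trans hNx
      have hv1 := hv x i (by omega)
      have k1 := h3 (st (n + 1) i) m shi hbd (by
        rw [tot_congr e1, tot_cons2]
        have : (val x i).size + i.size + tot K x ≤ (Cv + CN + 1) * tot K x := by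
          have h5 : (val x i).size ≤ Cv * tot K x := hv1
          nlinarith
        calc CH * ((val x i).size + i.size + tot K x) ≤ CH * ((Cv + CN + 1) * tot K x) :=
              Nat.mul_le_mul_left _ this
          _ = CH * (Cv + CN + 1) * tot K x := by ring
          _ ≤ m := hm3)
      rw [hH.dep _ _ e1] at k1
      have ev : H (cons2 (val x i) i x) = val x (i + 1) := rfl
      rw [ev] at k1
      set w1 := update (st (n + 1) i) (r + 3) (val x (i + 1)) with hw1
      have k2 := clrN (r := r + 1) k1.right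
      set w2 := update w1 (r + 1) 0 with hw2
      have z1 : w2 (r + 4) = 0 := by
        rw [hw2, Function.update_of_ne (by omega), hw1, Function.update_of_ne (by omega)]
        exact shi _ (by omega)
      have z2 : w2 (r + 1) = 0 := by rw [hw2, Function.update_self]
      have z3 : w2 (r + 3) = val x (i + 1) := by
        rw [hw2, Function.update_of_ne (by omega), hw1, Function.update_self]
      have k3 := cpN (m := m) (i := r + 3) (r := r + 1) (t := r + 4) (by omega) (by omega)
        (by omega) z1 z2 k2.right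
      rw [z3] at k3
      set w3 := update w2 (r + 1) (val x (i + 1)) with hw3
      have k4 := clrN (r := r + 3) k3.right
      set w4 := update w3 (r + 3) 0 with hw4
      have y1 : w4 (r + 3) = 0 := by rw [hw4, Function.update_self]
      have y2 : w4 (r + 4) = 0 := by
        rw [hw4, Function.update_of_ne (by omega), hw3, Function.update_of_ne (by omega), z1]
      have y3 : w4 (r + 2) = i := by
        rw [hw4, Function.update_of_ne (by omega), hw3, Function.update_of_ne (by omega), hw2,
          Function.update_of_ne (by omega), hw1, Function.update_of_ne (by omega), sr2]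
      have y4 : w4 r = n + 1 := by
        rw [hw4, Function.update_of_ne (by omega), hw3, Function.update_of_ne (by omega), hw2,
          Function.update_of_ne (by omega), hw1, Function.update_of_ne (by omega), sr]
      have k5 := incN (m := m) (r := r + 2) (t := r + 3) (f := r + 4) (by omega) (by omega)
        (by omega) y1 y2 k4.right (by
          rw [y3]
          calc i.size + 1 ≤ CN * tot K x + tot K x := Nat.add_le_add hi1 ht
            _ = (CN + 1) * tot K x := by ring
            _ ≤ m := hm2)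
      rw [y3] at k5
      set w5 := update w4 (r + 2) (i + 1) with hw5
      have u1 : w5 (r + 3) = 0 := by rw [hw5, Function.update_of_ne (by omega), y1]
      have u2 : w5 (r + 4) = 0 := by rw [hw5, Function.update_of_ne (by omega), y2]
      have u3 : w5 r = n + 1 := by rw [hw5, Function.update_of_ne (by omega), y4]
      have k6 := decN (m := m) (r := r) (t := r + 3) (f := r + 4) (by omega) (by omega)
        (by omega) u1 u2 k5.right (by rw [u3]; omega)
      rw [u3, Nat.add_sub_cancel] at k6
      have e2 : update w5 r n = st n (i + 1) := by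
        funext j
        simp only [hw5, hw4, hw3, hw2, hw1, hst, Function.update_apply]
        by_cases j0 : j = r
        · subst j0; simp
        · by_cases j1 : j = r + 1
          · subst j1; simp
          · by_cases j2 : j = r + 2
            · subst j2; simp
            · by_cases j3 : j = r + 3
              · subst j3
                simp only [j0, j1, j2, if_false, if_true]
                exact (h0 _ (by omega)).symm
              · simp [j0, j1, j2, j3]
      rw [e2] at k6
      have k7 := ih (i + 1) (by omega) k6.right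
      refine RunS.loopCons ?_ (k1.seq (k2.seq (k3.seq (k4.seq (k5.seq k6))))) k7
      intro h
      have := bits_eq_nil.1 h
      rw [sr] at this
      omega
  have k1 := h1 v m h0 hb ((Nat.mul_le_mul_right _ (by omega)).trans hm2)
  set w1 := update v r (N x) with hw1
  have e1 : ∀ j < K, (w1 ∘ ι) j = x j := by
    intro j hj
    have := hι j hj
    simp only [hw1, Function.comp, hx]
    rw [Function.update_of_ne (by omega)]
  have k2 := h2 w1 m (fun i hi => by
    rw [hw1, Function.update_of_ne (by omega)]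
    exact h0 i (by omega)) k1.right (by rw [tot_congr e1]; exact hm1)
  rw [hG.dep _ _ e1] at k2
  have e2 : update w1 (r + 1) (G x) = st (N x) 0 := by
    funext j
    simp only [hw1, hst, Function.update_apply]
    by_cases j2 : j = r + 2
    · subst j2
      simp only [if_true]
      rw [if_neg (by omega), if_neg (by omega)]
      exact h0 _ (by omega)
    · simp only [j2, if_false]
      rfl
  rw [e2] at k2
  have k3 := loop (N x) 0 (by omega) k2.right
  have k4 := clrN (r := r + 2) k3.right
  set w4 := update (st 0 (N x)) (r + 2) 0 with hw4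
  have y1 : w4 (r + 2) = 0 := by rw [hw4, Function.update_self]
  have y2 : w4 r = 0 := by
    rw [hw4, Function.update_of_ne (by omega)]
    simp only [hst]
    rw [Function.update_of_ne (by omega), Function.update_of_ne (by omega), Function.update_self]
  have y3 : w4 (r + 1) = val x (N x) := by
    rw [hw4, Function.update_of_ne (by omega)]
    simp only [hst]
    rw [Function.update_of_ne (by omega), Function.update_self]
  have k5 := cpN (m := m) (i := r + 1) (r := r) (t := r + 2) (by omega) (by omega)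
    (by omega) y1 y2 k4.right
  rw [y3] at k5
  have k6 := clrN (r := r + 1) k5.right
  refine (k1.seq (k2.seq (k3.seq (k4.seq (k5.seq k6))))).conv rfl ?_
  funext j
  simp only [hw4, hst, Function.update_apply]
  by_cases j0 : j = r
  · subst j0; simp [hval]
  · by_cases j1 : j = r + 1
    · subst j1
      simp only [if_true]
      rw [if_neg (by omega)]
      exact (h0 _ (by omega)).symm
    · by_cases j2 : j = r + 2
      · subst j2
        simp only [j0, j1, if_false, if_true]
        exact (h0 _ (by omega)).symm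
      · simp [j0, j1, j2]

end Pool.Agent.V7H59.CT
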