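import Mathlib

/-!
# Linear space, and cellular automata

The definitions used in the statements.
-/

set_option autoImplicit false

namespace Pool.Agent.V7H59.CT

open Turing

/-- The space used by a configuration of a multi-stack machine: the total number of symbols on its
stacks. -/
def space {tm : FinTM2} (c : tm.Cfg) : ℕ :=
  letI := tm.kFin
  ∑ k, (c.stk k).length

/-- Deterministic linear space: some Turing machine (multi-stack machine of Mathlib) decides `L` (it
halts on every input `x`, with output `true` if `x ∈ L` and `false` otherwise), and for some constant
`C` no configuration reached from the input `x` uses more than `C (|x| + 1)` space. -/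
def InLinSpace (L : Set (List Bool)) : Prop :=
  ∃ (f : List Bool → Bool) (M : TM2Computable (id : List Bool → List Bool) (fun b : Bool => [b]) f)
    (C : ℕ), (∀ x, x ∈ L ↔ f x = true) ∧
      ∀ (x : List Bool) (c : M.tm.Cfg),
        StateTransition.Reaches M.tm.step (initList M.tm (x.map M.inputAlphabet.invFun)) c →
          space c ≤ C * (x.length + 1)

/-- A cellular automaton on `ℤ ^ d`, with a finite set `Q` of states. The new state of a cell
depends on the states of the `3 ^ d` cells around it, which are numbered by the functions
`v : Fin d → Fin 3`, the value `v i = 0, 1, 2` standing for the offset `-1, 0, 1` in direction `i`.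
The automaton also fixes how the inputs are written, and the accepting states. -/
structure CellAut (d : ℕ) where
  /-- the states -/
  Q : Type
  /-- there are finitely many states -/
  fin : Fintype Q
  /-- the local rule -/
  rule : ((Fin d → Fin 3) → Q) → Q
  /-- the states for the bits of the input -/
  input : Bool → Q
  /-- the state of the other cells at time `0` -/
  blank : Q
  /-- the accepting states -/
  acc : Set Q

attribute [instance] CellAut.fin

namespace CellAut

variable {d : ℕ} (M : CellAut d)

/-- One step of the automaton: all cells are updated at once. -/
def step (c : (Fin d → ℤ) → M.Q) : (Fin d → ℤ) → M.Q :=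
  fun z => M.rule fun v => c fun i => z i + ((v i : ℕ) : ℤ) - 1

/-- The configuration at time `0`: the input `x` is written on the cells `(0, 0, …, 0)`,
`(1, 0, …, 0)`, …, `(|x| - 1, 0, …, 0)`, all other cells are blank. -/
def start [NeZero d] (x : List Bool) : (Fin d → ℤ) → M.Q := fun z =>
  open Classical in
  if (∀ i, i ≠ 0 → z i = 0) ∧ 0 ≤ z 0 then (x[(z 0).toNat]?).elim M.blank M.input else M.blank

/-- On input `x`, the origin is in an accepting state after `t` steps. -/
def accepts [NeZero d] (x : List Bool) (t : ℕ) : Prop := (M.step^[t] (M.start x)) 0 ∈ M.acc

end CellAut

end Pool.Agent.V7H59.CT
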