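import Pool.Agent.V7H59.CT.Code

/-!
# The algorithm is correct for small times
-/

set_option autoImplicit false

namespace Pool.Agent.V7H59.CT

open Finset

theorem mX_spec {X : ℕ} (hq : qX X ≤ nX X) :
    1 ≤ mX X ∧ qX X ^ mX X ≤ nX X ∧ nX X < qX X ^ (mX X + 1) := by
  set n := nX X with hn
  set q := qX X with hq'
  have hq2 : 2 ≤ q := by rw [hq']; unfold qX; omega
  set P : ℕ → ℕ := fun i => if n < powT q (i + 1) (n + 1) then 1 else 0 with hP
  have hm : mX X = lfind P n := rfl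
  have h0 : ∀ i, P i ≠ 0 ↔ n < q ^ (i + 1) := by
    intro i
    simp only [hP]
    constructor
    · intro h
      by_contra h1
      apply h
      rw [if_neg]
      intro h2
      exact h1 (h2.trans_le (min_le_left _ _))
    · intro h
      rw [if_pos (show n < powT q (i + 1) (n + 1) from lt_min h (Nat.lt_succ_self n))]
      exact one_ne_zero
  obtain ⟨h1, h2⟩ := lfind_spec P n
  have h3 : lfind P n < n := by
    by_contra h4
    have h5 := h1 (n - 1) (by omega)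
    have h6 : n < q ^ (n - 1 + 1) := by
      have h7 : n - 1 + 1 = n := by omega
      rw [h7]
      exact Nat.lt_pow_self (by omega)
    exact (h0 _).2 h6 h5
  have h4 := (h0 _).1 (h2 h3)
  have h5 : 1 ≤ lfind P n := by
    by_contra h6
    have h7 : lfind P n = 0 := by omega
    rw [h7, zero_add, pow_one] at h4
    omega
  rw [hm]
  refine ⟨h5, ?_, h4⟩
  by_contra h6
  have h7 := h1 (lfind P n - 1) (by omega)
  apply (h0 _).2 _ h7
  rw [Nat.sub_add_cancel h5]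
  omega

theorem bX_spec {d X : ℕ} (hd : 1 ≤ d) (hq : (qX X).size ≤ nX X) :
    1 ≤ bX d X ∧ bX d X ^ d * (qX X).size ≤ nX X ∧ nX X < (bX d X + 1) ^ d * (qX X).size := by
  set n := nX X with hn
  set q := qX X with hq'
  have hq2 : 2 ≤ q := by rw [hq']; unfold qX; omega
  have hs : 1 ≤ q.size := by
    rw [Nat.one_le_iff_ne_zero, Ne, Nat.size_eq_zero]
    omega
  set P : ℕ → ℕ := fun i => if n < (i + 1) ^ d * sz q then 1 else 0 with hP
  have hm : bX d X = lfind P (n + 1) := rfl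
  have h0 : ∀ i, P i ≠ 0 ↔ n < (i + 1) ^ d * q.size := by
    intro i
    simp only [hP, sz_eq]
    constructor
    · intro h
      by_contra h1
      exact h (if_neg h1)
    · intro h
      rw [if_pos h]
      exact one_ne_zero
  obtain ⟨h1, h2⟩ := lfind_spec P (n + 1)
  have h3 : lfind P (n + 1) < n + 1 := by
    by_contra h4
    have h5 := h1 n (by omega)
    apply (h0 _).2 _ h5
    calc n < n + 1 := Nat.lt_succ_self n
      _ ≤ (n + 1) ^ d := Nat.le_self_pow (by omega) _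
      _ ≤ (n + 1) ^ d * q.size := Nat.le_mul_of_pos_right _ hs
  have h4 := (h0 _).1 (h2 h3)
  have h5 : 1 ≤ lfind P (n + 1) := by
    by_contra h6
    have h7 : lfind P (n + 1) = 0 := by omega
    rw [h7, zero_add, one_pow, one_mul] at h4
    omega
  rw [hm]
  refine ⟨h5, ?_, h4⟩
  by_contra h6
  have h7 := h1 (lfind P (n + 1) - 1) (by omega)
  apply (h0 _).2 _ h7
  rw [Nat.sub_add_cancel h5]
  omega

/-- The constant for the bound of all numbers. -/
def C1 (d c : ℕ) : ℕ := (4 * d + 6) * (2 * c) + (2 * c + 4 + d) * (d + 1) + (2 * d + 3)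

/-- The constant for the bound of all numbers. -/
def Cst (d c : ℕ) : ℕ := 16 * (C1 d c + 1) + (2 * d + 3) * (3 ^ d + 1) * 3

theorem three_pow_le (d : ℕ) : 3 ^ d ≤ 2 ^ (2 * d) := by
  rw [pow_mul]
  exact Nat.pow_le_pow_left (by norm_num) d

section

variable {d c n q t m b V p : ℕ} (hd : 1 ≤ d) (hq2 : 2 ≤ q) (hn : 1 ≤ n)
  (hm1 : 1 ≤ m) (hm2 : q ^ m ≤ n) (hm3 : n < q ^ (m + 1))
  (hb1 : 1 ≤ b) (hb2 : b ^ d * q.size ≤ n) (hb3 : n < (b + 1) ^ d * q.size)
  (hV : V = b ^ d / m + 1) (hp1 : p ≤ 2 * (3 ^ d * V * q ^ m + 1))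
  (ht : (t * n.size) ^ d * q.size ≤ c * n ^ (d + 1))

include hm1 hm3 in
theorem ell_le : n.size ≤ 2 * (m * q.size) := by
  have h1 : n < 2 ^ (q.size * (m + 1)) := by
    refine hm3.trans_le ?_
    rw [pow_mul]
    exact Nat.pow_le_pow_left (Nat.lt_size_self q).le _
  have h2 := Nat.size_le.2 h1
  nlinarith [Nat.mul_le_mul_left q.size hm1]

theorem size_le_self (n : ℕ) : n.size ≤ n := Nat.size_le.2 Nat.lt_two_pow_self

include hm1 hm3 hb2 hV in
theorem V_le : V * n.size ≤ 3 * n := by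
  have h1 := ell_le hm1 hm3
  have h2 : b ^ d / m * m ≤ b ^ d := Nat.div_mul_le_self _ _
  have h3 := size_le_self n
  rw [hV, Nat.succ_mul]
  have h4 : b ^ d / m * n.size ≤ 2 * n := by
    calc b ^ d / m * n.size ≤ b ^ d / m * (2 * (m * q.size)) := Nat.mul_le_mul_left _ h1
      _ = 2 * (b ^ d / m * m * q.size) := by ring
      _ ≤ 2 * (b ^ d * q.size) := Nat.mul_le_mul_left _ (Nat.mul_le_mul_right _ h2)
      _ ≤ 2 * n := Nat.mul_le_mul_left _ hb2
  omega

include hn in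
theorem one_le_size : 1 ≤ n.size := by
  rw [Nat.one_le_iff_ne_zero, Ne, Nat.size_eq_zero]
  omega

include hq2 in
theorem one_le_size' : 1 ≤ q.size := by
  rw [Nat.one_le_iff_ne_zero, Ne, Nat.size_eq_zero]
  omega

include hq2 hn hm2 hb2 hV hp1 in
theorem p_le : p ≤ 2 ^ ((2 * d + 3) * n.size) := by
  have hs := one_le_size' hq2
  have hl := one_le_size hn
  have h1 : b ^ d ≤ n := (Nat.le_mul_of_pos_right _ hs).trans hb2
  have h2 : V ≤ n + 1 := by
    rw [hV]
    exact Nat.succ_le_succ ((Nat.div_le_self _ _).trans h1)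
  have h3 : n + 1 ≤ 2 ^ n.size := Nat.lt_size_self n
  have h4 : V * q ^ m + 1 ≤ 2 ^ n.size * 2 ^ n.size := by
    calc V * q ^ m + 1 ≤ (n + 1) * n + 1 := Nat.succ_le_succ (Nat.mul_le_mul h2 hm2)
      _ ≤ (n + 1) * (n + 1) := by nlinarith
      _ ≤ 2 ^ n.size * 2 ^ n.size := Nat.mul_le_mul h3 h3
  have h5 : 1 ≤ 3 ^ d := Nat.one_le_pow _ _ (by norm_num)
  calc p ≤ 2 * (3 ^ d * V * q ^ m + 1) := hp1
    _ ≤ 2 * (3 ^ d * (V * q ^ m + 1)) := by
        refine Nat.mul_le_mul_left _ ?_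
        rw [mul_add, mul_one, mul_assoc]
        exact Nat.add_le_add_left h5 _
    _ ≤ 2 * (2 ^ (2 * d) * (2 ^ n.size * 2 ^ n.size)) :=
        Nat.mul_le_mul_left _ (Nat.mul_le_mul (three_pow_le d) h4)
    _ = 2 ^ (1 + (2 * d + (n.size + n.size))) := by
        rw [pow_add, pow_add, pow_add, pow_one]
    _ ≤ 2 ^ ((2 * d + 3) * n.size) := by
        refine Nat.pow_le_pow_right (by norm_num) ?_
        nlinarith

include hq2 hn hm2 hb2 hV hp1 in
theorem K_le : (p - 1) * (2 * 3 ^ d + 3) ≤ 2 ^ ((4 * d + 6) * n.size) := by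
  have hl := one_le_size hn
  have h1 := p_le hq2 hn hm2 hb2 hV hp1
  have h2 : 2 * 3 ^ d + 3 ≤ 2 ^ (2 * d + 3) := by
    have h3 := three_pow_le d
    have h4 : 1 ≤ 2 ^ (2 * d) := Nat.one_le_pow _ _ (by norm_num)
    rw [pow_add]
    omega
  calc (p - 1) * (2 * 3 ^ d + 3) ≤ p * (2 * 3 ^ d + 3) := Nat.mul_le_mul_right _ (Nat.sub_le _ _)
    _ ≤ 2 ^ ((2 * d + 3) * n.size) * 2 ^ (2 * d + 3) := Nat.mul_le_mul h1 h2
    _ = 2 ^ ((2 * d + 3) * n.size + (2 * d + 3)) := (pow_add _ _ _).symm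
    _ ≤ 2 ^ ((4 * d + 6) * n.size) := by
        refine Nat.pow_le_pow_right (by norm_num) ?_
        nlinarith

include hd hn hb1 hb3 ht in
theorem h_le : t / b * n.size ≤ 2 * c * n := by
  set h := t / b with hh
  have h1 : h * b ≤ t := Nat.div_mul_le_self t b
  have h2 : n ≤ (2 * b) ^ d * q.size := by
    refine hb3.le.trans (Nat.mul_le_mul_right _ (Nat.pow_le_pow_left (by omega) d))
  have h3 : (h * n.size) ^ d * n ≤ (2 * c * n) ^ d * n := by
    calc (h * n.size) ^ d * n ≤ (h * n.size) ^ d * ((2 * b) ^ d * q.size) :=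
          Nat.mul_le_mul_left _ h2
      _ = 2 ^ d * ((h * b * n.size) ^ d * q.size) := by
          rw [mul_pow, mul_pow, mul_pow, mul_pow]
          ring
      _ ≤ 2 ^ d * ((t * n.size) ^ d * q.size) := by
          refine Nat.mul_le_mul_left _ (Nat.mul_le_mul_right _ (Nat.pow_le_pow_left ?_ d))
          exact Nat.mul_le_mul_right _ h1
      _ ≤ 2 ^ d * (c * n ^ (d + 1)) := Nat.mul_le_mul_left _ ht
      _ ≤ 2 ^ d * (c ^ d * n ^ (d + 1)) := by
          refine Nat.mul_le_mul_left _ (Nat.mul_le_mul_right _ ?_)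
          exact Nat.le_self_pow (by omega) c
      _ = (2 * c * n) ^ d * n := by
          rw [mul_pow, mul_pow, pow_succ]
          ring
  have h4 : (h * n.size) ^ d ≤ (2 * c * n) ^ d := Nat.le_of_mul_le_mul_right h3 hn
  exact (Nat.pow_le_pow_iff_left (by omega)).1 h4

include hq2 hn hm2 hb2 hV hp1 hd hb1 hb3 ht in
theorem Kh_le : ((p - 1) * (2 * 3 ^ d + 3)) ^ (t / b) ≤ 2 ^ (C1 d c * n) := by
  have h1 := K_le hq2 hn hm2 hb2 hV hp1
  have h2 := h_le hd hn hb1 hb3 ht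
  calc ((p - 1) * (2 * 3 ^ d + 3)) ^ (t / b) ≤ (2 ^ ((4 * d + 6) * n.size)) ^ (t / b) :=
        Nat.pow_le_pow_left h1 _
    _ = 2 ^ ((4 * d + 6) * n.size * (t / b)) := (pow_mul _ _ _).symm
    _ ≤ 2 ^ (C1 d c * n) := by
        refine Nat.pow_le_pow_right (by norm_num) ?_
        calc (4 * d + 6) * n.size * (t / b) = (4 * d + 6) * (t / b * n.size) := by ring
          _ ≤ (4 * d + 6) * (2 * c * n) := Nat.mul_le_mul_left _ h2
          _ = (4 * d + 6) * (2 * c) * n := by ring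
          _ ≤ C1 d c * n := Nat.mul_le_mul_right _ (by unfold C1; omega)

include hd hq2 hn ht in
theorem t_le : t ≤ c * n ^ (d + 1) := by
  have h1 : t ≤ (t * n.size) ^ d * q.size := by
    calc t ≤ t * n.size := Nat.le_mul_of_pos_right _ (one_le_size hn)
      _ ≤ (t * n.size) ^ d := Nat.le_self_pow (by omega) _
      _ ≤ _ := Nat.le_mul_of_pos_right _ (one_le_size' hq2)
  exact h1.trans ht

include hd hq2 hn ht in
theorem W_le : (2 * t + 3) ^ (d + 1) ≤ 2 ^ (C1 d c * n) := by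
  have h1 := t_le hd hq2 hn ht
  have h2 : n ^ (d + 1) ≤ 2 ^ (n * (d + 1)) := by
    rw [pow_mul]
    exact Nat.pow_le_pow_left Nat.lt_two_pow_self.le _
  have h3 : 2 * c + 3 ≤ 2 ^ (2 * c + 3) := Nat.lt_two_pow_self.le
  have h4 : 1 ≤ n ^ (d + 1) := Nat.one_le_pow _ _ hn
  have h5 : 2 * t + 3 ≤ 2 ^ ((2 * c + 4 + d) * n) := by
    calc 2 * t + 3 ≤ (2 * c + 3) * n ^ (d + 1) := by nlinarith
      _ ≤ 2 ^ (2 * c + 3) * 2 ^ (n * (d + 1)) := Nat.mul_le_mul h3 h2
      _ = 2 ^ (2 * c + 3 + n * (d + 1)) := (pow_add _ _ _).symm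
      _ ≤ 2 ^ ((2 * c + 4 + d) * n) := by
          refine Nat.pow_le_pow_right (by norm_num) ?_
          nlinarith
  calc (2 * t + 3) ^ (d + 1) ≤ (2 ^ ((2 * c + 4 + d) * n)) ^ (d + 1) := Nat.pow_le_pow_left h5 _
    _ = 2 ^ ((2 * c + 4 + d) * n * (d + 1)) := (pow_mul _ _ _).symm
    _ ≤ 2 ^ (C1 d c * n) := by
        refine Nat.pow_le_pow_right (by norm_num) ?_
        calc (2 * c + 4 + d) * n * (d + 1) = (2 * c + 4 + d) * (d + 1) * n := by ring
          _ ≤ C1 d c * n := Nat.mul_le_mul_right _ (by unfold C1; omega)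

include hq2 hn hm1 hm2 hm3 hb2 hV hp1 in
theorem pNR_le : p ^ ((3 ^ d + 1) * V) ≤ 2 ^ ((2 * d + 3) * (3 ^ d + 1) * 3 * n) := by
  have h1 := p_le hq2 hn hm2 hb2 hV hp1
  have h2 := V_le hm1 hm3 hb2 hV
  calc p ^ ((3 ^ d + 1) * V) ≤ (2 ^ ((2 * d + 3) * n.size)) ^ ((3 ^ d + 1) * V) :=
        Nat.pow_le_pow_left h1 _
    _ = 2 ^ ((2 * d + 3) * n.size * ((3 ^ d + 1) * V)) := (pow_mul _ _ _).symm
    _ ≤ _ := by
        refine Nat.pow_le_pow_right (by norm_num) ?_
        calc (2 * d + 3) * n.size * ((3 ^ d + 1) * V) =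
            (2 * d + 3) * (3 ^ d + 1) * (V * n.size) := by ring
          _ ≤ (2 * d + 3) * (3 ^ d + 1) * (3 * n) := Nat.mul_le_mul_left _ h2
          _ = _ := by ring

include hb2 in
theorem qN_le : q ^ (3 ^ d * b ^ d) ≤ 2 ^ (3 ^ d * n) := by
  calc q ^ (3 ^ d * b ^ d) ≤ (2 ^ q.size) ^ (3 ^ d * b ^ d) :=
        Nat.pow_le_pow_left (Nat.lt_size_self q).le _
    _ = 2 ^ (q.size * (3 ^ d * b ^ d)) := (pow_mul _ _ _).symm
    _ ≤ _ := by
        refine Nat.pow_le_pow_right (by norm_num) ?_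
        calc q.size * (3 ^ d * b ^ d) = 3 ^ d * (b ^ d * q.size) := by ring
          _ ≤ 3 ^ d * n := Nat.mul_le_mul_left _ hb2

end

end Pool.Agent.V7H59.CT
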