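import Pool.Agent.V7H59.CT.Corr

/-!
# The simulation of cellular automata
-/

set_option autoImplicit false

namespace Pool.Agent.V7H59.CT

open Finset

/-- The number of a neighbour. -/
def codeV {d : ℕ} (v : Fin d → Fin 3) : ℕ := ∑ t : Fin d, (v t : ℕ) * 3 ^ (t : ℕ)

theorem codeV_eq {d : ℕ} (v : Fin d → Fin 3) :
    codeV v = ∑ t ∈ range d, (if h : t < d then (v ⟨t, h⟩ : ℕ) else 0) % 3 * 3 ^ t := by
  unfold codeV
  rw [Finset.sum_range]
  refine sum_congr rfl fun t _ => ?_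
  rw [dif_pos t.2, Nat.mod_eq_of_lt (v t).2]

theorem codeV_lt {d : ℕ} (v : Fin d → Fin 3) : codeV v < 3 ^ d := by
  rw [codeV_eq]
  exact sum_digits_lt (by norm_num) d _

theorem codeV_digit {d : ℕ} (v : Fin d → Fin 3) {t : ℕ} (ht : t < d) :
    codeV v / 3 ^ t % 3 = v ⟨t, ht⟩ := by
  rw [codeV_eq, digit_sum (by norm_num) d (fun t => if h : t < d then (v ⟨t, h⟩ : ℕ) else 0) ht,
    dif_pos ht, Nat.mod_eq_of_lt (v _).2]

/-- A coding of the automaton by numbers. -/
structure Coding {d : ℕ} (M : CellAut d) (q : ℕ) where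
  /-- the code of a state -/
  enc : M.Q → ℕ
  /-- the state with a given code -/
  dec : ℕ → M.Q
  enc_lt : ∀ s, enc s < q
  dec_enc : ∀ s, dec (enc s) = s

namespace Coding

variable {d : ℕ} {M : CellAut d} {q : ℕ} (κ : Coding M q)

/-- The table of the automaton. -/
def tab : ℕ :=
  ∑ j ∈ range (q ^ 3 ^ d), κ.enc (M.rule fun v => κ.dec (dgt q j (codeV v))) % q * q ^ j

open Classical in
/-- The accepting states. -/
noncomputable def am : ℕ := ∑ j ∈ range q, (if κ.dec j ∈ M.acc then 1 else 0) % 2 * 2 ^ j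

theorem dgt_tab (hq : 0 < q) {y : ℕ} (hy : y < q ^ 3 ^ d) :
    dgt q κ.tab y = κ.enc (M.rule fun v => κ.dec (dgt q y (codeV v))) := by
  rw [dgt_eq]
  unfold tab
  rw [digit_sum hq _ (fun j => κ.enc (M.rule fun v => κ.dec (dgt q j (codeV v)))) hy,
    Nat.mod_eq_of_lt (κ.enc_lt _)]

theorem dgt_am (s : M.Q) : dgt 2 κ.am (κ.enc s) = 0 ↔ s ∉ M.acc := by
  classical
  rw [dgt_eq]
  unfold am
  rw [digit_sum (by norm_num) q (fun j => if κ.dec j ∈ M.acc then 1 else 0) (κ.enc_lt s),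
    κ.dec_enc]
  by_cases h : s ∈ M.acc <;> simp [h]

/-- The linear arrangement of the automaton simulates the automaton. -/
theorem lin_eq (hq : 0 < q) {W T : ℕ} {A0 : ℕ → ℕ} {c : (Fin d → ℤ) → M.Q}
    (hW3 : 3 ≤ W)
    (h0 : ∀ Q < W ^ d, A0 Q = κ.enc (c fun i => ((Q / W ^ (i : ℕ) % W : ℕ) : ℤ) - T)) :
    ∀ t ≤ T, ∀ Q < W ^ d, (∀ i < d, Q / W ^ i % W + 2 * t < W) →
      lin d q κ.tab W A0 t Q =
        κ.enc ((M.step^[t] c) fun i => ((Q / W ^ (i : ℕ) % W : ℕ) : ℤ) - (T - t)) := by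
  intro t
  induction t with
  | zero =>
    intro _ Q hQ _
    rw [lin, h0 Q hQ]
    simp
  | succ t ih =>
    intro ht Q hQ hw
    have ih' := ih (by omega)
    rw [lin]
    set s : ℕ → ℕ := fun i => lin d q κ.tab W A0 t (Q + rb d 3 W i) with hs
    have hc : ∀ i, ∀ t' < d, Q / W ^ t' % W + i / 3 ^ t' % 3 < W := by
      intro i t' ht'
      have h1 := hw t' ht'
      have h2 : i / 3 ^ t' % 3 < 3 := Nat.mod_lt _ (by norm_num)
      omega
    have hs2 : ∀ i, s i = κ.enc ((M.step^[t] c) fun j =>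
        (((Q / W ^ (j : ℕ) % W + i / 3 ^ (j : ℕ) % 3 : ℕ)) : ℤ) - (T - t)) := by
      intro i
      obtain ⟨h3, h4⟩ := digit_add (d := d) (γ := W) (β := 3) (by norm_num) hW3 hQ i (hc i)
      rw [hs]
      simp only
      rw [ih' _ h3 (fun t' ht' => by
        rw [h4 t' ht']
        have h1 := hw t' ht'
        have h2 : i / 3 ^ t' % 3 < 3 := Nat.mod_lt _ (by norm_num)
        omega)]
      refine congrArg κ.enc (congrArg _ ?_)
      funext j
      rw [h4 j j.2]
    have hsq : ∀ i, s i < q := fun i => by rw [hs2 i]; exact κ.enc_lt _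
    have hy : ∑ i ∈ range (3 ^ d), s i * q ^ i = ∑ i ∈ range (3 ^ d), s i % q * q ^ i :=
      sum_congr rfl fun i _ => by rw [Nat.mod_eq_of_lt (hsq i)]
    rw [hy, dgt_tab κ hq (sum_digits_lt hq _ _)]
    rw [Function.iterate_succ_apply']
    refine congrArg κ.enc (congrArg M.rule ?_)
    funext v
    rw [dgt_eq, digit_sum hq _ s (codeV_lt v), Nat.mod_eq_of_lt (hsq _), hs2, κ.dec_enc]
    refine congrArg (M.step^[t] c) ?_
    funext j
    rw [codeV_digit v j.2]
    push_cast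
    ring

end Coding

end Pool.Agent.V7H59.CT
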