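import Pool.Agent.NPC.Prog
import Pool.Agent.V7H59.CT.Model

/-!
# Programs with a bound on the space used, and membership in linear space

Up to `haltList_toTM` this is a copy of `Pool/Agent/H623R2/PS/Space.lean` (starting files, helper623),
copied here to have fewer dependencies.
-/

set_option autoImplicit false

namespace Pool.Agent.V7H59.CT

open Turing Pool.Agent.NPC
open Function (update)

/-- All stacks have height at most `m`. -/
def Bd {K : Type} (m : ℕ) (s : K → List Bool) : Prop := ∀ i, (s i).length ≤ m

/-- Big-step semantics with a bound on the heights of the stacks at all times. -/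
inductive RunS {K : Type} [DecidableEq K] (m : ℕ) :
    Cmd K → (K → List Bool) → (K → List Bool) → Prop
  | skip (s) : Bd m s → RunS m Cmd.skip s s
  | push (s k b) : Bd m s → Bd m (update s k (b :: s k)) →
      RunS m (Cmd.push k b) s (update s k (b :: s k))
  | pop (s k) : Bd m s → RunS m (Cmd.pop k) s (update s k (s k).tail)
  | seq {c d s s' s''} : RunS m c s s' → RunS m d s' s'' → RunS m (Cmd.seq c d) s s''
  | casesNil {k c₀ cf ct s s'} : s k = [] → RunS m c₀ s s' → RunS m (Cmd.cases k c₀ cf ct) s s'
  | casesFalse {k c₀ cf ct s s' l} : s k = false :: l → RunS m cf s s' →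
      RunS m (Cmd.cases k c₀ cf ct) s s'
  | casesTrue {k c₀ cf ct s s' l} : s k = true :: l → RunS m ct s s' →
      RunS m (Cmd.cases k c₀ cf ct) s s'
  | loopNil {k c s} : s k = [] → Bd m s → RunS m (Cmd.loop k c) s s
  | loopCons {k c s s' s''} : s k ≠ [] → RunS m c s s' → RunS m (Cmd.loop k c) s' s'' →
      RunS m (Cmd.loop k c) s s''

theorem Bd.pop {K : Type} [DecidableEq K] {m : ℕ} {s : K → List Bool} (h : Bd m s) (k : K) :
    Bd m (update s k (s k).tail) := by
  intro i
  by_cases hi : i = k
  · subst hi
    have := h i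
    rw [Function.update_self, List.length_tail]
    omega
  · rw [Function.update_of_ne hi]
    exact h i

theorem RunS.left {K : Type} [DecidableEq K] {m : ℕ} {c : Cmd K} {s s' : K → List Bool}
    (h : RunS m c s s') : Bd m s := by
  induction h with
  | skip s h => exact h
  | push s k b h h' => exact h
  | pop s k h => exact h
  | seq _ _ ih _ => exact ih
  | casesNil _ _ ih => exact ih
  | casesFalse _ _ ih => exact ih
  | casesTrue _ _ ih => exact ih
  | loopNil _ h => exact h
  | loopCons _ _ _ ih _ => exact ih

theorem RunS.right {K : Type} [DecidableEq K] {m : ℕ} {c : Cmd K} {s s' : K → List Bool}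
    (h : RunS m c s s') : Bd m s' := by
  induction h with
  | skip s h => exact h
  | push s k b h h' => exact h'
  | pop s k h => exact h.pop k
  | seq _ _ _ ih => exact ih
  | casesNil _ _ ih => exact ih
  | casesFalse _ _ ih => exact ih
  | casesTrue _ _ ih => exact ih
  | loopNil _ h => exact h
  | loopCons _ _ _ _ ih => exact ih

/-- Runs of length `t` need little space. -/
theorem RunS.of_run {K : Type} [DecidableEq K] {c : Cmd K} {s s' : K → List Bool} {t : ℕ}
    (h : Run c s s' t) : ∀ m, (∀ i, (s i).length + t ≤ m) → RunS m c s s' := by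
  induction h with
  | skip s =>
    intro m hm
    exact RunS.skip s fun i => by have := hm i; omega
  | push s k b =>
    intro m hm
    refine RunS.push s k b (fun i => by have := hm i; omega) fun i => ?_
    by_cases hi : i = k
    · subst hi
      have := hm i
      rw [Function.update_self, List.length_cons]
      omega
    · rw [Function.update_of_ne hi]
      have := hm i
      omega
  | pop s k =>
    intro m hm
    exact RunS.pop s k fun i => by have := hm i; omega
  | @seq c d s s' s'' t t' h1 _ ih1 ih2 =>
    intro m hm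
    refine RunS.seq (ih1 m fun i => by have := hm i; omega) (ih2 m fun i => ?_)
    have h2 := h1.length_le i
    have := hm i
    omega
  | casesNil hk _ ih =>
    intro m hm
    exact RunS.casesNil hk (ih m fun i => by have := hm i; omega)
  | casesFalse hk _ ih =>
    intro m hm
    exact RunS.casesFalse hk (ih m fun i => by have := hm i; omega)
  | casesTrue hk _ ih =>
    intro m hm
    exact RunS.casesTrue hk (ih m fun i => by have := hm i; omega)
  | loopNil hk =>
    intro m hm
    exact RunS.loopNil hk fun i => by have := hm i; omega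
  | @loopCons k c s s' s'' t t' hk h1 _ ih1 ih2 =>
    intro m hm
    refine RunS.loopCons hk (ih1 m fun i => by have := hm i; omega) (ih2 m fun i => ?_)
    have h2 := h1.length_le i
    have := hm i
    omega

theorem RunS.of_runs {c : Cmd ℕ} {s s' : ℕ → List Bool} {t L m : ℕ} (h : Runs c s s' t)
    (hs : Bd L s) (hm : L + t ≤ m) : RunS m c s s' := by
  obtain ⟨t', ht, h⟩ := h
  exact RunS.of_run h m fun i => by have := hs i; omega

theorem Bd.mono {K : Type} {m m' : ℕ} {s : K → List Bool} (h : Bd m s) (hm : m ≤ m') : Bd m' s :=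
  fun i => (h i).trans hm

theorem RunS.restrict {m : ℕ} {c : Cmd ℕ} {s s' : ℕ → List Bool} (h : RunS m c s s') {n : ℕ}
    (hn : c.bd ≤ n + 1) :
    RunS m (c.map (Fin.ofNat (n + 1))) (fun i : Fin (n + 1) => s i) (fun i => s' i) := by
  induction h with
  | skip s h => exact RunS.skip _ fun i => h i
  | push s k b h h' =>
    have hk : k < n + 1 := hn
    have e := update_restrict hk s (b :: s k)
    rw [e]
    have h1 := RunS.push (m := m) (fun i : Fin (n + 1) => s i) (Fin.ofNat (n + 1) k) b
      (fun i => h i) (by
        intro i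
        have h2 := h' i
        have h3 := congrFun e i
        have h4 : (b :: (fun i : Fin (n + 1) => s i) (Fin.ofNat (n + 1) k)) = b :: s k := by
          simp [Nat.mod_eq_of_lt hk]
        rw [h4, ← h3]
        exact h2)
    simpa [Cmd.map, Nat.mod_eq_of_lt hk] using h1
  | pop s k h =>
    have hk : k < n + 1 := hn
    have := RunS.pop (m := m) (fun i : Fin (n + 1) => s i) (Fin.ofNat (n + 1) k) fun i => h i
    rw [update_restrict hk]
    simpa [Cmd.map, Nat.mod_eq_of_lt hk] using this
  | seq _ _ ih₁ ih₂ =>
    simp only [Cmd.bd, sup_le_iff] at hn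
    exact RunS.seq (ih₁ hn.1) (ih₂ hn.2)
  | @casesNil k c₀ cf ct s s' hk _ ih =>
    simp only [Cmd.bd, sup_le_iff] at hn
    refine RunS.casesNil ?_ (ih hn.2.1)
    simpa [Nat.mod_eq_of_lt hn.1] using hk
  | @casesFalse k c₀ cf ct s s' l hk _ ih =>
    simp only [Cmd.bd, sup_le_iff] at hn
    refine RunS.casesFalse (l := l) ?_ (ih hn.2.2.1)
    simpa [Nat.mod_eq_of_lt hn.1] using hk
  | @casesTrue k c₀ cf ct s s' l hk _ ih =>
    simp only [Cmd.bd, sup_le_iff] at hn
    refine RunS.casesTrue (l := l) ?_ (ih hn.2.2.2)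
    simpa [Nat.mod_eq_of_lt hn.1] using hk
  | @loopNil k c s hk h =>
    simp only [Cmd.bd, sup_le_iff] at hn
    refine RunS.loopNil ?_ fun i => h i
    simpa [Nat.mod_eq_of_lt hn.1] using hk
  | @loopCons k c s s' s'' hk _ _ ih₁ ih₂ =>
    have hn' := hn
    simp only [Cmd.bd, sup_le_iff] at hn
    refine RunS.loopCons ?_ (ih₁ hn.2) (ih₂ hn')
    simpa [Nat.mod_eq_of_lt hn.1] using hk

section Machine

variable {K : Type} [DecidableEq K] {L : Type}

/-- A machine step to a configuration with small stacks. -/
def SR (M : L → Cmd.Stm K L) (m : ℕ) (a b : TM2.Cfg (fun _ : K => Bool) L (Option Bool)) : Prop :=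
  TM2.step M a = some b ∧ Bd m b.stk

theorem codeS {m : ℕ} {c : Cmd K} {s s' : K → List Bool} (h : RunS m c s s') :
    ∀ (M : L → Cmd.Stm K L) (emb : c.Lbl → L) (exit : L),
      (∀ l, M (emb l) = c.code emb exit l) →
      ∀ v, ∃ v', Relation.ReflTransGen (SR M m) ⟨some (emb c.entry), v, s⟩ ⟨some exit, v', s'⟩ := by
  induction h with
  | skip s h =>
    intro M emb exit hM v
    refine ⟨v, Relation.ReflTransGen.single ⟨?_, h⟩⟩
    simp [TM2.step, hM, Cmd.code]
  | push s k b h h' =>
    intro M emb exit hM v
    refine ⟨v, Relation.ReflTransGen.single ⟨?_, h'⟩⟩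
    simp [TM2.step, hM, Cmd.code]
  | pop s k h =>
    intro M emb exit hM v
    refine ⟨v, Relation.ReflTransGen.single ⟨?_, h.pop k⟩⟩
    simp [TM2.step, hM, Cmd.code]
  | @seq c d s s' s'' _ _ ih₁ ih₂ =>
    intro M emb exit hM v
    obtain ⟨v₁, h₁⟩ := ih₁ M (fun x => emb (Sum.inl x)) (emb (Sum.inr d.entry))
      (fun l => hM (Sum.inl l)) v
    obtain ⟨v₂, h₂⟩ := ih₂ M (fun x => emb (Sum.inr x)) exit (fun l => hM (Sum.inr l)) v₁
    exact ⟨v₂, h₁.trans h₂⟩
  | @casesNil k c₀ cf ct s s' hk hr ih =>
    intro M emb exit hM v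
    obtain ⟨v₁, h₁⟩ := ih M (fun x => emb (some (Sum.inl x))) exit
      (fun l => hM (some (Sum.inl l))) none
    refine ⟨v₁, Relation.ReflTransGen.head ⟨?_, hr.left⟩ h₁⟩
    have : M (emb none) = _ := hM none
    simp [TM2.step, Cmd.entry, this, Cmd.code, hk]
  | @casesFalse k c₀ cf ct s s' l hk hr ih =>
    intro M emb exit hM v
    obtain ⟨v₁, h₁⟩ := ih M (fun x => emb (some (Sum.inr (Sum.inl x)))) exit
      (fun l => hM (some (Sum.inr (Sum.inl l)))) (some false)
    refine ⟨v₁, Relation.ReflTransGen.head ⟨?_, hr.left⟩ h₁⟩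
    have : M (emb none) = _ := hM none
    simp [TM2.step, Cmd.entry, this, Cmd.code, hk]
  | @casesTrue k c₀ cf ct s s' l hk hr ih =>
    intro M emb exit hM v
    obtain ⟨v₁, h₁⟩ := ih M (fun x => emb (some (Sum.inr (Sum.inr x)))) exit
      (fun l => hM (some (Sum.inr (Sum.inr l)))) (some true)
    refine ⟨v₁, Relation.ReflTransGen.head ⟨?_, hr.left⟩ h₁⟩
    have : M (emb none) = _ := hM none
    simp [TM2.step, Cmd.entry, this, Cmd.code, hk]
  | @loopNil k c s hk h =>
    intro M emb exit hM v
    refine ⟨none, Relation.ReflTransGen.single ⟨?_, h⟩⟩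
    have : M (emb none) = _ := hM none
    simp [TM2.step, Cmd.entry, this, Cmd.code, hk]
  | @loopCons k c s s' s'' hk hr _ ih₁ ih₂ =>
    intro M emb exit hM v
    obtain ⟨b, l, hl⟩ := List.exists_cons_of_ne_nil hk
    obtain ⟨v₁, h₁⟩ := ih₁ M (fun x => emb (some x)) (emb none)
      (fun l => hM (some l)) (some b)
    obtain ⟨v₂, h₂⟩ := ih₂ M emb exit hM v₁
    refine ⟨v₂, Relation.ReflTransGen.head ⟨?_, hr.left⟩ (h₁.trans h₂)⟩
    have : M (emb none) = _ := hM none
    simp [TM2.step, Cmd.entry, this, Cmd.code, hl]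

/-- Everything reachable lies on the path to the end. -/
theorem bd_of_reaches {M : L → Cmd.Stm K L} {m : ℕ}
    {a b c : TM2.Cfg (fun _ : K => Bool) L (Option Bool)}
    (hab : Relation.ReflTransGen (SR M m) a b) (ha : Bd m a.stk) (hb : TM2.step M b = none)
    (hac : StateTransition.Reaches (TM2.step M) a c) : Bd m c.stk := by
  induction hab using Relation.ReflTransGen.head_induction_on generalizing c with
  | refl =>
    rcases Relation.ReflTransGen.cases_head hac with h | ⟨d, h, _⟩
    · exact h ▸ ha
    · have h1 : TM2.step M b = some d := h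
      rw [hb] at h1
      cases h1
  | @head a a' haa' _ ih =>
    rcases Relation.ReflTransGen.cases_head hac with h | ⟨d, h, hdc⟩
    · exact h ▸ ha
    · have h1 : TM2.step M a = some d := h
      rw [haa'.1] at h1
      cases h1
      exact ih haa'.2 hdc

end Machine

theorem outputs_of_reaches {tm : FinTM2} {x : List (tm.Γ tm.k₀)} {y : List (tm.Γ tm.k₁)}
    (h : StateTransition.Reaches tm.step (initList tm x) (haltList tm y)) :
    Nonempty (TM2Outputs tm x (some y)) := by
  have key : ∀ a b : tm.Cfg, StateTransition.Reaches tm.step a b →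
      ∃ n, (flip bind tm.step)^[n] (some a) = some b := by
    intro a b h
    induction h with
    | refl => exact ⟨0, rfl⟩
    | @tail b c _ hbc ih =>
      obtain ⟨n, hn⟩ := ih
      refine ⟨n + 1, ?_⟩
      rw [Function.iterate_succ_apply', hn]
      exact hbc
  obtain ⟨n, hn⟩ := key _ _ h
  exact ⟨⟨n, hn⟩⟩

theorem initList_toTM {n : ℕ} (c : Cmd (Fin (n + 1))) (x : List Bool) :
    (initList c.toTM x) = ⟨some (some c.entry), none, @inp (Fin (n + 1)) _ _ x⟩ := by
  unfold initList
  congr 1
  funext k
  change Fin (n + 1) at k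
  by_cases hk : k = (0 : Fin (n + 1))
  · subst hk
    exact Eq.trans (dif_pos rfl) (by simp only [inp, Function.update_self]; rfl)
  · exact Eq.trans (dif_neg hk) (by simp [inp, hk]; rfl)

theorem haltList_toTM {n : ℕ} (c : Cmd (Fin (n + 1))) (y : List Bool) :
    (haltList c.toTM y) = ⟨none, none, @inp (Fin (n + 1)) _ _ y⟩ := by
  unfold haltList
  congr 1
  funext k
  change Fin (n + 1) at k
  by_cases hk : k = (0 : Fin (n + 1))
  · subst hk
    exact Eq.trans (dif_pos rfl) (by simp only [inp, Function.update_self]; rfl)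
  · exact Eq.trans (dif_neg hk) (by simp [inp, hk]; rfl)


/-- Finitely many stacks are enough. -/
theorem runS_fin {c : Cmd ℕ} {m : ℕ} {x y : List Bool} (h : RunS m c (inp x) (inp y)) :
    RunS m (c.map (Fin.ofNat (c.bd + 1))) (inp x : Fin (c.bd + 1) → List Bool) (inp y) := by
  have h1 := h.restrict (n := c.bd) (by omega)
  convert! h1 using 1
  · funext i
    by_cases hi : i = 0
    · subst hi; simp [inp]
    · have : (i : ℕ) ≠ 0 := fun h => hi (Fin.ext h)
      simp [inp, hi, this]
  · funext i
    by_cases hi : i = 0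
    · subst hi; simp [inp]
    · have : (i : ℕ) ≠ 0 := fun h => hi (Fin.ext h)
      simp [inp, hi, this]

/-- A program whose space is linearly bounded gives a language in linear space. -/
theorem inLinSpace_of_runS {L : Set (List Bool)} {f : List Bool → Bool}
    (hf : ∀ x, x ∈ L ↔ f x = true)
    (c : Cmd ℕ) (C : ℕ)
    (h : ∀ x : List Bool, RunS (C * (x.length + 1)) c (inp x) (inp [f x])) : InLinSpace L := by
  have key : ∀ x : List Bool, RunS (C * (x.length + 1)) (c.map (Fin.ofNat (c.bd + 1)))
      (inp x : Fin (c.bd + 1) → List Bool) (inp [f x]) := fun x => runS_fin (h x)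
  set d := c.map (Fin.ofNat (c.bd + 1)) with hd
  have path : ∀ x : List Bool, Relation.ReflTransGen
      (SR d.toTM.m (C * (x.length + 1))) (initList d.toTM x) (haltList d.toTM [f x]) := by
    intro x
    obtain ⟨v, hv⟩ := codeS (key x) (L := Option d.Lbl)
      (fun l => Option.rec (TM2.Stmt.load (fun _ => none) TM2.Stmt.halt)
        (fun l => d.code some none l) l) some none (fun l => rfl) none
    rw [initList_toTM, haltList_toTM]
    refine Relation.ReflTransGen.tail hv ⟨rfl, (key x).right⟩
  have hstop : ∀ x : List Bool, TM2.step d.toTM.m (haltList d.toTM [f x]) = none := by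
    intro x
    rw [haltList_toTM]
    rfl
  refine ⟨f, { tm := d.toTM
               inputAlphabet := Equiv.refl Bool
               outputAlphabet := Equiv.refl Bool
               outputsFun := fun x => ?_ },
    (c.bd + 1) * C, hf, ?_⟩
  · have h1 : StateTransition.Reaches d.toTM.step (initList d.toTM x) (haltList d.toTM [f x]) :=
      (path x).lift (fun a => a) (fun a b h => h.1)
    have h2 := (outputs_of_reaches h1).some
    have e1 : (x.map (Equiv.refl Bool).invFun) = x := List.map_id x
    refine ⟨h2.steps, ?_⟩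
    have h3 := h2.evals_in_steps
    convert! h3 using 2
    exact congrArg some (congrArg (initList d.toTM) e1)
  · intro x cf hcf
    have e1 : (x.map (Equiv.refl Bool).invFun) = x := List.map_id x
    have e2 : initList d.toTM (x.map (Equiv.refl Bool).invFun) = initList d.toTM x :=
      congrArg (initList d.toTM) e1
    have hcf' : StateTransition.Reaches (TM2.step d.toTM.m) (initList d.toTM x) cf :=
      Eq.mp (congrArg (fun z => StateTransition.Reaches (TM2.step d.toTM.m) z cf) e2) hcf
    have ha : Bd (C * (x.length + 1)) (initList d.toTM x).stk := by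
      rw [initList_toTM]
      exact (key x).left
    have hbd := bd_of_reaches (path x) ha (hstop x) hcf'
    have h4 : space cf = ∑ k : Fin (c.bd + 1), (cf.stk k).length := rfl
    rw [h4]
    calc ∑ k : Fin (c.bd + 1), (cf.stk k).length
        ≤ ∑ _k : Fin (c.bd + 1), C * (x.length + 1) := Finset.sum_le_sum fun k _ => hbd k
      _ = (c.bd + 1) * C * (x.length + 1) := by simp [mul_assoc]

end Pool.Agent.V7H59.CT
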