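import Pool.Agent.V7H59.CT.Cont

/-!
# Witnesses
-/

set_option autoImplicit false

namespace Pool.Agent.V7H59.CT

open Finset

/-- The input `x` with the witness `y`: after each symbol of `x` come the next `c` symbols of `y`. -/
def mix (c : ℕ) : List Bool → List Bool → List Bool
  | [], _ => []
  | a :: x, y => a :: (y.take c ++ mix c x (y.drop c))

theorem length_mix (c : ℕ) : ∀ x y : List Bool, y.length = c * x.length →
    (mix c x y).length = (c + 1) * x.length := by
  intro x
  induction x with
  | nil => intro y _; simp [mix]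
  | cons a x ih =>
    intro y hy
    rw [List.length_cons] at hy
    have h1 : (y.drop c).length = c * x.length := by
      rw [List.length_drop, hy, Nat.mul_succ, Nat.add_sub_cancel]
    rw [mix, List.length_cons, List.length_append, ih _ h1, List.length_take, hy,
      List.length_cons, min_eq_left (by rw [Nat.mul_succ]; omega)]
    ring

/-- The bits of a list, and zero outside. -/
def bt (x : List Bool) (k : ℕ) : ℕ := (x[k]?.getD false).toNat

theorem bt_lt (x : List Bool) (k : ℕ) : bt x k < 2 := by
  unfold bt
  exact Bool.toNat_lt _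

theorem num_eq_sum (x : List Bool) :
    num x = ∑ k ∈ range x.length, bt x k * 2 ^ k + 2 ^ x.length := by
  induction x with
  | nil => simp [num]
  | cons a x ih =>
    rw [num, Nat.bit_val, ih, List.length_cons, sum_range_succ']
    have e : ∀ k, bt (a :: x) (k + 1) = bt x k := fun k => by
      unfold bt
      rw [List.getElem?_cons_succ]
    have e0 : bt (a :: x) 0 = a.toNat := by
      unfold bt
      simp
    rw [e0]
    simp only [e, pow_succ, pow_zero]
    rw [mul_add, mul_sum]
    have : ∑ i ∈ range x.length, 2 * (bt x i * 2 ^ i) = ∑ i ∈ range x.length,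
        bt x i * (2 ^ i * 2) := sum_congr rfl fun i _ => by ring
    rw [this]
    ring

theorem dgt_num {x : List Bool} {k : ℕ} (hk : k < x.length) : dgt 2 (num x) k = bt x k := by
  rw [dgt_eq, num_digit x k x[k] (List.getElem?_eq_getElem hk)]
  unfold bt
  rw [List.getElem?_eq_getElem hk]
  rfl

theorem bt_mix (c : ℕ) : ∀ (x y : List Bool), y.length = c * x.length → ∀ i < x.length,
    ∀ r ≤ c, bt (mix c x y) (i * (c + 1) + r) =
      if r = 0 then bt x i else bt y (i * c + (r - 1)) := by
  intro x
  induction x with
  | nil => intro y _ i hi; simp at hi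
  | cons a x ih =>
    intro y hy i hi r hr
    rw [List.length_cons] at hy hi
    have h1 : (y.drop c).length = c * x.length := by
      rw [List.length_drop, hy, Nat.mul_succ, Nat.add_sub_cancel]
    have h2 : (y.take c).length = c := by
      rw [List.length_take, hy]
      exact min_eq_left (by rw [Nat.mul_succ]; omega)
    rw [mix]
    cases i with
    | zero =>
      rw [Nat.zero_mul, Nat.zero_add]
      cases r with
      | zero => simp [bt]
      | succ r =>
        rw [if_neg (Nat.succ_ne_zero r)]
        unfold bt
        rw [List.getElem?_cons_succ, List.getElem?_append_left (by omega),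
          List.getElem?_take, if_pos (by omega)]
        congr 3
        omega
    | succ i =>
      have e1 : (i + 1) * (c + 1) + r = (c + (i * (c + 1) + r)) + 1 := by ring
      have h3 := ih _ h1 i (by omega) r hr
      rw [e1]
      have e2 : bt (a :: (y.take c ++ mix c x (y.drop c))) ((c + (i * (c + 1) + r)) + 1) =
          bt (mix c x (y.drop c)) (i * (c + 1) + r) := by
        unfold bt
        rw [List.getElem?_cons_succ, List.getElem?_append_right (by omega), h2,
          Nat.add_sub_cancel_left]
      rw [e2, h3]
      split_ifs with h4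
      · unfold bt
        rw [List.getElem?_cons_succ]
      · unfold bt
        rw [List.getElem?_drop]
        congr 3
        ring

/-- The number of the pair. -/
def mixN (c X Y : ℕ) : ℕ :=
  mkN ((powT 2 (sz X - 1) X) ^ (c + 1)) 2 ((c + 1) * (sz X - 1)) (fun k =>
    if k % (c + 1) = 0 then dgt 2 X (k / (c + 1)) else dgt 2 Y (k / (c + 1) * c +
      (k % (c + 1) - 1))) + (powT 2 (sz X - 1) X) ^ (c + 1)

theorem pow_le_num (x : List Bool) : 2 ^ x.length ≤ num x := by
  rw [num_eq_sum]
  exact Nat.le_add_left _ _

theorem num_lt (x : List Bool) : num x < 2 ^ (x.length + 1) := by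
  have h := Nat.lt_size_self (num x)
  rwa [num_size] at h

theorem powT_num (x : List Bool) : powT 2 (sz (num x) - 1) (num x) = 2 ^ x.length := by
  rw [sz_eq, num_size, Nat.add_sub_cancel, powT_eq (pow_le_num x)]

theorem mixN_num {c : ℕ} {x y : List Bool} (hy : y.length = c * x.length) :
    mixN c (num x) (num y) = num (mix c x y) := by
  unfold mixN
  rw [powT_num, sz_eq, num_size, Nat.add_sub_cancel, num_eq_sum (mix c x y), length_mix c x y hy,
    ← pow_mul, mul_comm x.length (c + 1), mkN_eq (by norm_num) le_rfl]
  congr 1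
  refine sum_congr rfl fun k hk => ?_
  rw [mem_range] at hk
  have hc : 0 < c + 1 := Nat.succ_pos c
  have h1 : k / (c + 1) < x.length := by
    rw [Nat.div_lt_iff_lt_mul hc]
    rwa [mul_comm] at hk
  have h2 : k % (c + 1) ≤ c := Nat.lt_succ_iff.1 (Nat.mod_lt _ hc)
  have h3 : k / (c + 1) * (c + 1) + k % (c + 1) = k := Nat.div_add_mod' k (c + 1)
  have h4 := bt_mix c x y hy _ h1 _ h2
  rw [h3] at h4
  rw [h4]
  congr 1
  split_ifs with h5
  · rw [dgt_num h1]
    exact Nat.mod_eq_of_lt (bt_lt _ _)
  · have h6 : k / (c + 1) * c + (k % (c + 1) - 1) < y.length := by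
      rw [hy]
      calc k / (c + 1) * c + (k % (c + 1) - 1) < k / (c + 1) * c + c := by omega
        _ = c * (k / (c + 1) + 1) := by ring
        _ ≤ c * x.length := Nat.mul_le_mul_left _ h1
    rw [dgt_num h6]
    exact Nat.mod_eq_of_lt (bt_lt _ _)

theorem L.mixN (c : ℕ) {A B : (ℕ → ℕ) → ℕ} (hA : L A) (hB : L B) :
    L (fun e => CT.mixN c (A e) (B e)) := by
  have hn : L (fun e => CT.sz (A e) - 1) := hA.sz.sub (L.const 1)
  have hP : L (fun e => CT.powT 2 (CT.sz (A e) - 1) (A e) ^ (c + 1)) :=
    (L.powT (L.const 2) hn hA).powc (c + 1)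
  refine (L.mkN (f := fun e k => if k % (c + 1) = 0 then CT.dgt 2 (A e) (k / (c + 1)) else
    CT.dgt 2 (B e) (k / (c + 1) * c + (k % (c + 1) - 1))) hP (L.const 2)
    ((L.const (c + 1)).mul hn) ?_ (fun _ => by norm_num)).add hP
  have hk : L (fun z => z 0) := L.var 0
  exact L.ite0 (hk.mod (L.const (c + 1))) (L.dgt (L.const 2) hA.tl (hk.div (L.const (c + 1))))
    (L.dgt (L.const 2) hB.tl (((hk.div (L.const (c + 1))).mul (L.const c)).add
      ((hk.mod (L.const (c + 1))).sub (L.const 1))))

end Pool.Agent.V7H59.CT
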