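import Pool.Agent.V7H59.CT.Wit

/-!
# The diagonal argument with witnesses
-/

set_option autoImplicit false

namespace Pool.Agent.V7H59.CT

open Finset

/-- The code without its last entry. -/
def recode (e : ℕ) : ℕ := mkC (un 0 e) (un 1 e) (un 2 e) (un 3 e) (un 4 e) (un 5 e) (un 6 e)

theorem recode_mkC (tab q i0 i1 bl am t j : ℕ) :
    recode (mkC tab q i0 i1 bl am (Nat.pair t j)) = mkC tab q i0 i1 bl am t := by
  unfold recode mkC
  simp [un]

theorem rst_mkC (tab q i0 i1 bl am t j : ℕ) :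
    rst 7 (mkC tab q i0 i1 bl am (Nat.pair t j)) = j := by
  unfold mkC
  simp [rst]

theorem L.recode {A : (ℕ → ℕ) → ℕ} (hA : L A) : L (fun e => CT.recode (A e)) := by
  unfold CT.recode mkC
  exact (L.un 0 hA).pair ((L.un 1 hA).pair ((L.un 2 hA).pair ((L.un 3 hA).pair ((L.un 4 hA).pair
    ((L.un 5 hA).pair (L.un 6 hA))))))

/-- The number of the witnesses. -/
def PX2 (c X : ℕ) : ℕ := (powT 2 (sz X - 1) X) ^ c

/-- One if the automaton accepts the witness number `i`. -/
def leafX (d C c X e i : ℕ) : ℕ :=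
  if FX d C (Nat.pair (mixN c X (PX2 c X + i)) e) = 0 then 1 else 0

/-- The answer for the code `e`, opposite to the answer of the automaton. -/
def GX (d C c X e : ℕ) : ℕ :=
  if ∑ i ∈ range (PX2 c X), leafX d C c X (recode e) i < powT 2 (rst 7 e) (PX2 c X) then 1 else 0

theorem L.PX2 (c : ℕ) {A : (ℕ → ℕ) → ℕ} (hA : L A) : L (fun e => CT.PX2 c (A e)) :=
  (L.powT (L.const 2) (hA.sz.sub (L.const 1)) hA).powc c

theorem L.GX (d C c : ℕ) {A E : (ℕ → ℕ) → ℕ} (hA : L A) (hE : L E) :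
    L (fun e => CT.GX d C c (A e) (E e)) := by
  refine L.ite_lt (L.sum (f := fun e i => leafX d C c (A e) (CT.recode (E e)) i)
    (B := fun _ => 1) (L.PX2 c hA) ?_ (L.const 1) fun e i _ => ?_)
    (L.powT (L.const 2) (L.rst 7 hE) (L.PX2 c hA)) (L.const 1) L.zero
  · exact L.ite0 (L.FX d C ((L.mixN c hA.tl ((L.PX2 c hA.tl).add (L.var 0))).pair
      (L.recode hE.tl))) (L.const 1) L.zero
  · unfold leafX
    split_ifs <;> omega

/-- The language. -/
def langW (d C c : ℕ) : Set (List Bool) := {x | GX d C c (num x) (selfC (num x)) ≠ 0}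

theorem L_langW (d C c : ℕ) : L (fun e => GX d C c (e 0) (selfC (e 0))) :=
  L.GX d C c (L.var 0) ((L.var 0).sub (L.powT (L.const 2) ((L.var 0).sz.sub (L.const 1))
    (L.var 0)))

theorem mem_langW {d C c : ℕ} {x : List Bool} :
    x ∈ langW d C c ↔ GX d C c (num x) (selfC (num x)) ≠ 0 := Iff.rfl

theorem langW_inLinSpace (d C c : ℕ) : InLinSpace (langW d C c) :=
  inLinSpace_of_L (L_langW d C c) _ fun x => by
    rw [Function.update_self]
    rfl

/-- The witnesses which are accepted. -/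
def accW {d : ℕ} [NeZero d] (M : CellAut d) (c : ℕ) (x : List Bool) (t : ℕ) : Set (List Bool) :=
  {y | y.length = c * x.length ∧ M.accepts (mix c x y) t}

theorem PX2_num (c : ℕ) (x : List Bool) : PX2 c (num x) = 2 ^ (c * x.length) := by
  unfold PX2
  rw [powT_num, ← pow_mul, mul_comm]

open Classical in
theorem sum_leaf {d c C : ℕ} [NeZero d] {M : CellAut d} {e t : ℕ} {x : List Bool}
    (h : ∀ y : List Bool, y.length = c * x.length →
      (FX d C (Nat.pair (num (mix c x y)) e) = 0 ↔ M.accepts (mix c x y) t)) :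
    ∑ i ∈ range (2 ^ (c * x.length)), leafX d C c (num x) e i = (accW M c x t).ncard := by
  set N := 2 ^ (c * x.length) with hN
  set S : Finset ℕ := (range N).filter fun i =>
    FX d C (Nat.pair (mixN c (num x) (N + i)) e) = 0 with hS
  have h1 : ∑ i ∈ range N, leafX d C c (num x) e i = S.card := by
    rw [hS, card_filter]
    refine sum_congr rfl fun i _ => ?_
    unfold leafX
    rw [PX2_num]
  rw [h1, ← Set.ncard_coe_finset]
  symm
  refine Set.ncard_congr (fun y _ => num y - N) ?_ ?_ ?_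
  · rintro y ⟨hy, hacc⟩
    have h2 : N ≤ num y := by rw [hN, ← hy]; exact pow_le_num y
    have h3 : num y < 2 * N := by
      have := num_lt y
      rw [hy, pow_succ] at this
      rw [hN]
      omega
    rw [mem_coe, hS, mem_filter, mem_range]
    refine ⟨by omega, ?_⟩
    rw [Nat.add_sub_cancel' h2, mixN_num hy]
    exact (h y hy).2 hacc
  · rintro y z ⟨hy, _⟩ ⟨hz, _⟩ hyz
    have h2 : N ≤ num y := by rw [hN, ← hy]; exact pow_le_num y
    have h3 : N ≤ num z := by rw [hN, ← hz]; exact pow_le_num z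
    exact num_inj (by omega)
  · intro i hi
    rw [mem_coe, hS, mem_filter, mem_range] at hi
    obtain ⟨y, hy, hy'⟩ := exists_num (c * x.length) i hi.1
    refine ⟨y, ⟨hy, ?_⟩, by rw [hy']; omega⟩
    have h2 := hi.2
    rw [← hy', mixN_num hy] at h2
    exact (h y hy).1 h2

theorem FXW_iff {d c' c : ℕ} [NeZero d] {M : CellAut d} {q n t : ℕ} (κ : Coding M (q + 2))
    {x : List Bool} (hx : x.length = n) (hn : 1 ≤ n) (hq : q + 2 ≤ n)
    (ht : (t * ((c + 1) * n).size) ^ d * (q + 2).size ≤ c' * ((c + 1) * n) ^ (d + 1))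
    {y : List Bool} (hy : y.length = c * x.length) :
    FX d (Cst d c') (Nat.pair (num (mix c x y)) (mkC κ.tab q (κ.enc (M.input false))
      (κ.enc (M.input true)) (κ.enc M.blank) κ.am t)) = 0 ↔ M.accepts (mix c x y) t := by
  have h1 : (mix c x y).length = (c + 1) * n := by rw [length_mix c x y hy, hx]
  have h2 : n ≤ (c + 1) * n := Nat.le_mul_of_pos_left _ (by omega)
  have h3 := FX_iff κ h1 (by omega) (by omega) ht
  constructor
  · intro h
    by_contra h4
    exact h3.2 h4 h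
  · intro h
    by_contra h4
    exact h3.1 h4 h

theorem exists_diagW {d c' c : ℕ} [NeZero d] {M : CellAut d} {q n t j : ℕ}
    (hk : Fintype.card M.Q ≤ q + 2) (hn : 1 ≤ n) (hq : (q + 2) ^ (3 ^ d + 2) ≤ n)
    (hq64 : q + 2 ≤ n / 64) (ht64 : Nat.pair t j < 2 ^ (n / 64)) (hj : j ≤ c * n)
    (ht : (t * ((c + 1) * n).size) ^ d * (q + 2).size ≤ c' * ((c + 1) * n) ^ (d + 1)) :
    ∃ x : List Bool, x.length = n ∧
      ¬ (x ∈ langW d (Cst d c') c ↔ 2 ^ j ≤ (accW M c x t).ncard) := by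
  set κ := coding M hk with hκ
  have h2n : ∀ {a : ℕ}, a < q + 2 → a < 2 ^ (n / 64) := fun h =>
    h.trans (Nat.lt_two_pow_self.trans_le (Nat.pow_le_pow_right (by norm_num) hq64))
  have htab : κ.tab < 2 ^ (n / 2) := by
    have h1 : κ.tab < (q + 2) ^ (q + 2) ^ 3 ^ d := sum_digits_lt (by omega) _ _
    refine h1.trans_le ?_
    calc (q + 2) ^ (q + 2) ^ 3 ^ d ≤ (2 ^ (q + 2)) ^ (q + 2) ^ 3 ^ d :=
          Nat.pow_le_pow_left Nat.lt_two_pow_self.le _
      _ = 2 ^ ((q + 2) * (q + 2) ^ 3 ^ d) := (pow_mul _ _ _).symm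
      _ ≤ 2 ^ (n / 2) := by
          refine Nat.pow_le_pow_right (by norm_num) ?_
          rw [Nat.le_div_iff_mul_le (by norm_num)]
          refine le_trans ?_ hq
          rw [pow_add, pow_two, mul_comm (q + 2) ((q + 2) ^ 3 ^ d), mul_assoc]
          exact Nat.mul_le_mul_left _ (Nat.mul_le_mul_left _ (by omega))
  have ham : κ.am < 2 ^ (n / 64) := by
    have h1 : κ.am < 2 ^ (q + 2) := by
      unfold Coding.am
      exact sum_digits_lt (by norm_num) _ _
    exact h1.trans_le (Nat.pow_le_pow_right (by norm_num) hq64)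
  have he : mkC κ.tab q (κ.enc (M.input false)) (κ.enc (M.input true)) (κ.enc M.blank) κ.am
      (Nat.pair t j) < 2 ^ n := by
    refine (mkC_lt (μ := n / 64) (ν := n / 2) (h2n (by omega)) (h2n (κ.enc_lt _))
      (h2n (κ.enc_lt _)) (h2n (κ.enc_lt _)) ham ht64 htab (by omega)).trans_le ?_
    exact Nat.pow_le_pow_right (by norm_num) (by omega)
  obtain ⟨x, hx, hx'⟩ := exists_num n _ he
  refine ⟨x, hx, ?_⟩
  have h0 := sum_leaf (M := M) (x := x) (c := c) fun y hy =>
    FXW_iff κ hx hn (by omega) ht hy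
  have h1 : x ∈ langW d (Cst d c') c ↔ ¬ 2 ^ j ≤ (accW M c x t).ncard := by
    rw [mem_langW, selfC_num hx hx']
    unfold GX
    rw [recode_mkC, rst_mkC, PX2_num, h0,
      powT_eq (Nat.pow_le_pow_right (by norm_num) (by rw [hx]; exact hj))]
    constructor
    · intro h
      by_contra h2
      apply h
      rw [if_neg (by omega)]
    · intro h
      rw [if_pos (by omega)]
      exact one_ne_zero
  rw [h1]
  exact not_iff_self

theorem size_mul_log {c n : ℕ} (hn : 2 ≤ n) :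
    ((c + 1) * n).size ≤ ((c + 1).size + 2) * Nat.log 2 n := by
  have hlog : 1 ≤ Nat.log 2 n := Nat.log_pos (by norm_num) hn
  have h1 : ((c + 1) * n).size ≤ (c + 1).size + n.size := by
    rw [Nat.size_le, pow_add]
    exact Nat.mul_lt_mul'' (Nat.lt_size_self _) (Nat.lt_size_self _)
  have h2 := size_le_two_log hn
  nlinarith

theorem lang_hardW (d : ℕ) [NeZero d] (c : ℕ) :
    ∃ c' n₀ : ℕ, ∀ n ≥ n₀, ∀ M : CellAut d, Fintype.card M.Q ^ (3 ^ d + 2) ≤ n →
      ∀ t : ℕ, (t * Nat.log 2 n) ^ d * (Nat.log 2 (Fintype.card M.Q) + 1) ≤ c * n ^ (d + 1) →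
        ∀ j ≤ c * n, ∃ x : List Bool, x.length = n ∧
          ¬ (x ∈ langW d (Cst d c') c ↔ 2 ^ j ≤ (accW M c x t).ncard) := by
  have hd : 1 ≤ d := Nat.pos_of_ne_zero (NeZero.ne d)
  set s := (c + 1).size + 2 with hs
  set c' := s ^ d * 2 * c with hc'
  obtain ⟨m₀, hm₀⟩ := exists_pow_lt ((2 * (c + 1) * 128 ^ (d + 1)) ^ 2) (2 * (d + 1))
  refine ⟨c', max (2 ^ (3 ^ d + 2)) (max 4096 (64 * (m₀ + 1))), fun n hn M hM t ht j hj => ?_⟩
  obtain ⟨hn1, hn2⟩ := max_le_iff.1 hn
  obtain ⟨hn3, hn4⟩ := max_le_iff.1 hn2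
  clear hn hn2
  set k := Fintype.card M.Q with hk
  have hk1 : 1 ≤ k := Fintype.card_pos_iff.2 ⟨M.blank⟩
  obtain ⟨q, hq⟩ : ∃ q, max k 2 = q + 2 := ⟨max k 2 - 2, by
    have := le_max_right k 2
    omega⟩
  have hkq : k ≤ q + 2 := by rw [← hq]; exact le_max_left _ _
  have hqn : (q + 2) ^ (3 ^ d + 2) ≤ n := by
    rw [← hq]
    rcases le_total k 2 with h | h
    · rw [max_eq_right h]
      exact hn1
    · rw [max_eq_left h]
      exact hM
  have hq64 : q + 2 ≤ n / 64 := by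
    rw [Nat.le_div_iff_mul_le (by norm_num)]
    rcases Nat.lt_or_ge (q + 2) 64 with h | h
    · omega
    · calc (q + 2) * 64 ≤ (q + 2) * (q + 2) := Nat.mul_le_mul_left _ h
        _ = (q + 2) ^ 2 := (pow_two _).symm
        _ ≤ (q + 2) ^ (3 ^ d + 2) := Nat.pow_le_pow_right (by omega) (Nat.le_add_left _ _)
        _ ≤ n := hqn
  have hqs : (q + 2).size ≤ 2 * (Nat.log 2 k + 1) := by
    rcases le_total k 2 with h | h
    · have : q + 2 = 2 := by rw [← hq, max_eq_right h]
      rw [this]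
      have h2 : (2 : ℕ).size ≤ 2 := Nat.size_le.2 (by norm_num)
      omega
    · have : q + 2 = k := by rw [← hq, max_eq_left h]
      rw [this]
      exact (size_le_two_log h).trans (by omega)
  have ht' : (t * ((c + 1) * n).size) ^ d * (q + 2).size ≤ c' * ((c + 1) * n) ^ (d + 1) := by
    calc (t * ((c + 1) * n).size) ^ d * (q + 2).size ≤
        (t * (s * Nat.log 2 n)) ^ d * (2 * (Nat.log 2 k + 1)) :=
          Nat.mul_le_mul (Nat.pow_le_pow_left
            (Nat.mul_le_mul_left _ (size_mul_log (by omega))) d) hqs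
      _ = s ^ d * 2 * ((t * Nat.log 2 n) ^ d * (Nat.log 2 k + 1)) := by
          rw [show t * (s * Nat.log 2 n) = s * (t * Nat.log 2 n) by ring, mul_pow]
          ring
      _ ≤ s ^ d * 2 * (c * n ^ (d + 1)) := Nat.mul_le_mul_left _ ht
      _ = c' * n ^ (d + 1) := by rw [hc']; ring
      _ ≤ c' * ((c + 1) * n) ^ (d + 1) :=
          Nat.mul_le_mul_left _ (Nat.pow_le_pow_left (Nat.le_mul_of_pos_left _ (by omega)) _)
  have ht1 : t ≤ c * n ^ (d + 1) := by
    have hlog : 1 ≤ Nat.log 2 n := Nat.log_pos (by norm_num) (by omega)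
    calc t ≤ t * Nat.log 2 n := Nat.le_mul_of_pos_right _ hlog
      _ ≤ (t * Nat.log 2 n) ^ d := Nat.le_self_pow (by omega) _
      _ ≤ (t * Nat.log 2 n) ^ d * (Nat.log 2 k + 1) := Nat.le_mul_of_pos_right _ (by omega)
      _ ≤ _ := ht
  have ht64 : Nat.pair t j < 2 ^ (n / 64) := by
    have h2 : n ≤ 128 * (n / 64) := by omega
    have h3 := hm₀ (n / 64) (by omega)
    have h4 : n ≤ n ^ (d + 1) := Nat.le_self_pow (by omega) _
    have h5 : t ≤ (c + 1) * n ^ (d + 1) := ht1.trans (Nat.mul_le_mul_right _ (by omega))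
    have h6 : j ≤ (c + 1) * n ^ (d + 1) := hj.trans (Nat.mul_le_mul (by omega) h4)
    have h7 : 1 ≤ n ^ (d + 1) := Nat.one_le_pow _ _ (by omega)
    have h8 : Nat.pair t j < ((c + 1) * n ^ (d + 1) + 1) ^ 2 :=
      (Nat.pair_lt_max_add_one_sq t j).trans_le
        (Nat.pow_le_pow_left (Nat.succ_le_succ (max_le h5 h6)) 2)
    calc Nat.pair t j < ((c + 1) * n ^ (d + 1) + 1) ^ 2 := h8
      _ ≤ (2 * (c + 1) * n ^ (d + 1)) ^ 2 := by
          refine Nat.pow_le_pow_left ?_ 2
          nlinarith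
      _ ≤ (2 * (c + 1) * (128 * (n / 64)) ^ (d + 1)) ^ 2 :=
          Nat.pow_le_pow_left (Nat.mul_le_mul_left _ (Nat.pow_le_pow_left h2 _)) 2
      _ = (2 * (c + 1) * 128 ^ (d + 1)) ^ 2 * (n / 64) ^ (2 * (d + 1)) := by
          rw [mul_pow 128, ← mul_assoc, mul_pow _ ((n / 64) ^ (d + 1)), ← pow_mul,
            mul_comm (d + 1) 2]
      _ < 2 ^ (n / 64) := h3
  exact exists_diagW hkq (by omega) hqn hq64 ht64 hj ht'

end Pool.Agent.V7H59.CT
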